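import Pool.Agent.Helper85.PW.Defs
import Pool.Agent.Helper85.SV.Main

/-!
# Project PRIMES, windows half: the density of the rough numbers and the sum of their reciprocals
-/

set_option autoImplicit false

namespace Pool.Agent.PW

open Finset

theorem VV_pos (z : ℝ) : 0 < VV z := by
  unfold VV
  refine prod_pos fun p hp => ?_
  have h1 : (1 : ℝ) < p := by exact_mod_cast (mem_filter.1 hp).2.one_lt
  rw [sub_pos, div_lt_one (by linarith)]
  exact h1

theorem VV_le_one (z : ℝ) : VV z ≤ 1 := by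
  unfold VV
  refine prod_le_one (fun p hp => ?_) fun p hp => ?_
  · have h1 : (1 : ℝ) < p := by exact_mod_cast (mem_filter.1 hp).2.one_lt
    rw [sub_nonneg, div_le_one (by linarith)]
    exact h1.le
  · have : (0 : ℝ) ≤ 1 / p := by positivity
    linarith

private theorem upper85 : ∃ C : ℝ, 0 < C ∧ ∀ z : ℝ, 2 ≤ z → VV z ≤ C / Real.log z := by
  obtain ⟨C, hC0, hC⟩ := Pool.Agent.Helper66.AF.mertens_lower
  refine ⟨2 * Real.exp C + Real.log 4, by
    have := Real.log_nonneg (show (1 : ℝ) ≤ 4 by norm_num)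
    positivity, fun z hz => ?_⟩
  have hlz : 0 < Real.log z := Real.log_pos (by linarith)
  have hl4 : 0 ≤ Real.log 4 := Real.log_nonneg (by norm_num)
  rw [le_div_iff₀ hlz]
  rcases lt_or_ge z 4 with h4 | h4
  · have h1 : Real.log z ≤ Real.log 4 := Real.log_le_log (by linarith) h4.le
    have h2 := VV_le_one z
    have h3 := VV_pos z
    have h5 : (0 : ℝ) < Real.exp C := Real.exp_pos _
    nlinarith
  · obtain ⟨y, hy⟩ : ∃ y : ℕ, y + 1 = ⌈z⌉₊ := ⟨⌈z⌉₊ - 1, by
      have : 0 < ⌈z⌉₊ := Nat.ceil_pos.2 (by linarith)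
      omega⟩
    have hyz : z - 1 ≤ y := by
      have h1 := Nat.le_ceil z
      rw [← hy] at h1
      push_cast at h1
      linarith
    have hy3 : 3 ≤ y := by
      have : (3 : ℝ) ≤ y := by linarith
      exact_mod_cast this
    have hyr : (3 : ℝ) ≤ y := by exact_mod_cast hy3
    have hly : 0 < Real.log y := Real.log_pos (by linarith)
    have h1 := hC y hy3
    have h2 : VV z ≤ Real.exp (-(∑ p ∈ Pool.Agent.Helper5.RM.PP y, (1 : ℝ) / p)) := by
      have e : (range ⌈z⌉₊).filter Nat.Prime = Pool.Agent.Helper5.RM.PP y := by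
        unfold Pool.Agent.Helper5.RM.PP
        ext p
        rw [mem_filter, mem_filter, mem_range, mem_Icc, ← hy]
        constructor
        · rintro ⟨h5, h6⟩
          exact ⟨⟨h6.one_lt.le, by omega⟩, h6⟩
        · rintro ⟨⟨_, h5⟩, h6⟩
          exact ⟨by omega, h6⟩
      unfold VV
      rw [e, ← sum_neg_distrib, Real.exp_sum]
      refine prod_le_prod (fun p hp => ?_) fun p _ => ?_
      · have h1 : (1 : ℝ) < p := by exact_mod_cast (mem_filter.1 hp).2.one_lt
        rw [sub_nonneg, div_le_one (by linarith)]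
        exact h1.le
      · exact Real.one_sub_le_exp_neg _
    have h3 : VV z ≤ Real.exp C / Real.log y := by
      refine h2.trans ?_
      have e5 : Real.exp C / Real.log y = Real.exp (C - Real.log (Real.log y)) := by
        rw [Real.exp_sub, Real.exp_log hly]
      rw [e5]
      exact Real.exp_le_exp.2 (by linarith)
    have h4' : Real.log z ≤ 2 * Real.log y := by
      have h5 : z ≤ (y : ℝ) ^ 2 := by nlinarith
      have h6 := Real.log_le_log (by linarith) h5
      rw [Real.log_pow] at h6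
      push_cast at h6
      exact h6
    calc VV z * Real.log z ≤ Real.exp C / Real.log y * (2 * Real.log y) := by
          apply mul_le_mul h3 h4' hlz.le (by positivity)
      _ = 2 * Real.exp C := by field_simp
      _ ≤ _ := by linarith

/-- The density of the rough numbers. -/
theorem VV_bounds : ∃ c C : ℝ, 0 < c ∧ 0 < C ∧ ∀ z : ℝ, 2 ≤ z → c / Real.log z ≤ VV z ∧ VV z ≤ C / Real.log z := by
  obtain ⟨c, hc, h1⟩ := Pool.Agent.Helper85.SV.prod_lower
  obtain ⟨C, hC, h2⟩ := upper85
  refine ⟨c, C, hc, hC, fun z hz => ⟨h1 _ z hz fun p hp => ?_, h2 z hz⟩⟩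
  rw [mem_filter, mem_range, Nat.lt_ceil] at hp
  exact ⟨hp.2, hp.1⟩

/-- The reciprocals. -/
private noncomputable def iv85 : ℕ →* ℝ where
  toFun n := 1 / (n : ℝ)
  map_one' := by simp
  map_mul' m n := by push_cast; rw [one_div_mul_one_div]

/-- The sum of the reciprocals of the rough numbers. -/
theorem sum_RR : ∃ C : ℝ, 0 < C ∧ ∀ z y : ℝ, 2 ≤ z → z ≤ y →
    ∑ n ∈ (Icc 1 ⌊y⌋₊).filter (RR z), (1 : ℝ) / n ≤ C * Real.log y / Real.log z := by
  obtain ⟨c, C, hc, hC, hV⟩ := VV_bounds
  refine ⟨2 * C / c, by positivity, fun z y hz hzy => ?_⟩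
  have hlz : 0 < Real.log z := Real.log_pos (by linarith)
  have hly : 0 < Real.log y := Real.log_pos (by linarith)
  have hy0 : 0 ≤ y := by linarith
  set w : ℝ := y + 1 with hw
  set S : Finset ℕ := (Ico ⌈z⌉₊ ⌈w⌉₊).filter Nat.Prime with hS
  have hmul : VV z * ∏ p ∈ S, (1 - 1 / (p : ℝ)) = VV w := by
    unfold VV
    rw [hS, ← prod_union]
    · congr 1
      rw [← filter_union]
      congr 1
      have hle : ⌈z⌉₊ ≤ ⌈w⌉₊ := Nat.ceil_le_ceil (by rw [hw]; linarith)
      ext n
      simp only [mem_union, mem_range, mem_Ico]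
      omega
    · rw [disjoint_left]
      intro p hp hp'
      have h1 := mem_range.1 (mem_filter.1 hp).1
      have h2 := (mem_Ico.1 (mem_filter.1 hp').1).1
      omega
  have hSpos : 0 < ∏ p ∈ S, (1 - 1 / (p : ℝ)) := by
    refine prod_pos fun p hp => ?_
    have h1 : (1 : ℝ) < p := by exact_mod_cast (mem_filter.1 hp).2.one_lt
    rw [sub_pos, div_lt_one (by linarith)]
    exact h1
  have hE := (EulerProduct.summable_and_hasSum_factoredNumbers_prod_filter_prime_geometric
    (f := iv85) (fun {p} hp => by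
      show ‖1 / (p : ℝ)‖ < 1
      have h1 : (1 : ℝ) < p := by exact_mod_cast hp.one_lt
      rw [Real.norm_of_nonneg (by positivity), div_lt_one (by linarith)]
      exact h1) S).2
  have hfil : S.filter Nat.Prime = S := filter_true_of_mem fun p hp => (mem_filter.1 hp).2
  rw [hfil] at hE
  have hprod : ∏ p ∈ S, (1 - iv85 p)⁻¹ = (∏ p ∈ S, (1 - 1 / (p : ℝ)))⁻¹ := by
    rw [prod_inv_distrib]
    rfl
  rw [hprod] at hE
  have hsub : ∑ n ∈ (Icc 1 ⌊y⌋₊).filter (RR z), (1 : ℝ) / n ≤ (∏ p ∈ S, (1 - 1 / (p : ℝ)))⁻¹ := by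
    classical
    have hmem : ∀ n ∈ (Icc 1 ⌊y⌋₊).filter (RR z), n ∈ Nat.factoredNumbers S := by
      intro n hn
      obtain ⟨h1, h2⟩ := mem_filter.1 hn
      obtain ⟨h3, h4⟩ := mem_Icc.1 h1
      rw [Nat.mem_factoredNumbers_iff_primeFactors_subset]
      refine ⟨by omega, fun p hp => ?_⟩
      have hpp := Nat.prime_of_mem_primeFactors hp
      have hpd := Nat.dvd_of_mem_primeFactors hp
      refine mem_filter.2 ⟨mem_Ico.2 ⟨?_, ?_⟩, hpp⟩
      · rw [Nat.ceil_le]
        by_contra hcon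
        exact h2 p hpp (not_le.1 hcon) hpd
      · rw [Nat.lt_ceil]
        have h5 : (p : ℝ) ≤ n := by exact_mod_cast Nat.le_of_dvd (by omega) hpd
        have h6 : (n : ℝ) ≤ y := (Nat.cast_le.2 h4).trans (Nat.floor_le hy0)
        linarith
    have h1 : ∑ n ∈ (Icc 1 ⌊y⌋₊).filter (RR z), (1 : ℝ) / n =
        ∑ m ∈ (((Icc 1 ⌊y⌋₊).filter (RR z)).subtype (fun m => m ∈ Nat.factoredNumbers S)), iv85 (m : ℕ) := by
      rw [Finset.sum_subtype_eq_sum_filter (f := fun m : ℕ => iv85 m)]
      rw [filter_true_of_mem hmem]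
      rfl
    rw [h1]
    exact sum_le_hasSum _ (fun m _ => by
      show (0 : ℝ) ≤ 1 / ((m : ℕ) : ℝ)
      positivity) hE
  refine hsub.trans ?_
  have h1 := (hV z hz).2
  have h2 := (hV w (by rw [hw]; linarith)).1
  have hlw : 0 < Real.log w := Real.log_pos (by rw [hw]; linarith)
  have hlw2 : Real.log w ≤ 2 * Real.log y := by
    have h5 : w ≤ y ^ 2 := by rw [hw]; nlinarith
    have h6 := Real.log_le_log (by rw [hw]; linarith) h5
    rw [Real.log_pow] at h6
    push_cast at h6
    exact h6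
  rw [inv_le_comm₀ hSpos (by positivity)]
  have h3 : c / Real.log w ≤ C / Real.log z * ∏ p ∈ S, (1 - 1 / (p : ℝ)) := by
    refine h2.trans ?_
    rw [← hmul]
    exact mul_le_mul_of_nonneg_right h1 hSpos.le
  have h4 : c * Real.log z / (C * Real.log w) ≤ ∏ p ∈ S, (1 - 1 / (p : ℝ)) := by
    rw [div_le_iff₀ (by positivity)]
    rw [div_le_iff₀ hlw] at h3
    have h7 : C / Real.log z * (∏ p ∈ S, (1 - 1 / (p : ℝ))) * Real.log w * Real.log z =
        (∏ p ∈ S, (1 - 1 / (p : ℝ))) * (C * Real.log w) := by field_simp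
    calc c * Real.log z ≤ C / Real.log z * (∏ p ∈ S, (1 - 1 / (p : ℝ))) * Real.log w * Real.log z :=
          mul_le_mul_of_nonneg_right h3 hlz.le
      _ = _ := h7
  refine le_trans ?_ h4
  have e : (2 * C / c * Real.log y / Real.log z)⁻¹ = c * Real.log z / (C * (2 * Real.log y)) := by
    field_simp
  rw [e]
  apply div_le_div_of_nonneg_left (by positivity) (by positivity)
  exact mul_le_mul_of_nonneg_left hlw2 hC.le

end Pool.Agent.PW
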