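import Pool.Agent.Helper85.PW.S3

/-!
# Block S8: the free steps

CLAIM `start`: for a constant `C` (depending on `ρ`), if `(J + 1) ^ 2 (0.98) ^ t ≤ 1` then for some `a` the particles of the window
`a, a + ρ, …, a + ρ J` after `t + t` steps are at most `C t ^ (3 / 5)` in number, and `QQ ≤ C t ^ 2`.

PROOF. (1) `SS_le` (`CO/Prt`): `∑_{n < 2 ^ t} ∑_{p ∈ Part ρ J t n} (1 + √|off t n p|) ≤ 2 ^ t (C₁ (t + 1) + C₁ (J + 1) ^ 2 (0.98) ^ t) ≤ 2 ^ t 3 C₁ t`, so for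
some `n₀ < 2 ^ t` the sum over `P = Part ρ J t n₀` is at most `3 C₁ t`: `|P| ≤ 3 C₁ t`, `∑_{p ∈ P} √|off p| ≤ 3 C₁ t`.
(2) `QQ ρ P ≤ 2 |P| ∑_p √|off p| ≤ 18 C₁ ^ 2 t ^ 2`: `off t n (κ, v) = v - 3 ^ κ n / 2 ^ t`, so `v / 3 ^ κ - v' / 3 ^ κ' = off / 3 ^ κ - off' / 3 ^ κ'`, and
`3 ^ min (κ, κ') |v / 3 ^ κ - v' / 3 ^ κ'| / |ρ| ≤ |off| + |off'|` (`|ρ| ≥ 1`), `√(x + y) ≤ √x + √y`.
(3) `t` more steps: for `j < 2 ^ t` the particles are `P.image (run ρ t j)` (`Part_run`: `Part ρ J (t + t) (n₀ + 2 ^ t j)`). By `QQ_avg` the mean of `QQ` is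
at most `QQ ρ P + 32 |P| ^ 2 ≤ C₂ t ^ 2`.
(4) The number of the particles of `P.image (run ρ t j)` is at most `1 + #{κ < t : ¬ MM ρ t 1 (ref κ) (ref (κ + 1))} + #{p ∈ P : ¬ MM ρ t 0 (ref p.1) p.2}`,
where `ref κ`, `p.2` are shifted by `3 ^ κ j`: for a merged `p` the particle `run ρ t j p` depends only on the block of `p.1` between two breaks
(`MM ρ t 0 (ref κ) v` says `run ρ t j (κ, ref κ) = run ρ t j (κ, v)`, and `MM ρ t 1 (ref κ) (ref (κ + 1))` says `run ρ t j (κ, ref κ) = run ρ t j (κ + 1, ref (κ + 1))`).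
As in `Uni.uni`: the number of the `j < 2 ^ t` for which `MM ρ t 1` fails at `κ` is at most `2 ^ t uu t (1, β_κ)`, `|β_κ| ≤ 4` (`pair_count`, `ref_succ`), the number for
which `MM ρ t 0` fails at `p` is at most `2 ^ t uu t (0, β_p)`, `|β_p| ≤ |off p| + 1` (`ref_dvd_part`, `ref_near`), and `uu_rate_all` with `c = 2 / 5`:
`uu t x ≤ D t ^ (-2 / 5) (x.1 + qq x + 1)`. So the mean number of the particles is at most `1 + D t ^ (-2 / 5) (4 t + 2 ∑_p (1 + √|off p|)) ≤ C₃ t ^ (3 / 5)`.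
(5) The mean of `card / (C₃ t ^ (3 / 5)) + QQ / (C₂ t ^ 2)` is at most `2`: for some `j` it is at most `2`. Take `a = n₀ + 2 ^ t j`.
-/

set_option autoImplicit false

namespace Pool.Agent.Helper85.PW

open Pool.Agent.Helper68.Moeller Pool.Agent.Helper8.CO Pool.Agent.Helper8.PW Finset Classical

variable {ρ : ℤ}

private theorem odd_abs58 (hρ : Odd ρ) : (1 : ℝ) ≤ |(ρ : ℝ)| := by
  have h1 : ρ ≠ 0 := by
    rintro rfl
    exact absurd hρ (by decide)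
  have h2 : (1 : ℤ) ≤ |ρ| := Int.one_le_abs h1
  exact_mod_cast h2

/-- The number of the values of a sequence is at most `1` plus the number of its changes. -/
private theorem card_seq58 (R : ℕ → ℕ × ℤ) (t : ℕ) :
    ((range (t + 1)).image R).card ≤ 1 + ((range t).filter (fun κ => R κ ≠ R (κ + 1))).card := by
  induction t with
  | zero => simp
  | succ t ih =>
    rw [range_add_one (n := t + 1), image_insert]
    by_cases h : R t = R (t + 1)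
    · have h1 : R (t + 1) ∈ (range (t + 1)).image R := by
        rw [← h]
        exact mem_image_of_mem R (mem_range.2 (by omega))
      rw [insert_eq_of_mem h1]
      refine ih.trans (Nat.add_le_add_left (card_le_card ?_) 1)
      exact filter_subset_filter _ (range_mono (by omega))
    · refine (card_insert_le _ _).trans ?_
      have h1 : insert t ((range t).filter (fun κ => R κ ≠ R (κ + 1))) ⊆
          (range (t + 1)).filter (fun κ => R κ ≠ R (κ + 1)) := by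
        intro κ hκ
        rw [mem_insert, mem_filter, mem_range] at hκ
        rw [mem_filter, mem_range]
        rcases hκ with rfl | ⟨h2, h3⟩
        · exact ⟨by omega, h⟩
        · exact ⟨by omega, h3⟩
      have h2 := card_le_card h1
      rw [card_insert_of_notMem (by simp)] at h2
      omega

private theorem run_eq58 {t κ κ' c : ℕ} {y y' j : ℤ} (hc : κ' = κ + c)
    (h : MM ρ t c (y + 3 ^ κ * j) (y' + 3 ^ κ' * j)) :
    run ρ t j (κ, y) = run ρ t j (κ', y') := by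
  obtain ⟨h1, h2⟩ := h
  unfold run
  simp only
  ext
  · simp only
    omega
  · exact h1

/-- The number of the particles after `t` more steps. -/
private theorem card_run58 {J t : ℕ} {n : ℤ} (j : ℤ) :
    ((Part ρ J t n).image (run ρ t j)).card ≤ 1 +
      ((range t).filter (fun κ => ¬ MM ρ t 1 (ref ρ t κ n + 3 ^ κ * j) (ref ρ t (κ + 1) n + 3 ^ (κ + 1) * j))).card +
      ((Part ρ J t n).filter (fun p => ¬ MM ρ t 0 (ref ρ t p.1 n + 3 ^ p.1 * j) (p.2 + 3 ^ p.1 * j))).card := by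
  set R : ℕ → ℕ × ℤ := fun κ => run ρ t j (κ, ref ρ t κ n) with hR
  set F := (Part ρ J t n).filter (fun p => ¬ MM ρ t 0 (ref ρ t p.1 n + 3 ^ p.1 * j) (p.2 + 3 ^ p.1 * j)) with hF
  have h1 : (Part ρ J t n).image (run ρ t j) ⊆ (range (t + 1)).image R ∪ F.image (run ρ t j) := by
    intro q hq
    obtain ⟨p, hp, rfl⟩ := mem_image.1 hq
    rw [mem_union]
    by_cases hb : MM ρ t 0 (ref ρ t p.1 n + 3 ^ p.1 * j) (p.2 + 3 ^ p.1 * j)
    · left
      refine mem_image.2 ⟨p.1, mem_range.2 (by have := fst_le_of_mem hp; omega), ?_⟩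
      exact run_eq58 (κ := p.1) (κ' := p.1) (c := 0) rfl hb
    · right
      exact mem_image_of_mem _ (mem_filter.2 ⟨hp, hb⟩)
  have h2 := card_seq58 R t
  have h3 : ((range t).filter (fun κ => R κ ≠ R (κ + 1))).card ≤
      ((range t).filter (fun κ => ¬ MM ρ t 1 (ref ρ t κ n + 3 ^ κ * j) (ref ρ t (κ + 1) n + 3 ^ (κ + 1) * j))).card := by
    refine card_le_card (monotone_filter_right _ fun κ _ h hM => h ?_)
    exact run_eq58 (κ := κ) (κ' := κ + 1) (c := 1) rfl hM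
  have h4 := (card_le_card h1).trans (card_union_le _ _)
  have h5 := card_image_le (s := F) (f := run ρ t j)
  omega

/-- The sum over the digits. -/
private theorem sum_card58 (hρ : Odd ρ) {D : ℝ} (hD : 0 < D)
    (hu : ∀ (k : ℕ) (x : ℕ × ℤ), 1 ≤ k → uu k x ≤ D * (k : ℝ) ^ (-(2 / 5 : ℝ)) * (x.1 + qq x + 1))
    (J t n₀ : ℕ) (hk : 1 ≤ t) :
    ∑ j ∈ range (2 ^ t), (((Part ρ J t (n₀ : ℤ)).image (run ρ t (j : ℕ))).card : ℝ) ≤
      2 ^ t * (1 + D * (t : ℝ) ^ (-(2 / 5 : ℝ)) * (4 * t + 2 * ∑ p ∈ Part ρ J t (n₀ : ℤ),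
        (1 + Real.sqrt |off t (n₀ : ℤ) p|))) := by
  have hkc : 0 ≤ D * (t : ℝ) ^ (-(2 / 5 : ℝ)) := mul_nonneg hD.le (Real.rpow_nonneg (Nat.cast_nonneg _) _)
  have hρ1 := odd_abs58 hρ
  have hex : ∀ κ : ℕ, ∃ β : ℤ, ref ρ t (κ + 1) n₀ = 3 * ref ρ t κ n₀ + ρ * β ∧ |β| ≤ 4 :=
    fun κ => ref_succ hρ t κ n₀
  choose β1 hβ1 hβ1' using hex
  set β2 : ℕ × ℤ → ℤ := fun p => (p.2 - ref ρ t p.1 n₀) / ρ with hβ2def
  have hβ2 : ∀ p ∈ Part ρ J t (n₀ : ℤ), p.2 = ref ρ t p.1 n₀ + ρ * β2 p := by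
    intro p hp
    rw [hβ2def]
    simp only
    rw [Int.mul_ediv_cancel' (ref_dvd_part hρ hp)]
    ring
  have e1 : ∀ κ (j : ℕ), ref ρ t (κ + 1) n₀ + 3 ^ (κ + 1) * (j : ℤ) =
      3 ^ 1 * (ref ρ t κ n₀ + 3 ^ κ * j) + ρ * β1 κ := by
    intro κ j
    rw [hβ1 κ, pow_succ]
    ring
  have e2 : ∀ p ∈ Part ρ J t (n₀ : ℤ), ∀ j : ℕ, p.2 + 3 ^ p.1 * (j : ℤ) =
      3 ^ 0 * (ref ρ t p.1 n₀ + 3 ^ p.1 * j) + ρ * β2 p := by
    intro p hp j
    rw [pow_zero, one_mul, hβ2 p hp]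
    have : ref ρ t p.1 n₀ + ρ * β2 p = p.2 := (hβ2 p hp).symm
    rw [this]
    linarith
  have h1 : ∑ j ∈ range (2 ^ t), (((Part ρ J t (n₀ : ℤ)).image (run ρ t (j : ℕ))).card : ℝ) ≤
      2 ^ t + (∑ κ ∈ range t, (2 : ℝ) ^ t * uu t (1, β1 κ) +
        ∑ p ∈ Part ρ J t (n₀ : ℤ), (2 : ℝ) ^ t * uu t (0, β2 p)) := by
    have h2 : ∀ j ∈ range (2 ^ t), (((Part ρ J t (n₀ : ℤ)).image (run ρ t (j : ℕ))).card : ℝ) ≤
        1 + ((∑ κ ∈ range t, if ¬ MM ρ t 1 (ref ρ t κ n₀ + 3 ^ κ * (j : ℤ))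
          (3 ^ 1 * (ref ρ t κ n₀ + 3 ^ κ * j) + ρ * β1 κ) then (1 : ℝ) else 0) +
        ∑ p ∈ Part ρ J t (n₀ : ℤ), if ¬ MM ρ t 0 (ref ρ t p.1 n₀ + 3 ^ p.1 * (j : ℤ))
          (3 ^ 0 * (ref ρ t p.1 n₀ + 3 ^ p.1 * j) + ρ * β2 p) then (1 : ℝ) else 0) := by
      intro j _
      have h3 := card_run58 (ρ := ρ) (J := J) (t := t) (n := (n₀ : ℤ)) (j : ℤ)
      rw [card_filter, card_filter] at h3
      have h4 : (((Part ρ J t (n₀ : ℤ)).image (run ρ t (j : ℕ))).card : ℝ) ≤ _ := Nat.cast_le.2 h3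
      refine h4.trans (le_of_eq ?_)
      push_cast
      rw [add_assoc]
      congr 1
      congr 1
      · refine sum_congr rfl fun κ _ => ?_
        rw [e1 κ j]
        push_cast
        rfl
      · refine sum_congr rfl fun p hp => ?_
        rw [e2 p hp j]
        push_cast
        rfl
    refine (sum_le_sum h2).trans ?_
    rw [sum_add_distrib, sum_add_distrib, sum_const, card_range, nsmul_eq_mul, mul_one]
    push_cast
    refine add_le_add le_rfl (add_le_add ?_ ?_)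
    · rw [sum_comm]
      refine sum_le_sum fun κ _ => ?_
      refine le_trans (le_of_eq ?_) (pair_count hρ t 1 κ (ref ρ t κ n₀) (β1 κ))
      rw [card_filter]
      push_cast
      rfl
    · rw [sum_comm]
      refine sum_le_sum fun p _ => ?_
      refine le_trans (le_of_eq ?_) (pair_count hρ t 0 p.1 (ref ρ t p.1 n₀) (β2 p))
      rw [card_filter]
      push_cast
      rfl
  refine h1.trans ?_
  have h2 : ∑ κ ∈ range t, (2 : ℝ) ^ t * uu t (1, β1 κ) ≤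
      ∑ _κ ∈ range t, (2 : ℝ) ^ t * (D * (t : ℝ) ^ (-(2 / 5 : ℝ)) * 4) := by
    refine sum_le_sum fun κ _ => mul_le_mul_of_nonneg_left ?_ (by positivity)
    refine (hu t _ hk).trans (mul_le_mul_of_nonneg_left ?_ hkc)
    have h3 : qq (1, β1 κ) ≤ 2 := by
      unfold qq Zs
      rw [show (2 : ℝ) = Real.sqrt 4 by
        rw [show (4 : ℝ) = 2 ^ 2 by norm_num, Real.sqrt_sq (by norm_num)]]
      refine Real.sqrt_le_sqrt ?_
      simp only
      have h4 : |((β1 κ : ℤ) : ℝ)| ≤ 4 := by exact_mod_cast hβ1' κ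
      rw [div_le_iff₀ (by norm_num)]
      linarith
    push_cast
    linarith
  have h3 : ∑ p ∈ Part ρ J t (n₀ : ℤ), (2 : ℝ) ^ t * uu t (0, β2 p) ≤
      ∑ p ∈ Part ρ J t (n₀ : ℤ), (2 : ℝ) ^ t *
        (D * (t : ℝ) ^ (-(2 / 5 : ℝ)) * (2 * (1 + Real.sqrt |off t (n₀ : ℤ) p|))) := by
    refine sum_le_sum fun p hp => mul_le_mul_of_nonneg_left ?_ (by positivity)
    refine (hu t _ hk).trans (mul_le_mul_of_nonneg_left ?_ hkc)
    have h4 : |((β2 p : ℤ) : ℝ)| ≤ |off t (n₀ : ℤ) p| + 1 := by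
      have h5 := ref_near hρ t p.1 (n₀ : ℤ)
      have h6 : (ρ : ℝ) * (β2 p : ℝ) = off t (n₀ : ℤ) p -
          ((ref ρ t p.1 n₀ : ℝ) - 3 ^ p.1 * ((n₀ : ℤ) : ℝ) / 2 ^ t) := by
        have h7 := hβ2 p hp
        have h8 : ((p.2 : ℤ) : ℝ) = (ref ρ t p.1 n₀ : ℝ) + (ρ : ℝ) * (β2 p : ℝ) := by
          exact_mod_cast h7
        unfold off
        rw [h8]
        ring
      have h7 : |(ρ : ℝ)| * |(β2 p : ℝ)| ≤ |off t (n₀ : ℤ) p| + |(ρ : ℝ)| := by
        rw [← abs_mul, h6]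
        exact (abs_sub _ _).trans (by linarith)
      have h8 : 0 ≤ |off t (n₀ : ℤ) p| := abs_nonneg _
      have h9 : 0 ≤ |(β2 p : ℝ)| := abs_nonneg _
      by_contra hcon
      push Not at hcon
      nlinarith
    have h5 : qq (0, β2 p) ≤ 1 + Real.sqrt |off t (n₀ : ℤ) p| := by
      unfold qq Zs
      simp only [pow_zero, div_one]
      refine (Real.sqrt_le_sqrt h4).trans ?_
      rw [Real.sqrt_le_left (by positivity)]
      have h6 := Real.sq_sqrt (abs_nonneg (off t (n₀ : ℤ) p))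
      have h7 := Real.sqrt_nonneg |off t (n₀ : ℤ) p|
      nlinarith
    have h6 := Real.sqrt_nonneg |off t (n₀ : ℤ) p|
    push_cast
    linarith
  refine (add_le_add le_rfl (add_le_add h2 h3)).trans (le_of_eq ?_)
  rw [sum_const, card_range, nsmul_eq_mul, ← mul_sum, ← mul_sum, ← mul_sum]
  ring

private theorem qd_off58 (hρ : Odd ρ) (t : ℕ) (n : ℤ) (p p' : ℕ × ℤ) :
    qd ρ p p' ≤ Real.sqrt |off t n p| + Real.sqrt |off t n p'| := by
  have hρ1 := odd_abs58 hρ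
  have h1 : (p.2 : ℝ) / 3 ^ p.1 - (p'.2 : ℝ) / 3 ^ p'.1 = off t n p / 3 ^ p.1 - off t n p' / 3 ^ p'.1 := by
    unfold off
    field_simp
    ring
  have h2 : 3 ^ (min p.1 p'.1) * |(p.2 : ℝ) / 3 ^ p.1 - (p'.2 : ℝ) / 3 ^ p'.1| ≤ |off t n p| + |off t n p'| := by
    rw [h1]
    have e1 : ∀ (κ : ℕ) (x : ℝ), min p.1 p'.1 ≤ κ → 3 ^ (min p.1 p'.1) * |x / 3 ^ κ| ≤ |x| := by
      intro κ x hκ
      rw [abs_div, abs_of_pos (show (0 : ℝ) < 3 ^ κ by positivity), mul_div_assoc', div_le_iff₀ (by positivity),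
        mul_comm]
      exact mul_le_mul_of_nonneg_left (pow_le_pow_right₀ (by norm_num) hκ) (abs_nonneg x)
    calc 3 ^ (min p.1 p'.1) * |off t n p / 3 ^ p.1 - off t n p' / 3 ^ p'.1|
        ≤ 3 ^ (min p.1 p'.1) * (|off t n p / 3 ^ p.1| + |off t n p' / 3 ^ p'.1|) :=
          mul_le_mul_of_nonneg_left (abs_sub _ _) (by positivity)
      _ ≤ |off t n p| + |off t n p'| := by
          rw [mul_add]
          exact add_le_add (e1 _ _ (min_le_left _ _)) (e1 _ _ (min_le_right _ _))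
  unfold qd
  have h3 : 3 ^ (min p.1 p'.1) * |(p.2 : ℝ) / 3 ^ p.1 - (p'.2 : ℝ) / 3 ^ p'.1| / |(ρ : ℝ)| ≤
      |off t n p| + |off t n p'| :=
    (div_le_self (by positivity) hρ1).trans h2
  refine (Real.sqrt_le_sqrt h3).trans ?_
  rw [Real.sqrt_le_left (by positivity)]
  have h4 := Real.sq_sqrt (abs_nonneg (off t n p))
  have h5 := Real.sq_sqrt (abs_nonneg (off t n p'))
  have h6 := Real.sqrt_nonneg |off t n p|
  have h7 := Real.sqrt_nonneg |off t n p'|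
  nlinarith

private theorem QQ_off58 (hρ : Odd ρ) (t : ℕ) (n : ℤ) (P : Finset (ℕ × ℤ)) :
    QQ ρ P ≤ 2 * (∑ p ∈ P, (1 + Real.sqrt |off t n p|)) ^ 2 := by
  set S := ∑ p ∈ P, (1 + Real.sqrt |off t n p|) with hS
  have h0 : ∀ p ∈ P, (0 : ℝ) ≤ 1 + Real.sqrt |off t n p| := fun p _ => by positivity
  have hS0 : 0 ≤ S := sum_nonneg h0
  have h1 : ∑ p ∈ P, Real.sqrt |off t n p| ≤ S := sum_le_sum fun p _ => by linarith
  have h2 : (P.card : ℝ) ≤ S := by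
    have : ∑ _p ∈ P, (1 : ℝ) ≤ S := sum_le_sum fun p _ => by
      have := Real.sqrt_nonneg |off t n p|
      linarith
    rw [sum_const, nsmul_eq_mul, mul_one] at this
    exact this
  have h3 : QQ ρ P ≤ ∑ p ∈ P, ∑ p' ∈ P, (Real.sqrt |off t n p| + Real.sqrt |off t n p'|) :=
    sum_le_sum fun p _ => sum_le_sum fun p' _ => qd_off58 hρ t n p p'
  have h4 : ∑ p ∈ P, ∑ p' ∈ P, (Real.sqrt |off t n p| + Real.sqrt |off t n p'|) =
      2 * ((P.card : ℝ) * ∑ p ∈ P, Real.sqrt |off t n p|) := by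
    simp only [sum_add_distrib, sum_const, nsmul_eq_mul, ← mul_sum]
    ring
  have h5 : 0 ≤ ∑ p ∈ P, Real.sqrt |off t n p| := sum_nonneg fun p _ => Real.sqrt_nonneg _
  rw [h4] at h3
  have h6 : (P.card : ℝ) * ∑ p ∈ P, Real.sqrt |off t n p| ≤ S * S :=
    mul_le_mul h2 h1 h5 hS0
  nlinarith

theorem start (hρ : Odd ρ) : Start ρ := by
  obtain ⟨D, hD, hu⟩ := uu_rate_all (c := 2 / 5) (by norm_num)
  obtain ⟨C', hC', hS⟩ := SS_le hρ
  set A : ℝ := 3 * C' + 1 with hA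
  have hA1 : 1 ≤ A := by linarith
  set B : ℝ := 1 + D * (4 + 2 * A) with hB
  have hB1 : 1 ≤ B := by
    have : 0 ≤ D * (4 + 2 * A) := by positivity
    linarith
  refine ⟨2 * B + 68 * A ^ 2, by nlinarith, fun t J ht hJ => ?_⟩
  have ht1 : (1 : ℝ) ≤ t := by exact_mod_cast ht
  have ht0 : (0 : ℝ) < t := by linarith
  -- phase 1
  have h1 : ∃ n₀ ∈ range (2 ^ t), ∑ p ∈ Part ρ J t ((n₀ : ℕ) : ℤ), (1 + Real.sqrt |off t (n₀ : ℤ) p|) ≤ A * t := by
    refine exists_le_of_sum_le (nonempty_range_iff.2 (by positivity)) ?_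
    have h2 := hS J t
    unfold SS at h2
    refine h2.trans ?_
    rw [sum_const, card_range, nsmul_eq_mul]
    push_cast
    refine mul_le_mul_of_nonneg_left ?_ (by positivity)
    have h3 : C' * ((J : ℝ) + 1) ^ 2 * (98 / 100) ^ t ≤ C' := by
      rw [mul_assoc]
      exact (mul_le_mul_of_nonneg_left hJ hC'.le).trans (mul_one _).le
    have h4 : C' ≤ C' * t := by nlinarith
    rw [hA]
    nlinarith
  obtain ⟨n₀, -, hn₀⟩ := h1
  set P := Part ρ J t ((n₀ : ℕ) : ℤ) with hP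
  have hcard : (P.card : ℝ) ≤ A * t := by
    refine le_trans ?_ hn₀
    have : ∑ _p ∈ P, (1 : ℝ) ≤ ∑ p ∈ P, (1 + Real.sqrt |off t (n₀ : ℤ) p|) := sum_le_sum fun p _ => by
      have := Real.sqrt_nonneg |off t (n₀ : ℤ) p|
      linarith
    rw [sum_const, nsmul_eq_mul, mul_one] at this
    exact this
  have hS0 : 0 ≤ ∑ p ∈ P, (1 + Real.sqrt |off t (n₀ : ℤ) p|) := sum_nonneg fun p _ => by positivity
  have hQ : QQ ρ P ≤ 2 * (A * t) ^ 2 := by
    refine (QQ_off58 hρ t (n₀ : ℤ) P).trans ?_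
    have := pow_le_pow_left₀ hS0 hn₀ 2
    linarith
  -- phase 2
  have h2 := QQ_avg hρ t P
  have h3 := sum_card58 hρ hD hu J t n₀ ht
  have hc2 : (P.card : ℝ) ^ 2 ≤ (A * t) ^ 2 := pow_le_pow_left₀ (Nat.cast_nonneg _) hcard 2
  have hQ2 : ∑ j ∈ range (2 ^ t), QQ ρ (P.image (run ρ t (j : ℕ))) ≤ 2 ^ t * (34 * A ^ 2 * t ^ 2) := by
    refine h2.trans (mul_le_mul_of_nonneg_left ?_ (by positivity))
    nlinarith
  have hpow : (t : ℝ) ^ (-(2 / 5 : ℝ)) * t = (t : ℝ) ^ (3 / 5 : ℝ) := by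
    nth_rewrite 2 [← Real.rpow_one (t : ℝ)]
    rw [← Real.rpow_add ht0]
    norm_num
  have hpow1 : (1 : ℝ) ≤ (t : ℝ) ^ (3 / 5 : ℝ) := Real.one_le_rpow ht1 (by norm_num)
  have hC2 : ∑ j ∈ range (2 ^ t), ((P.image (run ρ t (j : ℕ))).card : ℝ) ≤ 2 ^ t * (B * (t : ℝ) ^ (3 / 5 : ℝ)) := by
    refine h3.trans (mul_le_mul_of_nonneg_left ?_ (by positivity))
    have h4 : 0 ≤ D * (t : ℝ) ^ (-(2 / 5 : ℝ)) := mul_nonneg hD.le (Real.rpow_nonneg ht0.le _)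
    have h5 : D * (t : ℝ) ^ (-(2 / 5 : ℝ)) * (4 * t + 2 * ∑ p ∈ P, (1 + Real.sqrt |off t (n₀ : ℤ) p|)) ≤
        D * (t : ℝ) ^ (-(2 / 5 : ℝ)) * ((4 + 2 * A) * t) :=
      mul_le_mul_of_nonneg_left (by linarith) h4
    have h6 : D * (t : ℝ) ^ (-(2 / 5 : ℝ)) * ((4 + 2 * A) * t) = D * (4 + 2 * A) * (t : ℝ) ^ (3 / 5 : ℝ) := by
      rw [← hpow]
      ring
    rw [h6] at h5
    rw [hB]
    nlinarith
  -- the choice
  have h4 : ∃ j ∈ range (2 ^ t), ((P.image (run ρ t ((j : ℕ) : ℤ))).card : ℝ) * (34 * A ^ 2 * t ^ 2) +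
      QQ ρ (P.image (run ρ t ((j : ℕ) : ℤ))) * (B * (t : ℝ) ^ (3 / 5 : ℝ)) ≤
        2 * ((34 * A ^ 2 * t ^ 2) * (B * (t : ℝ) ^ (3 / 5 : ℝ))) := by
    refine exists_le_of_sum_le (nonempty_range_iff.2 (by positivity)) ?_
    rw [sum_add_distrib, ← sum_mul, ← sum_mul, sum_const, card_range, nsmul_eq_mul]
    push_cast
    have h5 := mul_le_mul_of_nonneg_right hC2 (show 0 ≤ 34 * A ^ 2 * (t : ℝ) ^ 2 by positivity)
    have h6 := mul_le_mul_of_nonneg_right hQ2 (show 0 ≤ B * (t : ℝ) ^ (3 / 5 : ℝ) by positivity)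
    nlinarith
  obtain ⟨j, -, hj⟩ := h4
  have hX : 0 < 34 * A ^ 2 * (t : ℝ) ^ 2 := by positivity
  have hY : 0 < B * (t : ℝ) ^ (3 / 5 : ℝ) := by positivity
  have hQ0 := QQ_nonneg (ρ := ρ) (P.image (run ρ t ((j : ℕ) : ℤ)))
  have hc0 : (0 : ℝ) ≤ ((P.image (run ρ t ((j : ℕ) : ℤ))).card : ℝ) := Nat.cast_nonneg _
  refine ⟨(n₀ : ℤ) + 2 ^ t * (j : ℤ), ?_, ?_⟩
  · rw [Part_run hρ]
    have h5 : ((P.image (run ρ t ((j : ℕ) : ℤ))).card : ℝ) * (34 * A ^ 2 * t ^ 2) ≤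
        2 * (B * (t : ℝ) ^ (3 / 5 : ℝ)) * (34 * A ^ 2 * (t : ℝ) ^ 2) := by
      have := mul_nonneg hQ0 hY.le
      linarith
    have h6 := le_of_mul_le_mul_right h5 hX
    refine h6.trans ?_
    have : 0 ≤ 68 * A ^ 2 * (t : ℝ) ^ (3 / 5 : ℝ) := by positivity
    linarith
  · rw [Part_run hρ]
    have h5 : QQ ρ (P.image (run ρ t ((j : ℕ) : ℤ))) * (B * (t : ℝ) ^ (3 / 5 : ℝ)) ≤
        2 * (34 * A ^ 2 * (t : ℝ) ^ 2) * (B * (t : ℝ) ^ (3 / 5 : ℝ)) := by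
      have := mul_nonneg hc0 hX.le
      linarith
    have h6 := le_of_mul_le_mul_right h5 hY
    refine h6.trans ?_
    have : 0 ≤ 2 * B * (t : ℝ) ^ 2 := by positivity
    linarith

end Pool.Agent.Helper85.PW
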