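import Pool.Agent.Helper85.PW.S5
import Pool.Agent.Helper85.PW.S8
import Pool.Agent.Helper8.PW.X
import Pool.Agent.Helper8.CO.ParB

/-!
# Block S9: the choice of the parameters; whole windows synchronize
-/

set_option autoImplicit false

namespace Pool.Agent.Helper85.PW

open Pool.Agent.Helper68.Moeller Pool.Agent.Helper8.CO Pool.Agent.Helper8.PW Finset Classical Filter

variable {ρ : ℤ} {X : ℕ × ℤ → ℝ} {κ C : ℝ}

theorem exists_goodX : ∃ (X : ℕ × ℤ → ℝ) (κ C : ℝ), κ ≤ 1 ∧ GoodX X κ C := by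
  obtain ⟨X, κ, C, h0, h1, h2, h3, h4, h5, h6⟩ := exists_X
  refine ⟨X, min κ 1, C, min_le_right _ _, lt_min h0 one_pos, h1, h2, h3, ?_, h5, h6⟩
  intro s hs
  have := h4 s hs
  linarith [min_le_left κ 1]

/-- The initial value of the smooth maximum. -/
theorem VV_init (hX : GoodX X κ C) {θ : ℝ} (hθ : 0 < θ) {P : Finset (ℕ × ℤ)} {p₀ : ℕ × ℤ}
    (hp₀ : p₀ ∈ P) {l : ℕ} (hl : p₀.1 ≤ l) {N₀ : ℕ} (hN : P.card ≤ N₀) :
    VV ρ X θ P p₀ ≤ C * l + 1 / θ * Real.log N₀ := by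
  have hC : 1 ≤ C := hX.2.1
  have h1 : SE ρ X θ P p₀ ≤ N₀ * Real.exp (θ * (C * l)) := by
    unfold SE
    calc ∑ p ∈ P, Real.exp (θ * X (st ρ p p₀)) ≤ ∑ _p ∈ P, Real.exp (θ * (C * l)) := by
          refine sum_le_sum fun p _ => Real.exp_le_exp.2 ?_
          refine mul_le_mul_of_nonneg_left ?_ hθ.le
          refine (hX.2.2.2.2.2.1 _).trans (mul_le_mul_of_nonneg_left ?_ (by linarith))
          have : (st ρ p p₀).1 ≤ l := by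
            change p₀.1 - p.1 ≤ l
            omega
          exact_mod_cast this
      _ = (P.card : ℝ) * Real.exp (θ * (C * l)) := by rw [sum_const, nsmul_eq_mul]
      _ ≤ _ := by
          refine mul_le_mul_of_nonneg_right ?_ (Real.exp_pos _).le
          exact_mod_cast hN
  have h2 := SE_ge_one (ρ := ρ) (θ := θ) hX hp₀
  have hN0 : (0 : ℝ) < N₀ := by
    have : 0 < P.card := card_pos.2 ⟨_, hp₀⟩
    exact_mod_cast lt_of_lt_of_le this hN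
  rw [VV_eq]
  have h3 : Real.log (SE ρ X θ P p₀) ≤ Real.log N₀ + θ * (C * l) := by
    refine (Real.log_le_log (by linarith) h1).trans (le_of_eq ?_)
    rw [Real.log_mul hN0.ne' (Real.exp_pos _).ne', Real.log_exp]
  have h4 := mul_le_mul_of_nonneg_left h3 (show (0 : ℝ) ≤ 1 / θ by positivity)
  refine h4.trans (le_of_eq ?_)
  field_simp
  ring

/-- The numerical part: for large `t` there are parameters. -/
def Par (κ C CS : ℝ) (K t : ℕ) : Prop := ∃ (θ m η Θ : ℝ) (k N₀ : ℕ), 0 < θ ∧ 0 < m ∧ 0 < η ∧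
  θ * (2 * C * Real.log ((2 * t + K * t : ℕ) + 5)) ≤ 1 ∧
  θ * (2 * C * Real.log ((2 * t + K * t : ℕ) + 5)) ^ 2 ≤ κ / 2 ∧
  η * (32 * (N₀ : ℝ) ^ 2) ≤ κ ∧ 1 ≤ k ∧
  C * (k + 1) * Real.log ((2 * t + K * t : ℕ) + k + 3) + 1 + k ≤ m / 2 ∧
  2 * C * Real.log ((2 * t + K * t : ℕ) + 5) + 2 ≤ 2 / 100 * (η * Θ) ∧
  (∀ β : ℤ, Real.sqrt |(β : ℝ)| ≤ Θ → uu k (0, β) ≤ 1 / 2) ∧
  CS * (t : ℝ) ^ (3 / 5 : ℝ) ≤ N₀ ∧
  C * (2 * t) + 1 / θ * Real.log N₀ + m * N₀ + η * (CS * (t : ℝ) ^ 2) ≤ κ / 8 * (K * t : ℕ)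

private theorem log_small85 (A : ℝ) : ∀ᶠ t : ℕ in atTop, A * Real.log t ^ 3 ≤ (t : ℝ) ^ (2 / 5 : ℝ) := by
  have h1 := (isLittleO_log_rpow_rpow_atTop (3 : ℝ) (show (0 : ℝ) < 2 / 5 by norm_num)).comp_tendsto
    (tendsto_natCast_atTop_atTop (R := ℝ))
  have h2 := h1.bound (show (0 : ℝ) < 1 / (|A| + 1) by positivity)
  filter_upwards [h2, eventually_ge_atTop 1] with t ht ht1
  have ht' : (1 : ℝ) ≤ t := by exact_mod_cast ht1
  have hl : 0 ≤ Real.log (t : ℝ) := Real.log_nonneg ht'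
  simp only [Function.comp_apply, Real.norm_eq_abs] at ht
  rw [abs_of_nonneg (Real.rpow_nonneg hl _), abs_of_nonneg (Real.rpow_nonneg (by linarith) _)] at ht
  have e1 : Real.log (t : ℝ) ^ (3 : ℝ) = Real.log (t : ℝ) ^ 3 := by
    rw [← Real.rpow_natCast]
    norm_num
  rw [e1, one_div, ← div_eq_inv_mul, le_div_iff₀ (by positivity)] at ht
  have e2 : 0 ≤ Real.log (t : ℝ) ^ 3 := by positivity
  have e3 : A * Real.log (t : ℝ) ^ 3 ≤ (|A| + 1) * Real.log (t : ℝ) ^ 3 :=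
    mul_le_mul_of_nonneg_right (by linarith [le_abs_self A]) e2
  linarith

private theorem log21_85 {t : ℝ} (h : 21 ≤ t) : 3 ≤ Real.log t := by
  rw [Real.le_log_iff_exp_le (by linarith)]
  have e1 : Real.exp 3 = Real.exp 1 * Real.exp 1 * Real.exp 1 := by
    rw [← Real.exp_add, ← Real.exp_add]; norm_num
  have e2 : Real.exp 1 < 2.7182818286 := Real.exp_one_lt_d9
  have e3 : 0 < Real.exp 1 := Real.exp_pos 1
  have e4 : Real.exp 1 * Real.exp 1 ≤ 7.3891 := by nlinarith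
  rw [e1]
  nlinarith

private theorem sq_a85 {t K M : ℝ} (h1 : M = (2 + K) * t) (h2 : K + 20 ≤ t) (h3 : 21 ≤ t) : M + 5 ≤ t ^ 2 := by
  rw [h1]
  nlinarith

private theorem sq_b85 {t K M k : ℝ} (h1 : M = (2 + K) * t) (h2 : K + 20 ≤ t) (h3 : 21 ≤ t) (h4 : k ≤ t) :
    M + k + 3 ≤ t ^ 2 := by
  rw [h1]
  nlinarith

private theorem th_a85 {C κ l L : ℝ} (hC : 1 ≤ C) (hκ : 0 < κ) (hl1 : 3 ≤ l) (hl3 : l ≤ l ^ 3) (hL4 : L ≤ 4 * C * l) :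
    1600 * (L + 2) / κ ≤ 3200 * (4 * C + 2) / κ * l ^ 3 := by
  have e2 : L + 2 ≤ (4 * C + 2) * l := by nlinarith
  rw [div_mul_eq_mul_div]
  refine div_le_div_of_nonneg_right ?_ hκ.le
  have e4 : (4 * C + 2) * l ≤ (4 * C + 2) * l ^ 3 := mul_le_mul_of_nonneg_left hl3 (by positivity)
  have e5 : 0 ≤ (4 * C + 2) * l ^ 3 := by positivity
  linarith only [e2, e4, e5]

private theorem g_a85 {t Θ : ℝ} (h0 : 0 < Θ) (h1 : Θ ≤ t ^ 3) (ht : 21 ≤ t) : 1 + Θ ^ 2 ≤ t ^ 7 := by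
  have e2 : Θ ^ 2 ≤ (t ^ 3) ^ 2 := pow_le_pow_left₀ h0.le h1 2
  have e3 : (t ^ 3) ^ 2 = t ^ 6 := by ring
  have e4 : (1 : ℝ) ≤ t ^ 6 := one_le_pow₀ (by linarith)
  have e5 : t ^ 7 = t ^ 6 * t := by ring
  rw [e3] at e2
  rw [e5]
  have e6 : t ^ 6 * 21 ≤ t ^ 6 * t := mul_le_mul_of_nonneg_left ht (by positivity)
  linarith only [e2, e4, e6]

private theorem k_a85 {C₁ Cu l G k : ℝ} (hC₁ : C₁ = 64 * (2 * Cu) ^ 4 + 3) (hl : 3 ≤ l)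
    (e1 : k < (2 * Cu) ^ 4 * G ^ 2 + 2) (hG : 1 ≤ G) (hG8 : G ≤ 8 * l) : k ≤ C₁ * l ^ 2 := by
  have e3 : G ^ 2 ≤ (8 * l) ^ 2 := pow_le_pow_left₀ (by linarith) hG8 2
  have e4 : (2 * Cu) ^ 4 * G ^ 2 ≤ (2 * Cu) ^ 4 * (8 * l) ^ 2 :=
    mul_le_mul_of_nonneg_left e3 (by positivity)
  have e5 : (2 : ℝ) ≤ 3 * l ^ 2 := by nlinarith
  rw [hC₁]
  have e6 : (2 * Cu) ^ 4 * (8 * l) ^ 2 = 64 * (2 * Cu) ^ 4 * l ^ 2 := by ring
  have e7 : (64 * (2 * Cu) ^ 4 + 3) * l ^ 2 = 64 * (2 * Cu) ^ 4 * l ^ 2 + 3 * l ^ 2 := by ring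
  rw [e7]
  linarith only [e1, e4, e5, e6]

private theorem m_a85 {C C₁ l k g m : ℝ} (hC : 1 ≤ C) (hC₁ : 3 ≤ C₁) (hl : 3 ≤ l) (hl32 : l ^ 2 ≤ l ^ 3)
    (hk : 0 ≤ k) (hk3 : k ≤ C₁ * l ^ 2) (hg0 : 0 ≤ g) (hg : g ≤ 2 * l) (hm : m = 2 * (C * (k + 1) * g + 1 + k)) :
    m ≤ 6 * (C + 1) * (C₁ + 1) * l ^ 3 := by
  have e0 : 1 ≤ l ^ 2 := one_le_pow₀ (by linarith)
  have e1 : k + 1 ≤ (C₁ + 1) * l ^ 2 := by
    have : (C₁ + 1) * l ^ 2 = C₁ * l ^ 2 + l ^ 2 := by ring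
    linarith
  have e2 : C * (k + 1) * g ≤ C * ((C₁ + 1) * l ^ 2) * (2 * l) :=
    mul_le_mul (mul_le_mul_of_nonneg_left e1 (by linarith)) hg hg0 (by positivity)
  have e3 : (C₁ + 1) * l ^ 2 ≤ (C₁ + 1) * l ^ 3 := mul_le_mul_of_nonneg_left hl32 (by positivity)
  have e4 : C * ((C₁ + 1) * l ^ 2) * (2 * l) = 2 * C * ((C₁ + 1) * l ^ 3) := by ring
  have e5 : 0 ≤ (C₁ + 1) * l ^ 3 := by positivity
  have e6 : 0 ≤ C * ((C₁ + 1) * l ^ 3) := by positivity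
  have e7 : 6 * (C + 1) * (C₁ + 1) * l ^ 3 = 6 * (C * ((C₁ + 1) * l ^ 3)) + 6 * ((C₁ + 1) * l ^ 3) := by ring
  rw [hm, e7]
  linarith only [e1, e2, e3, e4, e5, e6]

private theorem s1_85 {κ C l L lN t : ℝ} (hκ : 0 < κ) (hC : 1 ≤ C) (hl : 3 ≤ l) (hL2 : 2 ≤ L) (hL4 : L ≤ 4 * C * l)
    (h0 : 0 ≤ lN) (h1 : lN ≤ l) (q : 100 * C ^ 2 / κ * l ^ 3 ≤ t) : 1 / (κ / (2 * L ^ 2)) * lN ≤ t / 3 := by
  have e1 : 1 / (κ / (2 * L ^ 2)) = 2 * L ^ 2 / κ := by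
    field_simp
  rw [e1]
  have e2 : L ^ 2 ≤ (4 * C * l) ^ 2 := pow_le_pow_left₀ (by linarith) hL4 2
  have e3 : 2 * L ^ 2 / κ * lN ≤ 2 * (4 * C * l) ^ 2 / κ * l := by
    refine mul_le_mul ?_ h1 h0 (by positivity)
    refine div_le_div_of_nonneg_right ?_ hκ.le
    linarith
  have e4 : 2 * (4 * C * l) ^ 2 / κ * l = 32 / 100 * (100 * C ^ 2 / κ * l ^ 3) := by ring
  have e5 : 0 ≤ 100 * C ^ 2 / κ * l ^ 3 := by positivity
  rw [e4] at e3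
  linarith only [e3, e5, q]

private theorem s2_85 {C C₁ CS l m N t a b : ℝ} (hC : 1 ≤ C) (hC₁ : 3 ≤ C₁) (hCS : 1 ≤ CS) (hl : 3 ≤ l) (hN : 0 ≤ N)
    (ha : 0 ≤ a) (hm3 : m ≤ 6 * (C + 1) * (C₁ + 1) * l ^ 3) (hN2 : N ≤ 2 * CS * a)
    (q6 : 60 * (C + 1) * (C₁ + 1) * CS * l ^ 3 ≤ b) (hprod : b * a = t) : m * N ≤ t / 3 := by
  have e1 : m * N ≤ (6 * (C + 1) * (C₁ + 1) * l ^ 3) * (2 * CS * a) :=
    mul_le_mul hm3 hN2 hN (by positivity)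
  have e2 : (6 * (C + 1) * (C₁ + 1) * l ^ 3) * (2 * CS * a) =
      1 / 5 * ((60 * (C + 1) * (C₁ + 1) * CS * l ^ 3) * a) := by ring
  have e3 := mul_le_mul_of_nonneg_right q6 ha
  have e4 : 0 ≤ (60 * (C + 1) * (C₁ + 1) * CS * l ^ 3) * a := by positivity
  rw [hprod] at e3
  rw [e2] at e1
  linarith only [e1, e3, e4]

private theorem s3_85 {κ CS t N η : ℝ} (hκ : 0 < κ) (hκ1 : κ ≤ 1) (hCS : 1 ≤ CS) (ht : 21 ≤ t) (hN3 : 1 ≤ N)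
    (hN1 : CS * t ^ (3 / 5 : ℝ) ≤ N) (hb45 : t ^ (4 / 5 : ℝ) ≤ t) (hη : η = κ / (32 * N ^ 2)) :
    η * (CS * t ^ 2) ≤ t / 3 := by
  have ht0 : 0 < t := by linarith
  have hη0 : 0 < η := by rw [hη]; positivity
  have e1 : (CS * t ^ (3 / 5 : ℝ)) ^ 2 ≤ N ^ 2 := pow_le_pow_left₀ (by positivity) hN1 2
  have e2 : (t ^ (3 / 5 : ℝ)) ^ 2 = t ^ (6 / 5 : ℝ) := by
    rw [← Real.rpow_natCast, ← Real.rpow_mul ht0.le]
    norm_num
  have e3 : t ^ (6 / 5 : ℝ) * t ^ (4 / 5 : ℝ) = t ^ 2 := by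
    rw [← Real.rpow_add ht0, ← Real.rpow_natCast]
    norm_num
  have e4 : CS * t ^ 2 ≤ N ^ 2 * t ^ (4 / 5 : ℝ) := by
    rw [← e3]
    have e5 : CS * t ^ (6 / 5 : ℝ) ≤ N ^ 2 := by
      refine le_trans ?_ e1
      rw [mul_pow, e2]
      refine mul_le_mul_of_nonneg_right ?_ (by positivity)
      nlinarith
    calc CS * (t ^ (6 / 5 : ℝ) * t ^ (4 / 5 : ℝ)) = CS * t ^ (6 / 5 : ℝ) * t ^ (4 / 5 : ℝ) := by ring
      _ ≤ _ := mul_le_mul_of_nonneg_right e5 (by positivity)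
  have e6 := mul_le_mul_of_nonneg_left e4 hη0.le
  have e7 : η * (N ^ 2 * t ^ (4 / 5 : ℝ)) = κ / 32 * t ^ (4 / 5 : ℝ) := by
    rw [hη]
    field_simp
  rw [e7] at e6
  have e8 : κ / 32 * t ^ (4 / 5 : ℝ) ≤ 1 / 32 * t :=
    mul_le_mul (by linarith) hb45 (by positivity) (by norm_num)
  linarith only [e6, e8, ht0]

private theorem u_85 {Cu Θ G : ℝ} {k : ℕ} (hCu : 0 < Cu) (hk1 : 1 ≤ k) (hk2 : (2 * Cu * Real.sqrt G) ^ 4 ≤ k)
    (hG : G = 1 + Real.log (1 + Θ ^ 2)) (huu : ∀ (β : ℤ) (k : ℕ), 1 ≤ k →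
      uu k (0, β) ≤ Cu * Real.sqrt (1 + Real.log (1 + |(β : ℝ)|)) * (k : ℝ) ^ (-(1 / 4 : ℝ)))
    (β : ℤ) (hβ : Real.sqrt |(β : ℝ)| ≤ Θ) : uu k (0, β) ≤ 1 / 2 := by
  refine (huu β k hk1).trans ?_
  have e1 : |(β : ℝ)| ≤ Θ ^ 2 := by
    have := pow_le_pow_left₀ (Real.sqrt_nonneg _) hβ 2
    rwa [Real.sq_sqrt (abs_nonneg _)] at this
  have e2 : Real.sqrt (1 + Real.log (1 + |(β : ℝ)|)) ≤ Real.sqrt G := by
    refine Real.sqrt_le_sqrt ?_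
    rw [hG]
    have := Real.log_le_log (by positivity) (show 1 + |(β : ℝ)| ≤ 1 + Θ ^ 2 by linarith)
    linarith
  have hk0 : (0 : ℝ) < k := by exact_mod_cast hk1
  have e3 : 2 * Cu * Real.sqrt G ≤ (k : ℝ) ^ (1 / 4 : ℝ) := by
    have e4 : ((2 * Cu * Real.sqrt G) ^ 4) ^ (1 / 4 : ℝ) ≤ (k : ℝ) ^ (1 / 4 : ℝ) :=
      Real.rpow_le_rpow (by positivity) hk2 (by norm_num)
    have e5 : ((2 * Cu * Real.sqrt G) ^ 4) ^ (1 / 4 : ℝ) = 2 * Cu * Real.sqrt G := by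
      rw [← Real.rpow_natCast, ← Real.rpow_mul (by positivity)]
      norm_num
    rwa [e5] at e4
  have e6 : (k : ℝ) ^ (-(1 / 4 : ℝ)) = 1 / (k : ℝ) ^ (1 / 4 : ℝ) := by
    rw [Real.rpow_neg hk0.le, inv_eq_one_div]
  have hkr : 0 < (k : ℝ) ^ (1 / 4 : ℝ) := Real.rpow_pos_of_pos hk0 _
  rw [e6, mul_one_div, div_le_iff₀ hkr]
  have e7 := mul_le_mul_of_nonneg_left e2 hCu.le
  linarith only [e3, e7]

theorem exists_par {κ C CS : ℝ} (hκ : 0 < κ) (hκ1 : κ ≤ 1) (hC : 1 ≤ C) (hCS : 1 ≤ CS) :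
    ∃ K : ℕ, ∀ᶠ t : ℕ in atTop, Par κ C CS K t := by
  obtain ⟨Cu, hCu, huu⟩ := uu_rate (show (1 / 4 : ℝ) < 1 / 2 by norm_num)
  obtain ⟨K, hK⟩ : ∃ K : ℕ, 8 * (2 * C + 1) / κ ≤ K := exists_nat_ge _
  refine ⟨K, ?_⟩
  have hKκ : 2 * C + 1 ≤ κ / 8 * K := by
    rw [div_le_iff₀ hκ] at hK
    linarith
  obtain ⟨C₁, hC₁⟩ : ∃ C₁ : ℝ, C₁ = 64 * (2 * Cu) ^ 4 + 3 := ⟨_, rfl⟩
  have hC₁0 : 3 ≤ C₁ := by
    rw [hC₁]
    have : 0 ≤ 64 * (2 * Cu) ^ 4 := by positivity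
    linarith
  obtain ⟨A, hA⟩ : ∃ A : ℝ, A = (K : ℝ) + 20 + 100 * C ^ 2 / κ + 3200 * (4 * C + 2) / κ + 2 * C₁ + 2 * CS +
    60 * (C + 1) * (C₁ + 1) * CS := ⟨_, rfl⟩
  filter_upwards [log_small85 A, eventually_ge_atTop 21] with t ht ht1
  have ht' : (21 : ℝ) ≤ t := by exact_mod_cast ht1
  have ht0 : (0 : ℝ) < t := lt_of_lt_of_le (by norm_num) ht'
  obtain ⟨l, hl⟩ : ∃ l, l = Real.log (t : ℝ) := ⟨_, rfl⟩
  rw [← hl] at ht
  have hl1 : 3 ≤ l := by rw [hl]; exact log21_85 ht'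
  have hl11 : 1 ≤ l := le_trans (by norm_num) hl1
  have hl3 : l ≤ l ^ 3 := le_self_pow₀ hl11 (by norm_num)
  have hl32 : l ^ 2 ≤ l ^ 3 := pow_le_pow_right₀ hl11 (by norm_num)
  have hl31 : 1 ≤ l ^ 3 := one_le_pow₀ hl11
  have ht1' : (1 : ℝ) ≤ t := le_trans (by norm_num) ht'
  have hb : (t : ℝ) ^ (2 / 5 : ℝ) ≤ t := by
    nth_rewrite 2 [← Real.rpow_one (t : ℝ)]
    exact Real.rpow_le_rpow_of_exponent_le ht1' (by norm_num)
  have hb45 : (t : ℝ) ^ (4 / 5 : ℝ) ≤ t := by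
    nth_rewrite 2 [← Real.rpow_one (t : ℝ)]
    exact Real.rpow_le_rpow_of_exponent_le ht1' (by norm_num)
  have hb35' : (1 : ℝ) ≤ (t : ℝ) ^ (3 / 5 : ℝ) := Real.one_le_rpow ht1' (by norm_num)
  have hb35p : (0 : ℝ) ≤ (t : ℝ) ^ (3 / 5 : ℝ) := le_trans zero_le_one hb35'
  have hprod : (t : ℝ) ^ (2 / 5 : ℝ) * (t : ℝ) ^ (3 / 5 : ℝ) = t := by
    rw [← Real.rpow_add ht0]
    norm_num
  -- the pieces of `A`
  have hl30 : 0 ≤ l ^ 3 := le_trans zero_le_one hl31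
  have hA0 : ∀ x : ℝ, x ≤ A → x * l ^ 3 ≤ (t : ℝ) ^ (2 / 5 : ℝ) := fun x hx =>
    (mul_le_mul_of_nonneg_right hx hl30).trans ht
  have p1 : (0 : ℝ) ≤ K := Nat.cast_nonneg K
  have p2 : (0 : ℝ) ≤ 100 * C ^ 2 / κ := by positivity
  have p3 : (0 : ℝ) ≤ 3200 * (4 * C + 2) / κ := by positivity
  have p4 : (0 : ℝ) ≤ 2 * C₁ := by positivity
  have p5 : (0 : ℝ) ≤ 2 * CS := by positivity
  have p6 : (0 : ℝ) ≤ 60 * (C + 1) * (C₁ + 1) * CS := by positivity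
  have q1 := hA0 (K + 20) (by rw [hA]; linarith only [p1, p2, p3, p4, p5, p6])
  have q2 := hA0 (100 * C ^ 2 / κ) (by rw [hA]; linarith only [p1, p2, p3, p4, p5, p6])
  have q3 := hA0 (3200 * (4 * C + 2) / κ) (by rw [hA]; linarith only [p1, p2, p3, p4, p5, p6])
  have q4 := hA0 (2 * C₁) (by rw [hA]; linarith only [p1, p2, p3, p4, p5, p6])
  have q5 := hA0 (2 * CS) (by rw [hA]; linarith only [p1, p2, p3, p4, p5, p6])
  have q6 := hA0 (60 * (C + 1) * (C₁ + 1) * CS) (by rw [hA]; linarith only [p1, p2, p3, p4, p5, p6])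
  obtain ⟨M, hM⟩ : ∃ M : ℝ, M = (((2 * t + K * t : ℕ) : ℝ)) := ⟨_, rfl⟩
  have hM' : M = (2 + K) * t := by rw [hM]; push_cast; ring
  have hM0 : 0 ≤ M := by rw [hM]; exact Nat.cast_nonneg _
  have hK20 : (K : ℝ) + 20 ≤ t := by
    have h1 : (K : ℝ) + 20 ≤ (K + 20) * l ^ 3 := le_mul_of_one_le_right (by positivity) hl31
    exact (h1.trans q1).trans hb
  -- logarithms
  have hlt2 : Real.log ((t : ℝ) ^ 2) = 2 * l := by rw [Real.log_pow, hl]; norm_num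
  have hlogM : Real.log (M + 5) ≤ 2 * l := by
    rw [← hlt2]
    exact Real.log_le_log (by linarith only [hM0]) (sq_a85 hM' hK20 ht')
  have hlogM1 : 1 ≤ Real.log (M + 5) := by
    rw [Real.le_log_iff_exp_le (by linarith only [hM0])]
    have e2 : Real.exp 1 < 2.7182818286 := Real.exp_one_lt_d9
    linarith only [e2, hM0]
  obtain ⟨L, hL⟩ : ∃ L : ℝ, L = 2 * C * Real.log (M + 5) := ⟨_, rfl⟩
  have hL2 : 2 ≤ L := by
    have h1 : 2 * C * 1 ≤ 2 * C * Real.log (M + 5) :=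
      mul_le_mul_of_nonneg_left hlogM1 (by linarith only [hC])
    rw [hL]
    linarith only [h1, hC]
  have hL4 : L ≤ 4 * C * l := by
    rw [hL]
    have := mul_le_mul_of_nonneg_left hlogM (show (0 : ℝ) ≤ 2 * C by linarith only [hC])
    linarith only [this]
  -- the parameters
  obtain ⟨N₀, hN₀⟩ : ∃ N₀ : ℕ, N₀ = ⌈CS * (t : ℝ) ^ (3 / 5 : ℝ)⌉₊ := ⟨_, rfl⟩
  have hN1 : CS * (t : ℝ) ^ (3 / 5 : ℝ) ≤ N₀ := by rw [hN₀]; exact Nat.le_ceil _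
  have hCt : 1 ≤ CS * (t : ℝ) ^ (3 / 5 : ℝ) := one_le_mul_of_one_le_of_one_le hCS hb35'
  have hN2 : (N₀ : ℝ) ≤ 2 * CS * (t : ℝ) ^ (3 / 5 : ℝ) := by
    have e1 : (N₀ : ℝ) < CS * (t : ℝ) ^ (3 / 5 : ℝ) + 1 := by
      rw [hN₀]
      exact Nat.ceil_lt_add_one (le_trans zero_le_one hCt)
    linarith only [e1, hCt]
  have hN3 : (1 : ℝ) ≤ N₀ := hCt.trans hN1
  have hNt : (N₀ : ℝ) ≤ t := by
    have e1 : 2 * CS ≤ (t : ℝ) ^ (2 / 5 : ℝ) :=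
      (le_mul_of_one_le_right p5 hl31).trans q5
    have e2 := mul_le_mul_of_nonneg_right e1 hb35p
    rw [hprod] at e2
    exact hN2.trans e2
  have hlogN : Real.log N₀ ≤ l := by rw [hl]; exact Real.log_le_log (lt_of_lt_of_le zero_lt_one hN3) hNt
  have hlogN0 : 0 ≤ Real.log N₀ := Real.log_nonneg hN3
  obtain ⟨η, hη⟩ : ∃ η : ℝ, η = κ / (32 * (N₀ : ℝ) ^ 2) := ⟨_, rfl⟩
  have hη0 : 0 < η := by rw [hη]; positivity
  obtain ⟨Θ, hΘ⟩ : ∃ Θ : ℝ, Θ = 50 * (L + 2) / η := ⟨_, rfl⟩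
  have hΘ0 : 0 < Θ := by
    rw [hΘ]
    have : 0 < L + 2 := by linarith only [hL2]
    positivity
  have hΘt : Θ ≤ (t : ℝ) ^ 3 := by
    have e1 : Θ = 1600 * (L + 2) / κ * (N₀ : ℝ) ^ 2 := by
      rw [hΘ, hη]
      field_simp
      ring
    have e4 : 1600 * (L + 2) / κ ≤ t := (th_a85 hC hκ hl1 hl3 hL4).trans (q3.trans hb)
    rw [e1]
    calc 1600 * (L + 2) / κ * (N₀ : ℝ) ^ 2 ≤ t * (t : ℝ) ^ 2 :=
          mul_le_mul e4 (pow_le_pow_left₀ (le_trans zero_le_one hN3) hNt 2) (sq_nonneg _) ht0.le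
      _ = (t : ℝ) ^ 3 := by ring
  obtain ⟨G, hG⟩ : ∃ G : ℝ, G = 1 + Real.log (1 + Θ ^ 2) := ⟨_, rfl⟩
  have hG1 : 1 ≤ G := by
    rw [hG]
    have := Real.log_nonneg (show (1 : ℝ) ≤ 1 + Θ ^ 2 by linarith only [sq_nonneg Θ])
    linarith only [this]
  have hG8 : G ≤ 8 * l := by
    have e2 : Real.log ((t : ℝ) ^ 7) = 7 * l := by rw [Real.log_pow, hl]; norm_num
    have e3 := Real.log_le_log (show 0 < 1 + Θ ^ 2 by positivity) (g_a85 hΘ0 hΘt ht')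
    rw [hG]
    rw [e2] at e3
    linarith only [e3, hl1]
  obtain ⟨k, hk⟩ : ∃ k : ℕ, k = ⌈(2 * Cu * Real.sqrt G) ^ 4⌉₊ + 1 := ⟨_, rfl⟩
  have hk1 : 1 ≤ k := by rw [hk]; exact Nat.le_add_left _ _
  have hk2 : (2 * Cu * Real.sqrt G) ^ 4 ≤ k := by
    rw [hk]
    push_cast
    have := Nat.le_ceil ((2 * Cu * Real.sqrt G) ^ 4)
    linarith only [this]
  have hk3 : (k : ℝ) ≤ C₁ * l ^ 2 := by
    have e1 : (k : ℝ) < (2 * Cu * Real.sqrt G) ^ 4 + 2 := by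
      rw [hk]
      push_cast
      have := Nat.ceil_lt_add_one (show (0 : ℝ) ≤ (2 * Cu * Real.sqrt G) ^ 4 by positivity)
      linarith only [this]
    have e2 : (2 * Cu * Real.sqrt G) ^ 4 = (2 * Cu) ^ 4 * G ^ 2 := by
      have : Real.sqrt G ^ 4 = G ^ 2 := by
        calc Real.sqrt G ^ 4 = (Real.sqrt G ^ 2) ^ 2 := by ring
          _ = G ^ 2 := by rw [Real.sq_sqrt (le_trans zero_le_one hG1)]
      rw [mul_pow, this]
    rw [e2] at e1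
    exact k_a85 hC₁ hl1 e1 hG1 hG8
  have hkt : (k : ℝ) ≤ t := by
    have e1 : C₁ * l ^ 2 ≤ 2 * C₁ * l ^ 3 := by
      have h1 : C₁ * l ^ 2 ≤ C₁ * l ^ 3 := mul_le_mul_of_nonneg_left hl32 (by linarith only [hC₁0])
      have h2 : 0 ≤ C₁ * l ^ 3 := mul_nonneg (by linarith only [hC₁0]) hl30
      linarith only [h1, h2]
    exact (hk3.trans e1).trans (q4.trans hb)
  have hlogk : Real.log (M + k + 3) ≤ 2 * l := by
    rw [← hlt2]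
    exact Real.log_le_log (by positivity) (sq_b85 hM' hK20 ht' hkt)
  obtain ⟨m, hm⟩ : ∃ m : ℝ, m = 2 * (C * (k + 1) * Real.log (M + k + 3) + 1 + k) := ⟨_, rfl⟩
  have hk0 : (0 : ℝ) ≤ k := Nat.cast_nonneg k
  have hlogk0 : 0 ≤ Real.log (M + k + 3) := Real.log_nonneg (by linarith only [hM0, hk0])
  have hm0 : 0 < m := by
    rw [hm]
    have : 0 ≤ C * (k + 1) * Real.log (M + k + 3) := by positivity
    linarith only [this, hk0]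
  have hm3 : m ≤ 6 * (C + 1) * (C₁ + 1) * l ^ 3 := m_a85 hC hC₁0 hl1 hl32 hk0 hk3 hlogk0 hlogk hm
  have hL0 : 0 < L := by linarith only [hL2]
  refine ⟨κ / (2 * L ^ 2), m, η, Θ, k, N₀, by positivity, hm0, hη0, ?_, ?_, ?_, hk1, ?_, ?_, ?_, hN1, ?_⟩
  · rw [← hM, ← hL]
    have : κ / (2 * L ^ 2) * L = κ / (2 * L) := by
      field_simp
    rw [this, div_le_one (by positivity)]
    linarith only [hL2, hκ1]
  · rw [← hM, ← hL]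
    refine le_of_eq ?_
    field_simp
  · rw [hη]
    refine le_of_eq ?_
    field_simp
  · rw [← hM, hm]
    linarith only
  · rw [← hM, ← hL, hΘ]
    refine le_of_eq ?_
    field_simp
    ring
  · exact fun β hβ => u_85 hCu hk1 hk2 hG huu β hβ
  · have s1 : 1 / (κ / (2 * L ^ 2)) * Real.log N₀ ≤ t / 3 :=
      s1_85 hκ hC hl1 hL2 hL4 hlogN0 hlogN (q2.trans hb)
    have s2 : m * N₀ ≤ t / 3 :=
      s2_85 hC hC₁0 hCS hl1 (Nat.cast_nonneg _) hb35p hm3 hN2 q6 hprod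
    have s3 : η * (CS * (t : ℝ) ^ 2) ≤ t / 3 := s3_85 hκ hκ1 hCS ht' hN3 hN1 hb45 hη
    have s4 : (2 * C + 1) * t ≤ κ / 8 * ((K * t : ℕ) : ℝ) := by
      push_cast
      have := mul_le_mul_of_nonneg_right hKκ ht0.le
      linarith only [this]
    linarith only [s1, s2, s3, s4]

theorem sw (hρ : Odd ρ) : SW ρ := by
  obtain ⟨X, κ, C, hκ1, hX⟩ := exists_goodX
  obtain ⟨CS, hCS, hstart⟩ := start hρ
  obtain ⟨K₁, hpar⟩ := exists_par hX.1 hκ1 hX.2.1 hCS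
  refine ⟨K₁ + 2 + 200, by omega, ?_⟩
  filter_upwards [hpar, eventually_ge_atTop 200] with t ht ht2
  obtain ⟨θ, m, η, Θ, k, N₀, hθ, hm, hη, h1, h2, h3, hk, h4, h5, hu, hN, hΨ⟩ := ht
  obtain ⟨J, hJ⟩ : ∃ J : ℕ, J = ⌊Real.exp ((t : ℝ) / ((K₁ + 2 + 200 : ℕ) : ℝ))⌋₊ := ⟨_, rfl⟩
  have ht' : (200 : ℝ) ≤ t := by exact_mod_cast ht2
  have hJ2 : ((J : ℝ) + 1) ^ 2 * (98 / 100) ^ t ≤ 1 := by
    have e1 : (J : ℝ) ≤ Real.exp ((t : ℝ) / 200) := by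
      rw [hJ]
      refine (Nat.floor_le (Real.exp_pos _).le).trans (Real.exp_le_exp.2 ?_)
      refine div_le_div_of_nonneg_left (by positivity) (by norm_num) ?_
      push_cast
      have : (0 : ℝ) ≤ K₁ := by positivity
      linarith
    have e2 : (1 : ℝ) ≤ Real.exp ((t : ℝ) / 200) := Real.one_le_exp (by positivity)
    have e3 : (J : ℝ) + 1 ≤ 2 * Real.exp ((t : ℝ) / 200) := by linarith
    have e4 : ((J : ℝ) + 1) ^ 2 ≤ (2 * Real.exp ((t : ℝ) / 200)) ^ 2 :=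
      pow_le_pow_left₀ (by positivity) e3 2
    have e5 : (98 / 100 : ℝ) ^ t ≤ Real.exp (-(t : ℝ) / 50) := by
      have : (98 / 100 : ℝ) ≤ Real.exp (-(1 : ℝ) / 50) := by
        have := Real.add_one_le_exp (-(1 : ℝ) / 50)
        linarith
      calc (98 / 100 : ℝ) ^ t ≤ (Real.exp (-(1 : ℝ) / 50)) ^ t := pow_le_pow_left₀ (by norm_num) this t
        _ = Real.exp (-(t : ℝ) / 50) := by
            rw [← Real.exp_nat_mul]
            congr 1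
            ring
    have e6 : (4 : ℝ) ≤ Real.exp ((t : ℝ) / 100) := by
      have e7 : Real.exp 2 ≤ Real.exp ((t : ℝ) / 100) := Real.exp_le_exp.2 (by linarith)
      have e8 : (4 : ℝ) ≤ Real.exp 2 := by
        have := Real.add_one_le_exp (1 : ℝ)
        have e9 : Real.exp 2 = Real.exp 1 * Real.exp 1 := by
          rw [← Real.exp_add]; norm_num
        rw [e9]
        nlinarith
      linarith
    calc ((J : ℝ) + 1) ^ 2 * (98 / 100) ^ t ≤ (2 * Real.exp ((t : ℝ) / 200)) ^ 2 * Real.exp (-(t : ℝ) / 50) :=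
          mul_le_mul e4 e5 (by positivity) (by positivity)
      _ = 4 * Real.exp (-(t : ℝ) / 100) := by
          rw [mul_pow, ← Real.exp_nat_mul, mul_assoc, ← Real.exp_add]
          congr 1
          · norm_num
          · congr 1
            push_cast
            ring
      _ ≤ Real.exp ((t : ℝ) / 100) * Real.exp (-(t : ℝ) / 100) :=
          mul_le_mul_of_nonneg_right e6 (Real.exp_pos _).le
      _ = 1 := by
          rw [← Real.exp_add]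
          have : (t : ℝ) / 100 + -(t : ℝ) / 100 = 0 := by ring
          rw [this, Real.exp_zero]
  obtain ⟨a, hcard, hQQ⟩ := hstart t J (by omega) hJ2
  obtain ⟨P, hP⟩ : ∃ P, P = Part ρ J (t + t) a := ⟨_, rfl⟩
  rw [← hP] at hcard hQQ
  have hne : P.Nonempty := by
    rw [hP, Part_eq]
    exact ⟨_, mem_image.2 ⟨0, mem_range.2 (by omega), rfl⟩⟩
  obtain ⟨p₀, hp₀, hmax⟩ := exists_max_image P Prod.fst hne
  have hT : Top ρ P p₀ := ⟨by rw [hP]; exact Cg_Part hρ J (t + t) a, hp₀, hmax⟩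
  have hlev : p₀.1 ≤ 2 * t := by
    have : p₀.1 ≤ t + t := fst_le_of_mem (ρ := ρ) (J := J) (n := a) (by rw [← hP]; exact hp₀)
    omega
  have hN' : P.card ≤ N₀ := by
    have : (P.card : ℝ) ≤ N₀ := hcard.trans hN
    exact_mod_cast this
  have hV := VV_init (ρ := ρ) hX hθ hp₀ hlev hN'
  have hPsi : Psi ρ X θ m η P p₀ ≤ κ / 8 * (K₁ * t : ℕ) := by
    refine le_trans ?_ hΨ
    unfold Psi
    have e1 : m * (P.card : ℝ) ≤ m * N₀ := mul_le_mul_of_nonneg_left (by exact_mod_cast hN') hm.le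
    have e2 := mul_le_mul_of_nonneg_left hQQ hη.le
    push_cast at hV
    linarith
  have hsync := sync_main hρ hX hκ1 (M := 2 * t + K₁ * t) hθ hm hη h1 h2 h3 hk h4 h5 hu (K₁ * t) hT
    (by omega) hN' hPsi
  rw [hP] at hsync
  obtain ⟨a', ha'⟩ := sync_MM hρ hsync
  refine ⟨a', fun j hj => MM_mono ?_ (ha' j ?_)⟩
  · nlinarith
  · rw [hJ]
    exact Nat.le_floor hj

end Pool.Agent.Helper85.PW
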