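import Pool.Agent.Helper85.PW.Sd

/-!
# Block S1: particles

`run_add`: `T^[k] (x + 2 ^ k j') = T^[k] x + 3 ^ (cnt k x) j'` (`iter_add`) with `x = y + 3 ^ κ i`, `j' = 3 ^ κ j`, and
`cnt (k + l) x = cnt k x + cnt l (T^[k] x)`.
`Part_run`: `Part ρ J t a` is the image of the `(0, ρ i)`, `i ≤ J` under `run ρ t a`.
`Cg_run`: if `a y ≡ 3 ^ κ g` then `a (y + 3 ^ κ b) ≡ 3 ^ κ (g + a b)`, and `2 T y = 3 ^ [y odd] y - ρ [y odd]`.
-/

set_option autoImplicit false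

namespace Pool.Agent.Helper85.PW

open Pool.Agent.Helper68.Moeller Pool.Agent.Helper8.CO Pool.Agent.Helper8.PW Finset Classical

variable {ρ : ℤ}

theorem cnt_add (t k : ℕ) (x : ℤ) :
    cnt 2 3 (fun _ => ρ) (t + k) x =
      cnt 2 3 (fun _ => ρ) t x + cnt 2 3 (fun _ => ρ) k ((T 2 3 (fun _ => ρ))^[t] x) := by
  induction t generalizing x with
  | zero => simp [cnt]
  | succ t ih =>
    rw [show t + 1 + k = (t + k) + 1 by ring, cnt, cnt, ih, Function.iterate_succ_apply]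
    ring

theorem cnt_le_self (k : ℕ) (x : ℤ) : cnt 2 3 (fun _ => ρ) k x ≤ k := by
  induction k generalizing x with
  | zero => exact le_refl _
  | succ k ih =>
    rw [cnt]
    have := ih (T 2 3 (fun _ => ρ) x)
    split_ifs <;> omega

theorem run_zero (j : ℤ) (p : ℕ × ℤ) : run ρ 0 j p = (p.1, p.2 + 3 ^ p.1 * j) := by
  unfold run
  simp [cnt]

theorem run_add (hρ : Odd ρ) (k l : ℕ) (i j : ℤ) (p : ℕ × ℤ) :
    run ρ (k + l) (i + 2 ^ k * j) p = run ρ l j (run ρ k i p) := by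
  obtain ⟨κ, y⟩ := p
  unfold run
  simp only
  have e : y + 3 ^ κ * (i + 2 ^ k * j) = (y + 3 ^ κ * i) + 2 ^ k * (3 ^ κ * j) := by ring
  rw [e, cnt_add, Nat.add_comm k l, Function.iterate_add_apply]
  obtain ⟨h1, h2⟩ := iter_add hρ k (y + 3 ^ κ * i) (3 ^ κ * j)
  rw [h1, h2]
  have e2 : (T 2 3 fun _ => ρ)^[k] (y + 3 ^ κ * i) +
      3 ^ cnt 2 3 (fun _ => ρ) k (y + 3 ^ κ * i) * (3 ^ κ * j) =
      (T 2 3 fun _ => ρ)^[k] (y + 3 ^ κ * i) +
      3 ^ (κ + cnt 2 3 (fun _ => ρ) k (y + 3 ^ κ * i)) * j := by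
    rw [pow_add]
    ring
  rw [e2]
  ext
  · simp only
    ring
  · rfl

theorem run_fst_ge (k : ℕ) (j : ℤ) (p : ℕ × ℤ) : p.1 ≤ (run ρ k j p).1 := Nat.le_add_right _ _

theorem run_fst_le (k : ℕ) (j : ℤ) (p : ℕ × ℤ) : (run ρ k j p).1 ≤ p.1 + k :=
  Nat.add_le_add_left (cnt_le_self _ _) _

theorem image_run (hρ : Odd ρ) (P : Finset (ℕ × ℤ)) (k l : ℕ) (i j : ℤ) :
    P.image (run ρ (k + l) (i + 2 ^ k * j)) = (P.image (run ρ k i)).image (run ρ l j) := by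
  rw [image_image]
  refine image_congr fun p _ => ?_
  exact run_add hρ k l i j p

theorem Sync.of_run (hρ : Odd ρ) {P : Finset (ℕ × ℤ)} {k l : ℕ} {i : ℤ}
    (h : Sync ρ l (P.image (run ρ k i))) : Sync ρ (k + l) P := by
  obtain ⟨j, hj⟩ := h
  refine ⟨i + 2 ^ k * j, fun p hp p' hp' => ?_⟩
  rw [run_add hρ, run_add hρ]
  exact hj _ (mem_image_of_mem _ hp) _ (mem_image_of_mem _ hp')

theorem Sync.mono (hρ : Odd ρ) {P : Finset (ℕ × ℤ)} {k l : ℕ} (hkl : k ≤ l) (h : Sync ρ k P) :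
    Sync ρ l P := by
  obtain ⟨j, hj⟩ := h
  obtain ⟨m, rfl⟩ := Nat.exists_eq_add_of_le hkl
  refine ⟨j + 2 ^ k * 0, fun p hp p' hp' => ?_⟩
  rw [run_add hρ, run_add hρ, hj p hp p' hp']

theorem Sync.of_card {P : Finset (ℕ × ℤ)} (k : ℕ) (h : P.card ≤ 1) : Sync ρ k P := by
  refine ⟨0, fun p hp p' hp' => ?_⟩
  rw [card_le_one.1 h p hp p' hp']

theorem Part_eq (J t : ℕ) (a : ℤ) :
    Part ρ J t a = (range (J + 1)).image (fun i : ℕ => run ρ t a (0, ρ * i)) := by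
  unfold Helper8.CO.Part
  refine image_congr fun i _ => ?_
  unfold run
  simp only [pow_zero, one_mul, zero_add]
  rw [add_comm a]

theorem Part_run (hρ : Odd ρ) (J t k : ℕ) (a j : ℤ) :
    Part ρ J (t + k) (a + 2 ^ t * j) = (Part ρ J t a).image (run ρ k j) := by
  rw [Part_eq, Part_eq, image_image]
  refine image_congr fun i _ => ?_
  exact run_add hρ t k a j _

theorem sync_MM (hρ : Odd ρ) {J t k : ℕ} {a : ℤ} (h : Sync ρ k (Part ρ J t a)) :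
    ∃ a' : ℤ, ∀ i : ℕ, i ≤ J → MM ρ (t + k) 0 a' (a' + ρ * i) := by
  obtain ⟨j, hj⟩ := h
  refine ⟨a + 2 ^ t * j, fun i hi => ?_⟩
  have hm : ∀ i : ℕ, i ≤ J → run ρ t a (0, ρ * i) ∈ Part ρ J t a := by
    intro i hi
    rw [Part_eq]
    exact mem_image.2 ⟨i, mem_range.2 (by omega), rfl⟩
  have h1 := hj _ (hm 0 (Nat.zero_le _)) _ (hm i hi)
  rw [← run_add hρ, ← run_add hρ] at h1
  unfold run at h1
  simp only [Nat.cast_zero, mul_zero, pow_zero, one_mul, zero_add, Prod.mk.injEq] at h1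
  unfold MM
  rw [add_comm (a + 2 ^ t * j) (ρ * (i : ℤ))]
  exact ⟨h1.2, by rw [add_zero]; exact h1.1⟩

theorem MM_mono {k l c : ℕ} {y y' : ℤ} (hkl : k ≤ l) (h : MM ρ k c y y') : MM ρ l c y y' := by
  obtain ⟨m, rfl⟩ := Nat.exists_eq_add_of_le hkl
  obtain ⟨h1, h2⟩ := h
  refine ⟨?_, ?_⟩
  · rw [Nat.add_comm, Function.iterate_add_apply, Function.iterate_add_apply, h1]
  · rw [cnt_add, cnt_add, h1, h2]
    ring

/-- One step. -/
theorem run_one_even {b : ℤ} {p : ℕ × ℤ} (h : Even (p.2 + 3 ^ p.1 * b)) :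
    run ρ 1 b p = (p.1, (p.2 + 3 ^ p.1 * b) / 2) := by
  unfold run
  have h2 : (2 : ℤ) ∣ p.2 + 3 ^ p.1 * b := h.two_dvd
  simp only [cnt, Function.iterate_one]
  rw [if_pos (by exact_mod_cast h2)]
  unfold T
  rw [if_pos (by exact_mod_cast h2)]
  simp

theorem run_one_odd {b : ℤ} {p : ℕ × ℤ} (h : ¬ Even (p.2 + 3 ^ p.1 * b)) :
    run ρ 1 b p = (p.1 + 1, (3 * (p.2 + 3 ^ p.1 * b) - ρ) / 2) := by
  unfold run
  have h2 : ¬ (2 : ℤ) ∣ p.2 + 3 ^ p.1 * b := fun h' => h (even_iff_two_dvd.2 h')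
  simp only [cnt, Function.iterate_one]
  rw [if_neg (by exact_mod_cast h2)]
  unfold T
  rw [if_neg (by exact_mod_cast h2)]
  simp

theorem Cg_one (hρ : Odd ρ) {P : Finset (ℕ × ℤ)} (b : ℤ) (h : Cg ρ P) : Cg ρ (P.image (run ρ 1 b)) := by
  obtain ⟨a, g, ha, hP⟩ := h
  have h2 : IsCoprime (2 : ℤ) ρ := by
    obtain ⟨k, hk⟩ := hρ
    exact ⟨-k, 1, by rw [hk]; ring⟩
  refine ⟨2 * a, g + a * b, IsCoprime.mul_left h2 ha, ?_⟩
  intro q hq
  obtain ⟨p, hp, rfl⟩ := mem_image.1 hq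
  obtain ⟨u, hu⟩ := hP p hp
  by_cases he : Even (p.2 + 3 ^ p.1 * b)
  · rw [run_one_even he]
    obtain ⟨y, hy⟩ := he.two_dvd
    simp only
    rw [hy, Int.mul_ediv_cancel_left _ (by norm_num)]
    refine ⟨u, ?_⟩
    have : 2 * a * y = a * (p.2 + 3 ^ p.1 * b) := by rw [hy]; ring
    rw [this, ← hu]
    ring
  · rw [run_one_odd he]
    have ho : Odd (p.2 + 3 ^ p.1 * b) := Int.not_even_iff_odd.1 he
    have h3 : Even (3 * (p.2 + 3 ^ p.1 * b) - ρ) := (Odd.mul (by decide) ho).sub_odd hρ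
    obtain ⟨y, hy⟩ := h3.two_dvd
    simp only
    rw [hy, Int.mul_ediv_cancel_left _ (by norm_num)]
    refine ⟨3 * u - a, ?_⟩
    have : 2 * a * y = a * (3 * (p.2 + 3 ^ p.1 * b) - ρ) := by rw [hy]; ring
    rw [this, pow_succ, mul_sub ρ, show ρ * (3 * u) = 3 * (ρ * u) by ring, ← hu]
    ring

theorem Cg_shift {P : Finset (ℕ × ℤ)} (b : ℤ) (h : Cg ρ P) : Cg ρ (P.image (run ρ 0 b)) := by
  obtain ⟨a, g, ha, hP⟩ := h
  refine ⟨a, g + a * b, ha, ?_⟩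
  intro q hq
  obtain ⟨p, hp, rfl⟩ := mem_image.1 hq
  obtain ⟨u, hu⟩ := hP p hp
  rw [run_zero]
  refine ⟨u, ?_⟩
  rw [← hu]
  ring

theorem Cg_run (hρ : Odd ρ) {P : Finset (ℕ × ℤ)} (k : ℕ) (j : ℤ) (h : Cg ρ P) :
    Cg ρ (P.image (run ρ k j)) := by
  induction k generalizing P j with
  | zero => exact Cg_shift j h
  | succ k ih =>
    have h1 : P.image (run ρ (k + 1) j) = (P.image (run ρ 1 j)).image (run ρ k 0) := by
      rw [← image_run hρ, mul_zero, add_zero, Nat.add_comm]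
    rw [h1]
    exact ih 0 (Cg_one hρ j h)

theorem Cg_Part (hρ : Odd ρ) (J t : ℕ) (a : ℤ) : Cg ρ (Part ρ J t a) := by
  have e : Part ρ J t a = ((range (J + 1)).image (fun i : ℕ => ((0 : ℕ), ρ * (i : ℤ)))).image (run ρ t a) := by
    rw [Part_eq, image_image]
    rfl
  rw [e]
  refine Cg_run hρ t a ⟨1, 0, isCoprime_one_left, ?_⟩
  intro q hq
  obtain ⟨i, -, rfl⟩ := mem_image.1 hq
  exact ⟨i, by ring⟩

theorem dvd_of_Cg {P : Finset (ℕ × ℤ)} (h : Cg ρ P) {p p' : ℕ × ℤ} (hp : p ∈ P) (hp' : p' ∈ P)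
    (hle : p.1 ≤ p'.1) : ρ ∣ p'.2 - 3 ^ (p'.1 - p.1) * p.2 := by
  obtain ⟨a, g, ha, hP⟩ := h
  have h1 := hP p hp
  have h2 := hP p' hp'
  refine ha.symm.dvd_of_dvd_mul_left ?_
  have e : a * (p'.2 - 3 ^ (p'.1 - p.1) * p.2) =
      (a * p'.2 - 3 ^ p'.1 * g) - 3 ^ (p'.1 - p.1) * (a * p.2 - 3 ^ p.1 * g) := by
    have : (3 : ℤ) ^ p'.1 = 3 ^ (p'.1 - p.1) * 3 ^ p.1 := by
      rw [← pow_add, Nat.sub_add_cancel hle]
    rw [this]
    ring
  rw [e]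
  exact dvd_sub h2 (h1.mul_left _)

/-- The state of a pair, if the higher particle is `3 ^ c y + ρ β`. -/
theorem st_eq (hρ : Odd ρ) {κ c : ℕ} {y β : ℤ} :
    st ρ (κ, y) (κ + c, 3 ^ c * y + ρ * β) = (c, β) := by
  unfold st
  have h0 : ρ ≠ 0 := by
    rintro rfl
    exact absurd hρ (by decide)
  simp only
  rw [Nat.add_sub_cancel_left, add_sub_cancel_left, Int.mul_ediv_cancel_left _ h0]

theorem exists_st {p p' : ℕ × ℤ} (hle : p.1 ≤ p'.1) (hd : ρ ∣ p'.2 - 3 ^ (p'.1 - p.1) * p.2) :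
    ∃ (c : ℕ) (β : ℤ), p' = (p.1 + c, 3 ^ c * p.2 + ρ * β) := by
  obtain ⟨β, hβ⟩ := hd
  refine ⟨p'.1 - p.1, β, ?_⟩
  ext
  · simp only
    omega
  · simp only
    rw [← hβ]
    ring

/-- The step of a pair: the lower point `y` even. -/
theorem st_run_even (hρ : Odd ρ) {κ c : ℕ} {y β b : ℤ} (he : Even (y + 3 ^ κ * b)) :
    st ρ (run ρ 1 b (κ, y)) (run ρ 1 b (κ + c, 3 ^ c * y + ρ * β)) = nx0 (c, β) ∧
      (run ρ 1 b (κ, y)).1 ≤ (run ρ 1 b (κ + c, 3 ^ c * y + ρ * β)).1 := by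
  have e1 : 3 ^ c * y + ρ * β + 3 ^ (κ + c) * b = 3 ^ c * (y + 3 ^ κ * b) + ρ * β := by
    rw [pow_add]; ring
  have ho3 : Odd ((3 : ℤ) ^ c) := Odd.pow (by decide)
  obtain ⟨z, hz⟩ := he.two_dvd
  by_cases hβ : Even β
  · obtain ⟨γ, hγ⟩ := hβ.two_dvd
    have h2 : Even (3 ^ c * y + ρ * β + 3 ^ (κ + c) * b) := by
      rw [e1]
      exact (he.mul_left _).add (hβ.mul_left _)
    rw [nx0_even hβ]
    have r1 : run ρ 1 b (κ, y) = (κ, z) := by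
      rw [run_one_even (p := (κ, y)) he]
      simp only
      rw [hz, Int.mul_ediv_cancel_left _ (by norm_num)]
    have r2 : run ρ 1 b (κ + c, 3 ^ c * y + ρ * β) = (κ + c, 3 ^ c * z + ρ * γ) := by
      rw [run_one_even (p := (κ + c, 3 ^ c * y + ρ * β)) h2]
      simp only
      rw [e1, hz, hγ]
      have : 3 ^ c * (2 * z) + ρ * (2 * γ) = 2 * (3 ^ c * z + ρ * γ) := by ring
      rw [this, Int.mul_ediv_cancel_left _ (by norm_num)]
    rw [r1, r2, st_eq hρ, hγ, Int.mul_ediv_cancel_left _ (by norm_num)]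
    exact ⟨rfl, Nat.le_add_right _ _⟩
  · have hoβ : Odd β := Int.not_even_iff_odd.1 hβ
    have h2 : ¬ Even (3 ^ c * y + ρ * β + 3 ^ (κ + c) * b) := by
      rw [e1, Int.not_even_iff_odd]
      exact (he.mul_left _).add_odd (hρ.mul hoβ)
    obtain ⟨γ, hγ⟩ : ∃ γ : ℤ, β = 2 * γ + 1 := hoβ
    rw [nx0_odd hβ]
    have r1 : run ρ 1 b (κ, y) = (κ, z) := by
      rw [run_one_even (p := (κ, y)) he]
      simp only
      rw [hz, Int.mul_ediv_cancel_left _ (by norm_num)]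
    have r2 : run ρ 1 b (κ + c, 3 ^ c * y + ρ * β) = (κ + (c + 1), 3 ^ (c + 1) * z + ρ * (3 * γ + 1)) := by
      rw [run_one_odd (p := (κ + c, 3 ^ c * y + ρ * β)) h2]
      simp only
      rw [e1, hz, hγ]
      have : 3 * (3 ^ c * (2 * z) + ρ * (2 * γ + 1)) - ρ = 2 * (3 ^ (c + 1) * z + ρ * (3 * γ + 1)) := by
        rw [pow_succ]; ring
      rw [this, Int.mul_ediv_cancel_left _ (by norm_num)]
      rfl
    rw [r1, r2, st_eq hρ, hγ]
    refine ⟨?_, Nat.le_add_right _ _⟩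
    have : 3 * (2 * γ + 1) - 1 = 2 * (3 * γ + 1) := by ring
    rw [this, Int.mul_ediv_cancel_left _ (by norm_num)]

/-- The step of a pair: the lower point `y` odd, no exchange. -/
theorem st_run_odd (hρ : Odd ρ) {κ c : ℕ} {y β b : ℤ} (he : ¬ Even (y + 3 ^ κ * b))
    (hx : c ≠ 0 ∨ Even β) :
    st ρ (run ρ 1 b (κ, y)) (run ρ 1 b (κ + c, 3 ^ c * y + ρ * β)) = nx1 (c, β) ∧
      (run ρ 1 b (κ, y)).1 ≤ (run ρ 1 b (κ + c, 3 ^ c * y + ρ * β)).1 := by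
  have e1 : 3 ^ c * y + ρ * β + 3 ^ (κ + c) * b = 3 ^ c * (y + 3 ^ κ * b) + ρ * β := by
    rw [pow_add]; ring
  have ho3 : Odd ((3 : ℤ) ^ c) := Odd.pow (by decide)
  obtain ⟨r, hr⟩ := id hρ
  obtain ⟨z, hz⟩ : ∃ z : ℤ, y + 3 ^ κ * b = 2 * z + 1 := Int.not_even_iff_odd.1 he
  have r1 : run ρ 1 b (κ, y) = (κ + 1, 3 * z + (1 - r)) := by
    rw [run_one_odd (p := (κ, y)) he]
    simp only
    rw [hz, hr]
    have : 3 * (2 * z + 1) - (2 * r + 1) = 2 * (3 * z + (1 - r)) := by ring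
    rw [this, Int.mul_ediv_cancel_left _ (by norm_num)]
  by_cases hβ : Even β
  · obtain ⟨γ, hγ⟩ := hβ.two_dvd
    have h2 : ¬ Even (3 ^ c * y + ρ * β + 3 ^ (κ + c) * b) := by
      rw [e1, Int.not_even_iff_odd]
      exact (ho3.mul (Int.not_even_iff_odd.1 he)).add_even (hβ.mul_left _)
    rw [nx1_even hβ]
    obtain ⟨u, hu⟩ := ho3
    have r2 : run ρ 1 b (κ + c, 3 ^ c * y + ρ * β) =
        ((κ + 1) + c, 3 ^ c * (3 * z + (1 - r)) + ρ * (3 * γ + u)) := by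
      rw [run_one_odd (p := (κ + c, 3 ^ c * y + ρ * β)) h2]
      simp only
      rw [e1, hz, hγ]
      have : 3 * (3 ^ c * (2 * z + 1) + ρ * (2 * γ)) - ρ =
          2 * (3 ^ c * (3 * z + (1 - r)) + ρ * (3 * γ + u)) := by
        rw [hu, hr]; ring
      rw [this, Int.mul_ediv_cancel_left _ (by norm_num)]
      ext
      · simp only
        ring
      · rfl
    rw [r1, r2, st_eq hρ, hγ]
    refine ⟨?_, Nat.le_add_right _ _⟩
    have : 3 * (2 * γ) + 3 ^ c - 1 = 2 * (3 * γ + u) := by rw [hu]; ring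
    rw [this, Int.mul_ediv_cancel_left _ (by norm_num)]
  · have hc : c ≠ 0 := hx.resolve_right hβ
    obtain ⟨c', rfl⟩ := Nat.exists_eq_succ_of_ne_zero hc
    have hoβ : Odd β := Int.not_even_iff_odd.1 hβ
    have h2 : Even (3 ^ (c' + 1) * y + ρ * β + 3 ^ (κ + (c' + 1)) * b) := by
      rw [e1]
      exact (ho3.mul (Int.not_even_iff_odd.1 he)).add_odd (hρ.mul hoβ)
    have ho3' : Odd ((3 : ℤ) ^ c') := Odd.pow (by decide)
    obtain ⟨u, hu⟩ := ho3'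
    obtain ⟨γ, hγ⟩ := hoβ
    rw [nx1_odd hβ (Nat.succ_ne_zero _)]
    have r2 : run ρ 1 b (κ + (c' + 1), 3 ^ (c' + 1) * y + ρ * β) =
        ((κ + 1) + c', 3 ^ c' * (3 * z + (1 - r)) + ρ * (γ + u + 1)) := by
      rw [run_one_even (p := (κ + (c' + 1), 3 ^ (c' + 1) * y + ρ * β)) h2]
      simp only
      rw [e1, hz, hγ]
      have : 3 ^ (c' + 1) * (2 * z + 1) + ρ * (2 * γ + 1) =
          2 * (3 ^ c' * (3 * z + (1 - r)) + ρ * (γ + u + 1)) := by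
        rw [pow_succ, hu, hr]; ring
      rw [this, Int.mul_ediv_cancel_left _ (by norm_num)]
      ext
      · simp only
        ring
      · rfl
    have e3 : (β + 3 ^ (c' + 1 - 1)) / 2 = γ + u + 1 := by
      rw [Nat.add_sub_cancel, hγ, hu]
      have : 2 * γ + 1 + (2 * u + 1) = 2 * (γ + u + 1) := by ring
      rw [this, Int.mul_ediv_cancel_left _ (by norm_num)]
    rw [Nat.succ_eq_add_one, r1, r2, st_eq hρ, e3]
    exact ⟨by rw [Nat.add_sub_cancel], Nat.le_add_right _ _⟩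

/-- The parity of the higher point. -/
theorem even_higher (hρ : Odd ρ) {κ c : ℕ} {y β b : ℤ} :
    Even (3 ^ c * y + ρ * β + 3 ^ (κ + c) * b) ↔ (Even (y + 3 ^ κ * b) ↔ Even β) := by
  have e1 : 3 ^ c * y + ρ * β + 3 ^ (κ + c) * b = 3 ^ c * (y + 3 ^ κ * b) + ρ * β := by
    rw [pow_add]; ring
  have ho3 : ¬ Even ((3 : ℤ) ^ c) := Int.not_even_iff_odd.2 (Odd.pow (by decide))
  have hρ' : ¬ Even ρ := Int.not_even_iff_odd.2 hρ
  rw [e1, Int.even_add, Int.even_mul, Int.even_mul]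
  tauto

end Pool.Agent.Helper85.PW
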