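import Pool.Agent.Helper85.PW.Defs
import Pool.Agent.Helper85.SV.Low

/-!
# Project PRIMES, windows half: the fundamental lemma of the sieve (Brun - Hooley, two sided)
-/

set_option autoImplicit false

namespace Pool.Agent.Helper85.SV

open Finset Filter

section Upper

variable {ι : Type*} [DecidableEq ι]

/-- The main term of the upper bound sieve. -/
theorem sum_lamU {κ : Type*} [DecidableEq κ] (J : Finset κ) (B : κ → Finset ι)
    (hB : ∀ i ∈ J, ∀ j ∈ J, i ≠ j → Disjoint (B i) (B j)) (b : κ → ℕ) (w : ι → ℝ) :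
    ∑ S ∈ (J.biUnion B).powerset, (∏ j ∈ J, gb (b j) (S ∩ B j)) * ∏ p ∈ S, w p = ∏ j ∈ J, ms w (B j) (b j) := by
  have hW : ∀ S ∈ (J.biUnion B).powerset, ∏ p ∈ S, w p = ∏ j ∈ J, ∏ p ∈ S ∩ B j, w p := by
    intro S hS
    have h1 : S = J.biUnion (fun j => S ∩ B j) := by
      rw [← inter_biUnion]
      exact (inter_eq_left.2 (mem_powerset.1 hS)).symm
    conv_lhs => rw [h1]
    exact prod_biUnion fun i hi j hj hij => (hB i hi j hj hij).mono inter_subset_right inter_subset_right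
  have e1 : ∀ S ∈ (J.biUnion B).powerset, (∏ j ∈ J, gb (b j) (S ∩ B j)) * ∏ p ∈ S, w p =
      ∏ j ∈ J, (fun j T => gb (b j) T * ∏ p ∈ T, w p) j (S ∩ B j) := by
    intro S hS
    rw [hW S hS, prod_mul_distrib]
  rw [sum_congr rfl e1, expand J B hB (fun j T => gb (b j) T * ∏ p ∈ T, w p)]
  exact prod_congr rfl fun j _ => sum_gb w (B j) (b j)

/-- The upper bound sieve in abstract form. -/
theorem sieve_upper {κ α : Type*} [DecidableEq κ] (J : Finset κ) (B : κ → Finset ι)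
    (hB : ∀ i ∈ J, ∀ j ∈ J, i ≠ j → Disjoint (B i) (B j)) (b : κ → ℕ) (hb : ∀ j ∈ J, Even (b j))
    (A : Finset α) (D : α → Finset ι) (X : ℝ) (w : ι → ℝ) (E : Finset ι → ℝ)
    (hE : ∀ S ⊆ J.biUnion B, (∀ j ∈ J, (S ∩ B j).card ≤ b j + 1) →
      |((A.filter (fun n => S ⊆ D n)).card : ℝ) - X * ∏ p ∈ S, w p| ≤ E S) :
    ((A.filter (fun n => D n = ∅)).card : ℝ) ≤ X * ∏ j ∈ J, ms w (B j) (b j) +
      ∑ S ∈ (J.biUnion B).powerset.filter (fun S => ∀ j ∈ J, (S ∩ B j).card ≤ b j + 1), E S := by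
  classical
  set P := J.biUnion B with hP
  have hone : ∀ n ∈ A, (if D n = ∅ then (1 : ℝ) else 0) ≤
      ∑ S ∈ P.powerset, (∏ j ∈ J, gb (b j) (S ∩ B j)) * (if S ⊆ D n then 1 else 0) := by
    intro n hn
    set v : ι → ℝ := fun p => if p ∈ D n then 1 else 0 with hv
    have hv01 : ∀ p, 0 ≤ v p ∧ v p ≤ 1 := by
      intro p
      rw [hv]
      dsimp only
      split_ifs <;> norm_num
    have e1 : ∀ S ∈ P.powerset, (∏ j ∈ J, gb (b j) (S ∩ B j)) * (if S ⊆ D n then (1 : ℝ) else 0) =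
        (∏ j ∈ J, gb (b j) (S ∩ B j)) * ∏ p ∈ S, v p := by
      intro S _
      congr 1
      by_cases h : S ⊆ D n
      · rw [if_pos h, prod_eq_one fun p hp => if_pos (h hp)]
      · rw [if_neg h]
        obtain ⟨p, hp, hp'⟩ := not_subset.1 h
        exact (prod_eq_zero hp (if_neg hp')).symm
    rw [sum_congr rfl e1, sum_lamU J B hB b v]
    have hbf : ∀ j ∈ J, ∏ p ∈ B j, (1 - v p) ≤ ms v (B j) (b j) := by
      intro j hj
      have := (bonf (w := v) (P := B j) (fun p _ => hv01 p) (b j)).1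
      rw [(hb j hj).neg_one_pow, one_mul] at this
      linarith
    have hx0 : ∀ j, 0 ≤ ∏ p ∈ B j, (1 - v p) := fun j => prod_nonneg fun p _ => by linarith [(hv01 p).2]
    refine le_trans ?_ (prod_le_prod (fun j _ => hx0 j) hbf)
    by_cases h : D n = ∅
    · rw [if_pos h]
      refine le_of_eq (prod_eq_one fun j _ => prod_eq_one fun p _ => ?_).symm
      rw [hv]
      dsimp only
      rw [h]
      simp
    · rw [if_neg h]
      exact prod_nonneg fun j _ => hx0 j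
  have hsum : ((A.filter (fun n => D n = ∅)).card : ℝ) ≤
      ∑ S ∈ P.powerset, (∏ j ∈ J, gb (b j) (S ∩ B j)) * ((A.filter (fun n => S ⊆ D n)).card : ℝ) := by
    have e1 : ∀ S ∈ P.powerset, (∏ j ∈ J, gb (b j) (S ∩ B j)) * ((A.filter (fun n => S ⊆ D n)).card : ℝ) =
        ∑ n ∈ A, (∏ j ∈ J, gb (b j) (S ∩ B j)) * (if S ⊆ D n then 1 else 0) := by
      intro S _
      rw [← mul_sum, sum_boole]
    rw [sum_congr rfl e1, sum_comm]
    refine le_trans (le_of_eq ?_) (sum_le_sum hone)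
    rw [sum_boole]
  refine hsum.trans ?_
  rw [← sum_lamU J B hB b w, mul_sum, sum_filter, ← sum_add_distrib]
  refine sum_le_sum fun S hS => ?_
  by_cases h0 : (∏ j ∈ J, gb (b j) (S ∩ B j)) = 0
  · rw [h0, zero_mul, zero_mul, mul_zero, zero_add]
    split_ifs with h
    · exact (abs_nonneg _).trans (hE S (mem_powerset.1 hS) h)
    · exact le_refl _
  · have hs : ∀ j ∈ J, (S ∩ B j).card ≤ b j + 1 := by
      intro j hj
      by_contra hcon
      push Not at hcon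
      apply h0
      refine prod_eq_zero hj ?_
      unfold gb
      rw [if_neg (by omega)]
    rw [if_pos hs]
    have h1 := hE S (mem_powerset.1 hS) hs
    have h2 : |∏ j ∈ J, gb (b j) (S ∩ B j)| ≤ 1 := by
      rw [abs_prod]
      exact prod_le_one (fun _ _ => abs_nonneg _) (fun j _ => abs_gb_le _ _)
    have h3 : |(∏ j ∈ J, gb (b j) (S ∩ B j)) * (((A.filter (fun n => S ⊆ D n)).card : ℝ) - X * ∏ p ∈ S, w p)| ≤ E S := by
      rw [abs_mul]
      calc |∏ j ∈ J, gb (b j) (S ∩ B j)| * |((A.filter (fun n => S ⊆ D n)).card : ℝ) - X * ∏ p ∈ S, w p| ≤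
            1 * |((A.filter (fun n => S ⊆ D n)).card : ℝ) - X * ∏ p ∈ S, w p| :=
            mul_le_mul_of_nonneg_right h2 (abs_nonneg _)
        _ ≤ E S := by rw [one_mul]; exact h1
    have h4 := (abs_le.1 h3).2
    have e2 : (∏ j ∈ J, gb (b j) (S ∩ B j)) * (((A.filter (fun n => S ⊆ D n)).card : ℝ) - X * ∏ p ∈ S, w p) =
        (∏ j ∈ J, gb (b j) (S ∩ B j)) * ((A.filter (fun n => S ⊆ D n)).card : ℝ) -
          X * ((∏ j ∈ J, gb (b j) (S ∩ B j)) * ∏ p ∈ S, w p) := by ring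
    rw [e2] at h4
    linarith

end Upper

private theorem half_sum85b (r : ℕ) : ∑ j ∈ range r, (1 : ℝ) / 2 ^ j ≤ 2 := by
  have key : ∀ r : ℕ, ∑ j ∈ range r, (1 : ℝ) / 2 ^ j = 2 - 2 / 2 ^ r := by
    intro r
    induction r with
    | zero => norm_num
    | succ r ih =>
      rw [sum_range_succ, ih, pow_succ]
      field_simp
      ring
  rw [key]
  have : (0 : ℝ) < 2 / 2 ^ r := by positivity
  linarith

private theorem half_sum85b' (r : ℕ) : ∑ j ∈ range r, (j : ℝ) / 2 ^ j ≤ 2 := by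
  have key : ∀ r : ℕ, ∑ j ∈ range r, (j : ℝ) / 2 ^ j = 2 - (2 * r + 2) / 2 ^ r := by
    intro r
    induction r with
    | zero => norm_num
    | succ r ih =>
      rw [sum_range_succ, ih, pow_succ]
      push_cast
      field_simp
      ring
  rw [key]
  have : (0 : ℝ) < (2 * r + 2) / 2 ^ r := by positivity
  linarith

/-- The level of the sieve. -/
private theorem level85b {P : Finset ℕ} {z : ℝ} (hz : 1 < z) (hP : ∀ p ∈ P, p.Prime ∧ (p : ℝ) < z) {r b₀ : ℕ}
    (hc : (range (r + 1)).biUnion (blk P (Real.log z)) = P) {S : Finset ℕ} (hS : S ⊆ P)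
    (hcard : ∀ j ∈ range (r + 1), (S ∩ blk P (Real.log z) j).card ≤ b₀ + 2 * j + 1) :
    ((∏ p ∈ S, p : ℕ) : ℝ) ≤ z ^ (2 * b₀ + 6) := by
  have hZ : 0 < Real.log z := Real.log_pos hz
  have hpos : ∀ p ∈ S, (0 : ℝ) < p := fun p hp => by exact_mod_cast (hP p (hS hp)).1.pos
  have h1 : Real.log (∏ p ∈ S, (p : ℝ)) ≤ (2 * b₀ + 6) * Real.log z := by
    rw [Real.log_prod fun p hp => (hpos p hp).ne']
    have e : S = (range (r + 1)).biUnion (fun j => S ∩ blk P (Real.log z) j) := by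
      rw [← inter_biUnion, hc]
      exact (inter_eq_left.2 hS).symm
    rw [e, sum_biUnion fun i _ j _ hij => (blk_disj P _ hij).mono inter_subset_right inter_subset_right]
    have h2 : ∀ j ∈ range (r + 1), ∑ p ∈ S ∩ blk P (Real.log z) j, Real.log (p : ℝ) ≤
        (b₀ + 1) * Real.log z * (1 / 2 ^ j) + 2 * Real.log z * (j / 2 ^ j) := by
      intro j hj
      have h3 : ∑ p ∈ S ∩ blk P (Real.log z) j, Real.log (p : ℝ) ≤
          (S ∩ blk P (Real.log z) j).card • (Real.log z / 2 ^ j) := by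
        refine sum_le_card_nsmul _ _ _ fun p hp => ?_
        have := (mem_filter.1 (mem_inter.1 hp).2).2.1
        rw [le_div_iff₀ (by positivity), mul_comm]
        exact this.le
      rw [nsmul_eq_mul] at h3
      have h4 : ((S ∩ blk P (Real.log z) j).card : ℝ) ≤ b₀ + 2 * j + 1 := by exact_mod_cast hcard j hj
      have h5 := mul_le_mul_of_nonneg_right h4 (show 0 ≤ Real.log z / 2 ^ j by positivity)
      refine (h3.trans h5).trans (le_of_eq ?_)
      field_simp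
      ring
    refine (sum_le_sum h2).trans ?_
    rw [sum_add_distrib, ← mul_sum, ← mul_sum]
    have h6 := mul_le_mul_of_nonneg_left (half_sum85b (r + 1)) (show 0 ≤ (b₀ + 1) * Real.log z by positivity)
    have h7 := mul_le_mul_of_nonneg_left (half_sum85b' (r + 1)) (show 0 ≤ 2 * Real.log z by positivity)
    linarith
  have h8 : (0 : ℝ) < ∏ p ∈ S, (p : ℝ) := prod_pos hpos
  rw [Nat.cast_prod, ← Real.exp_log h8]
  refine (Real.exp_le_exp.2 h1).trans (le_of_eq ?_)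
  rw [mul_comm, Real.exp_mul, Real.exp_log (by linarith)]
  have : ((2 : ℝ) * b₀ + 6) = ((2 * b₀ + 6 : ℕ) : ℝ) := by push_cast; ring
  rw [this, Real.rpow_natCast]

/-- The tail of the exponential series beats any power. -/
private theorem tail85b (δ : ℝ) (hδ : 0 < δ) : ∃ b₀ : ℕ, Even b₀ ∧ ∀ r : ℕ,
    (∑ j ∈ range r, Ls ^ (b₀ + 2 * j + 1) / ((b₀ + 2 * j + 1).factorial : ℝ)) * ((2 * b₀ + 10 : ℕ) : ℝ) ^ 6 ≤ δ := by
  set g : ℕ → ℝ := fun n => Ls ^ n / (n.factorial : ℝ) * ((2 * n + 10 : ℕ) : ℝ) ^ 6 with hg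
  have hLs := Ls_pos
  have h1 : Summable g := by
    refine Summable.of_nonneg_of_le (fun n => by rw [hg]; positivity) (fun n => ?_)
      ((Real.summable_pow_div_factorial (Ls * Real.exp 2)).mul_left (720 * Real.exp 10))
    have h2 := Real.pow_div_factorial_le_exp ((2 * n + 10 : ℕ) : ℝ) (by positivity) 6
    have h3 : ((2 * n + 10 : ℕ) : ℝ) ^ 6 ≤ 720 * Real.exp ((2 * n + 10 : ℕ) : ℝ) := by
      have h4 : ((Nat.factorial 6 : ℕ) : ℝ) = 720 := by norm_num [Nat.factorial]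
      rw [h4, div_le_iff₀ (by norm_num)] at h2
      linarith
    have h5 : Real.exp ((2 * n + 10 : ℕ) : ℝ) = Real.exp 10 * Real.exp 2 ^ n := by
      rw [← Real.exp_nat_mul, ← Real.exp_add]
      congr 1
      push_cast
      ring
    rw [hg]
    dsimp only
    rw [h5] at h3
    calc Ls ^ n / (n.factorial : ℝ) * ((2 * n + 10 : ℕ) : ℝ) ^ 6 ≤
          Ls ^ n / (n.factorial : ℝ) * (720 * (Real.exp 10 * Real.exp 2 ^ n)) :=
          mul_le_mul_of_nonneg_left h3 (by positivity)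
      _ = 720 * Real.exp 10 * ((Ls * Real.exp 2) ^ n / (n.factorial : ℝ)) := by rw [mul_pow]; ring
  obtain ⟨s, hs⟩ := summable_iff_vanishing_norm.1 h1 δ hδ
  refine ⟨2 * (s.sup id), even_two_mul _, fun r => ?_⟩
  have h2 := hs ((range r).image (fun j => 2 * (s.sup id) + 2 * j + 1)) (by
    rw [disjoint_left]
    intro n hn hns
    obtain ⟨j, -, rfl⟩ := mem_image.1 hn
    have : 2 * (s.sup id) + 2 * j + 1 ≤ s.sup id := le_sup (f := id) hns
    omega)
  rw [sum_image (fun a _ b _ hab => by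
    have : 2 * (s.sup id) + 2 * a + 1 = 2 * (s.sup id) + 2 * b + 1 := hab
    omega)] at h2
  refine le_trans ?_ ((le_abs_self _).trans h2.le)
  rw [sum_mul]
  refine sum_le_sum fun j _ => ?_
  rw [hg]
  dsimp only
  refine mul_le_mul_of_nonneg_left ?_ (by positivity)
  refine pow_le_pow_left₀ (by positivity) ?_ 6
  exact_mod_cast (by omega : 2 * (2 * s.sup id) + 10 ≤ 2 * (2 * s.sup id + 2 * j + 1) + 10)

/-- The two main terms. -/
private theorem main85b {b₀ : ℕ} (hb : Even b₀) {τ : ℝ} (hτ1 : τ ≤ 1) (htail : ∀ r : ℕ, (∑ j ∈ range r,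
      Ls ^ (b₀ + 2 * j + 1) / ((b₀ + 2 * j + 1).factorial : ℝ)) * Real.exp (2 * Ls) ≤ τ)
    {P : Finset ℕ} (hP : ∀ p ∈ P, p.Prime) (Z : ℝ) (r : ℕ) :
    ((∏ j ∈ range r, ∏ p ∈ blk P Z j, (1 - 1 / (p : ℝ))) * (1 - τ) ≤
      ∏ j ∈ range r, ms (fun p : ℕ => 1 / (p : ℝ)) (blk P Z j) (b₀ + 2 * j) -
        ∑ j ∈ range r, es (fun p : ℕ => 1 / (p : ℝ)) (blk P Z j) (b₀ + 2 * j + 1) *
          ∏ i ∈ (range r).erase j, ms (fun p : ℕ => 1 / (p : ℝ)) (blk P Z i) (b₀ + 2 * i)) ∧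
      ∏ j ∈ range r, ms (fun p : ℕ => 1 / (p : ℝ)) (blk P Z j) (b₀ + 2 * j) ≤
        (∏ j ∈ range r, ∏ p ∈ blk P Z j, (1 - 1 / (p : ℝ))) * (1 + 2 * τ) := by
  have hw : ∀ j, ∀ p ∈ blk P Z j, (0 : ℝ) ≤ 1 / (p : ℝ) ∧ 1 / (p : ℝ) ≤ 1 := by
    intro j p hp
    have h1 : (1 : ℝ) ≤ p := by exact_mod_cast (hP p (mem_filter.1 hp).1).one_lt.le
    exact ⟨by positivity, by rw [div_le_one (by linarith)]; exact h1⟩
  obtain ⟨x, hx⟩ : ∃ x : ℕ → ℝ, x = fun j => ∏ p ∈ blk P Z j, (1 - 1 / (p : ℝ)) := ⟨_, rfl⟩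
  obtain ⟨m, hm⟩ : ∃ m : ℕ → ℝ, m = fun j => ms (fun p : ℕ => 1 / (p : ℝ)) (blk P Z j) (b₀ + 2 * j) := ⟨_, rfl⟩
  obtain ⟨e, he⟩ : ∃ e : ℕ → ℝ, e = fun j => es (fun p : ℕ => 1 / (p : ℝ)) (blk P Z j) (b₀ + 2 * j + 1) := ⟨_, rfl⟩
  have hxpos : ∀ j, Real.exp (-(2 * Ls)) ≤ x j := by
    intro j
    have hpos : ∀ p ∈ blk P Z j, (0 : ℝ) < 1 - 1 / p := by
      intro p hp
      have h1 : (1 : ℝ) < p := by exact_mod_cast (hP p (mem_filter.1 hp).1).one_lt
      rw [sub_pos, div_lt_one (by linarith)]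
      exact h1
    rw [hx]
    dsimp only
    rw [← Real.exp_log (prod_pos hpos), Real.log_prod (fun p hp => (hpos p hp).ne')]
    refine Real.exp_le_exp.2 ?_
    have h1 := blk_sum_le hP Z j
    have h2 : ∑ p ∈ blk P Z j, -(2 * (1 / (p : ℝ))) ≤ ∑ p ∈ blk P Z j, Real.log (1 - 1 / (p : ℝ)) :=
      sum_le_sum fun p hp => log_one_sub (hP p (mem_filter.1 hp).1)
    rw [sum_neg_distrib, ← mul_sum] at h2
    linarith
  have hexp : 0 < Real.exp (-(2 * Ls)) := Real.exp_pos _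
  have hxp : ∀ j, 0 < x j := fun j => lt_of_lt_of_le hexp (hxpos j)
  have hbf : ∀ j, x j ≤ m j ∧ m j ≤ x j + e j := by
    intro j
    have h1 := bonf (hw j) (b₀ + 2 * j)
    rw [(hb.add (even_two_mul j)).neg_one_pow, one_mul] at h1
    rw [hx, hm, he]
    dsimp only
    exact ⟨by linarith [h1.1], by linarith [h1.2]⟩
  have hmpos : ∀ j, 0 < m j := fun j => lt_of_lt_of_le (hxp j) (hbf j).1
  have hele : ∀ j, e j ≤ Ls ^ (b₀ + 2 * j + 1) / ((b₀ + 2 * j + 1).factorial : ℝ) := by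
    intro j
    rw [he]
    refine (es_le (fun p hp => (hw j p hp).1) (b₀ + 2 * j + 1)).trans ?_
    refine div_le_div_of_nonneg_right ?_ (by positivity)
    exact pow_le_pow_left₀ (sum_nonneg fun p hp => (hw j p hp).1) (blk_sum_le hP Z j) _
  have hnn : 0 ≤ τ := (mul_nonneg (sum_nonneg fun j _ => by have := Ls_pos; positivity)
    (Real.exp_pos (2 * Ls)).le).trans (htail 0)
  have h1 : ∑ j ∈ range r, e j * ∏ i ∈ (range r).erase j, m i ≤ (∏ j ∈ range r, m j) * τ := by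
    have h2 : ∀ j ∈ range r, e j * ∏ i ∈ (range r).erase j, m i ≤
        (∏ j ∈ range r, m j) * (Ls ^ (b₀ + 2 * j + 1) / ((b₀ + 2 * j + 1).factorial : ℝ) * Real.exp (2 * Ls)) := by
      intro j hj
      have h3 : ∏ i ∈ (range r).erase j, m i ≤ (∏ j ∈ range r, m j) * Real.exp (2 * Ls) := by
        rw [← mul_prod_erase (range r) m hj]
        have h4 : 0 < ∏ i ∈ (range r).erase j, m i := prod_pos fun i _ => hmpos i
        have h5 : 1 ≤ m j * Real.exp (2 * Ls) := by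
          have h6 := mul_le_mul_of_nonneg_right ((hxpos j).trans (hbf j).1) (Real.exp_pos (2 * Ls)).le
          rwa [← Real.exp_add, neg_add_cancel, Real.exp_zero] at h6
        calc ∏ i ∈ (range r).erase j, m i = 1 * ∏ i ∈ (range r).erase j, m i := (one_mul _).symm
          _ ≤ (m j * Real.exp (2 * Ls)) * ∏ i ∈ (range r).erase j, m i := mul_le_mul_of_nonneg_right h5 h4.le
          _ = _ := by ring
      have h7 : 0 ≤ ∏ i ∈ (range r).erase j, m i := prod_nonneg fun i _ => (hmpos i).le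
      calc e j * ∏ i ∈ (range r).erase j, m i ≤
            (Ls ^ (b₀ + 2 * j + 1) / ((b₀ + 2 * j + 1).factorial : ℝ)) * ∏ i ∈ (range r).erase j, m i :=
            mul_le_mul_of_nonneg_right (hele j) h7
        _ ≤ (Ls ^ (b₀ + 2 * j + 1) / ((b₀ + 2 * j + 1).factorial : ℝ)) * ((∏ j ∈ range r, m j) * Real.exp (2 * Ls)) :=
            mul_le_mul_of_nonneg_left h3 (by have := Ls_pos; positivity)
        _ = _ := by ring
    refine (sum_le_sum h2).trans ?_
    rw [← mul_sum, ← sum_mul]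
    exact mul_le_mul_of_nonneg_left (htail r) (prod_nonneg fun i _ => (hmpos i).le)
  have h11 : ∏ j ∈ range r, x j ≤ ∏ j ∈ range r, m j :=
    prod_le_prod (fun j _ => (hxp j).le) fun j _ => (hbf j).1
  have hlow : (∏ j ∈ range r, x j) * (1 - τ) ≤ ∏ j ∈ range r, m j - ∑ j ∈ range r, e j * ∏ i ∈ (range r).erase j, m i := by
    have := mul_le_mul_of_nonneg_right h11 (show 0 ≤ 1 - τ by linarith)
    linarith
  have hup : ∏ j ∈ range r, m j ≤ (∏ j ∈ range r, x j) * (1 + 2 * τ) := by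
    have h12 : ∏ j ∈ range r, m j ≤ ∏ j ∈ range r, (x j * Real.exp (Real.exp (2 * Ls) *
        (Ls ^ (b₀ + 2 * j + 1) / ((b₀ + 2 * j + 1).factorial : ℝ)))) := by
      refine prod_le_prod (fun j _ => (hmpos j).le) fun j _ => ?_
      refine (hbf j).2.trans ?_
      have h13 := Real.add_one_le_exp (Real.exp (2 * Ls) * (Ls ^ (b₀ + 2 * j + 1) / ((b₀ + 2 * j + 1).factorial : ℝ)))
      have h14 := mul_le_mul_of_nonneg_left h13 (hxp j).le
      refine le_trans ?_ h14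
      have h15 : 1 ≤ x j * Real.exp (2 * Ls) := by
        have h6 := mul_le_mul_of_nonneg_right (hxpos j) (Real.exp_pos (2 * Ls)).le
        rwa [← Real.exp_add, neg_add_cancel, Real.exp_zero] at h6
      have h16 : (0 : ℝ) ≤ Ls ^ (b₀ + 2 * j + 1) / ((b₀ + 2 * j + 1).factorial : ℝ) := by
        have := Ls_pos; positivity
      have h17 := mul_le_mul_of_nonneg_right h15 h16
      have h18 := hele j
      calc x j + e j ≤ x j + 1 * (Ls ^ (b₀ + 2 * j + 1) / ((b₀ + 2 * j + 1).factorial : ℝ)) := by linarith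
        _ ≤ x j + x j * Real.exp (2 * Ls) * (Ls ^ (b₀ + 2 * j + 1) / ((b₀ + 2 * j + 1).factorial : ℝ)) := by linarith
        _ = _ := by ring
    rw [prod_mul_distrib, ← Real.exp_sum, ← mul_sum] at h12
    refine h12.trans (mul_le_mul_of_nonneg_left ?_ (prod_nonneg fun i _ => (hxp i).le))
    have h19 := htail r
    rw [mul_comm] at h19
    refine (Real.exp_le_exp.2 h19).trans ?_
    have h20 := Real.abs_exp_sub_one_le (x := τ) (by rw [abs_of_nonneg hnn]; exact hτ1)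
    rw [abs_of_nonneg hnn] at h20
    have := (abs_le.1 h20).2
    linarith
  rw [hx, hm] at hup
  rw [hx, hm, he] at hlow
  exact ⟨hlow, hup⟩

end Pool.Agent.Helper85.SV

namespace Pool.Agent.PW

open Finset Filter Pool.Agent.Helper85.SV

/-- The number of multiples of `N` in `[a, b)`. -/
theorem card_mult (a b : ℝ) (ha : 0 ≤ a) (hab : a ≤ b) (N : ℕ) (hN : 0 < N) :
    |((((Ico ⌈a⌉₊ ⌈b⌉₊).filter (fun n => N ∣ n)).card : ℕ) : ℝ) - (b - a) / N| ≤ 1 := by
  have hN0 : (0 : ℝ) < N := by exact_mod_cast hN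
  have e : (Ico ⌈a⌉₊ ⌈b⌉₊).filter (fun n => N ∣ n) = (Ico ⌈a / N⌉₊ ⌈b / N⌉₊).image (fun k => N * k) := by
    ext n
    simp only [mem_filter, mem_Ico, mem_image]
    constructor
    · rintro ⟨⟨h1, h2⟩, k, rfl⟩
      refine ⟨k, ⟨?_, ?_⟩, rfl⟩
      · rw [Nat.ceil_le] at h1 ⊢
        rw [div_le_iff₀ hN0]
        push_cast at h1
        linarith
      · rw [Nat.lt_ceil] at h2 ⊢
        rw [lt_div_iff₀ hN0]
        push_cast at h2
        linarith
    · rintro ⟨k, ⟨h1, h2⟩, rfl⟩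
      refine ⟨⟨?_, ?_⟩, Dvd.intro _ rfl⟩
      · rw [Nat.ceil_le] at h1 ⊢
        rw [div_le_iff₀ hN0] at h1
        push_cast
        linarith
      · rw [Nat.lt_ceil] at h2 ⊢
        rw [lt_div_iff₀ hN0] at h2
        push_cast
        linarith
  have hinj : Function.Injective (fun k => N * k) := fun x y h => Nat.eq_of_mul_eq_mul_left hN h
  rw [e, card_image_of_injective _ hinj, Nat.card_Ico]
  have hmono : ⌈a / N⌉₊ ≤ ⌈b / N⌉₊ := Nat.ceil_le_ceil (div_le_div_of_nonneg_right hab hN0.le)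
  rw [Nat.cast_sub hmono]
  have h1 := Nat.le_ceil (a / N)
  have h2 := Nat.ceil_lt_add_one (show 0 ≤ a / N by positivity)
  have h3 := Nat.le_ceil (b / N)
  have h4 := Nat.ceil_lt_add_one (show 0 ≤ b / N by exact div_nonneg (ha.trans hab) hN0.le)
  rw [abs_le, sub_div]
  constructor <;> linarith

/-- The primes `< z`. -/
private noncomputable def PZ85 (z : ℝ) : Finset ℕ := (range ⌈z⌉₊).filter Nat.Prime

private theorem mem_PZ85 {z : ℝ} {p : ℕ} : p ∈ PZ85 z ↔ p.Prime ∧ (p : ℝ) < z := by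
  unfold PZ85
  rw [mem_filter, mem_range, Nat.lt_ceil]
  exact and_comm

/-- **The fundamental lemma.** -/
theorem FL (δ : ℝ) (hδ : 0 < δ) : ∃ s : ℕ, 1 ≤ s ∧ ∃ ε : ℝ, 0 < ε ∧ ε * ((s : ℝ) + 4) ^ 6 ≤ δ ∧
    ∃ z₀ : ℝ, 2 ≤ z₀ ∧ ∀ z : ℝ, z₀ ≤ z → ∀ a b : ℝ, 0 ≤ a → z ^ (s + 1) ≤ b - a →
      |((((Ico ⌈a⌉₊ ⌈b⌉₊).filter (RR z)).card : ℕ) : ℝ) - VV z * (b - a)| ≤ ε * VV z * (b - a) := by
  set δ' : ℝ := min δ 1 with hδ'
  have hδ0 : 0 < δ' := lt_min hδ one_pos
  have hE0 : 0 < Real.exp (2 * Ls) := Real.exp_pos _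
  obtain ⟨b₀, hb, htail⟩ := tail85b (δ' / (4 * Real.exp (2 * Ls))) (by positivity)
  obtain ⟨c, hc, hprod⟩ := prod_lower
  set s : ℕ := 2 * b₀ + 6 with hs
  have hs6 : (0 : ℝ) < ((s : ℝ) + 4) ^ 6 := by positivity
  have hscast : ((2 * b₀ + 10 : ℕ) : ℝ) = (s : ℝ) + 4 := by rw [hs]; push_cast; ring
  set ε : ℝ := δ' / ((s : ℝ) + 4) ^ 6 with hε
  have hε0 : 0 < ε := by positivity
  set τ : ℝ := ε / 4 with hτ
  have hτ1 : τ ≤ 1 := by
    have h1 : ε ≤ 1 := by
      rw [hε, div_le_one hs6]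
      have h2 : (1 : ℝ) ≤ ((s : ℝ) + 4) ^ 6 := one_le_pow₀ (by
        have : (0 : ℝ) ≤ s := Nat.cast_nonneg _
        linarith)
      exact (min_le_right _ _).trans h2
    linarith
  have htail' : ∀ r : ℕ, (∑ j ∈ range r,
      Ls ^ (b₀ + 2 * j + 1) / ((b₀ + 2 * j + 1).factorial : ℝ)) * Real.exp (2 * Ls) ≤ τ := by
    intro r
    have h1 := htail r
    rw [hscast, le_div_iff₀ (by positivity)] at h1
    rw [hτ, hε, div_div, le_div_iff₀ (by positivity)]
    linarith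
  obtain ⟨z₁, hz₁⟩ : ∃ z₁ : ℝ, ∀ z ≥ z₁, Real.log z ≤ (c * ε / 2) * z := by
    have h1 := Real.isLittleO_log_id_atTop.bound (show 0 < c * ε / 2 by positivity)
    obtain ⟨z₁, h2⟩ := eventually_atTop.1 (h1.and (eventually_ge_atTop 1))
    refine ⟨z₁, fun z hz => ?_⟩
    obtain ⟨h3, h4⟩ := h2 z hz
    simp only [id, Real.norm_eq_abs] at h3
    rw [abs_of_nonneg (Real.log_nonneg h4), abs_of_nonneg (by linarith)] at h3
    exact h3
  refine ⟨s, by omega, ε, hε0, ?_, max z₁ 2, le_max_right _ _, ?_⟩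
  · rw [hε, div_mul_cancel₀ _ hs6.ne']
    exact min_le_left _ _
  intro z hz a b ha hab
  have hz2 : 2 ≤ z := (le_max_right _ _).trans hz
  have hzz := hz₁ z ((le_max_left _ _).trans hz)
  have hZ : 0 < Real.log z := Real.log_pos (by linarith)
  have hz0 : 0 < z := by linarith
  have hl2 : 0 < Real.log 2 := Real.log_pos (by norm_num)
  set X : ℝ := b - a with hX
  have hX0 : 0 < X := lt_of_lt_of_le (by positivity) hab
  have hab' : a ≤ b := by linarith
  set P : Finset ℕ := PZ85 z with hP0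
  have hP : ∀ p ∈ P, p.Prime ∧ (p : ℝ) < z := fun p hp => mem_PZ85.1 hp
  set A : Finset ℕ := Ico ⌈a⌉₊ ⌈b⌉₊ with hA
  obtain ⟨r, hr⟩ : ∃ r : ℕ, Real.log z ≤ 2 ^ (r + 1) * Real.log 2 := by
    obtain ⟨r, hr⟩ := pow_unbounded_of_one_lt (Real.log z / Real.log 2) (show (1 : ℝ) < 2 by norm_num)
    refine ⟨r, ?_⟩
    rw [div_lt_iff₀ hl2] at hr
    refine hr.le.trans (mul_le_mul_of_nonneg_right ?_ hl2.le)
    exact pow_le_pow_right₀ (by norm_num) (Nat.le_succ r)
  have hP' : ∀ p ∈ P, p.Prime ∧ Real.log p < Real.log z := fun p hp =>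
    ⟨(hP p hp).1, Real.log_lt_log (by exact_mod_cast (hP p hp).1.pos) (hP p hp).2⟩
  have hcov := blk_cover hP' hr
  have hdiv : ∀ (S : Finset ℕ), S ⊆ P → ∀ n : ℕ, (∏ p ∈ S, p) ∣ n ↔ S ⊆ P.filter (fun p => p ∣ n) := by
    intro S hS n
    constructor
    · intro h p hp
      exact mem_filter.2 ⟨hS hp, dvd_trans (dvd_prod_of_mem (fun p => p) hp) h⟩
    · intro h
      exact prod_primes_dvd _ (fun p hp => (hP p (hS hp)).1.prime) fun p hp => (mem_filter.1 (h hp)).2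
  have hsq : ∀ S : Finset ℕ, S ⊆ P → (∏ p ∈ S, p).primeFactors = S := by
    intro S hS
    exact Nat.primeFactors_prod fun p hp => (hP p (hS hp)).1
  have hEE : ∀ S ⊆ (range (r + 1)).biUnion (blk P (Real.log z)),
      (∀ j ∈ range (r + 1), (S ∩ blk P (Real.log z) j).card ≤ (fun j => b₀ + 2 * j) j + 1) →
      |((A.filter (fun n => S ⊆ (fun n => P.filter (fun p => p ∣ n)) n)).card : ℝ) -
        X * ∏ p ∈ S, (fun p : ℕ => 1 / (p : ℝ)) p| ≤ (fun _ : Finset ℕ => (1 : ℝ)) S := by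
    intro S hS _
    rw [hcov] at hS
    have e1 : A.filter (fun n : ℕ => S ⊆ P.filter (fun p : ℕ => p ∣ n)) =
        A.filter (fun n => (∏ p ∈ S, p) ∣ n) := filter_congr fun n _ => (hdiv S hS n).symm
    have e2 : ∏ p ∈ S, (1 : ℝ) / (p : ℝ) = 1 / ((∏ p ∈ S, p : ℕ) : ℝ) := by
      rw [prod_div_distrib, prod_const_one, Nat.cast_prod]
    dsimp only
    rw [e1, e2, mul_one_div]
    exact card_mult a b ha hab' _ (prod_pos fun p hp => (hP p (hS hp)).1.pos)
  -- the error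
  have herr : ∀ Q : Finset (Finset ℕ), (∀ S ∈ Q, S ⊆ P ∧ ∀ j ∈ range (r + 1),
      (S ∩ blk P (Real.log z) j).card ≤ b₀ + 2 * j + 1) → ∑ S ∈ Q, (1 : ℝ) ≤ z ^ s := by
    intro Q hQ
    rw [sum_const, nsmul_eq_mul, mul_one]
    have h1 : Q.card ≤ (Icc 1 ⌊z ^ s⌋₊).card := by
      refine card_le_card_of_injOn (fun S => ∏ p ∈ S, p) ?_ ?_
      · intro S hS
        obtain ⟨hS3, hS2⟩ := hQ S (mem_coe.1 hS)
        refine mem_coe.2 (mem_Icc.2 ⟨?_, Nat.le_floor (level85b (by linarith) hP hcov hS3 hS2)⟩)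
        exact prod_pos fun p hp => (hP p (hS3 hp)).1.pos
      · intro S hS T hT hST
        have h1 := hsq S (hQ S (mem_coe.1 hS)).1
        have h2 := hsq T (hQ T (mem_coe.1 hT)).1
        have h3 : ∏ p ∈ S, p = ∏ p ∈ T, p := hST
        rw [← h1, ← h2, h3]
    rw [Nat.card_Icc, Nat.add_sub_cancel] at h1
    exact (Nat.cast_le.2 h1).trans (Nat.floor_le (by positivity))
  have hlow := sieve_abs (range (r + 1)) (blk P (Real.log z)) (fun i _ j _ hij => blk_disj P _ hij)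
    (fun j => b₀ + 2 * j) (fun j _ => hb.add (even_two_mul j)) A (fun n => P.filter (fun p => p ∣ n))
    (fun n _ => by rw [hcov]; exact filter_subset _ _) X (fun p : ℕ => 1 / (p : ℝ)) (fun _ => (1 : ℝ)) hEE
  have hupp := sieve_upper (range (r + 1)) (blk P (Real.log z)) (fun i _ j _ hij => blk_disj P _ hij)
    (fun j => b₀ + 2 * j) (fun j _ => hb.add (even_two_mul j)) A (fun n => P.filter (fun p => p ∣ n))
    X (fun p : ℕ => 1 / (p : ℝ)) (fun _ => (1 : ℝ)) hEE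
  have e3 : A.filter (fun n : ℕ => P.filter (fun p : ℕ => p ∣ n) = ∅) = A.filter (RR z) := by
    refine filter_congr fun n _ => ?_
    rw [filter_eq_empty_iff]
    unfold RR
    constructor
    · intro h p hp hpz
      exact h (mem_PZ85.2 ⟨hp, hpz⟩)
    · intro h p hp
      exact h p (hP p hp).1 (hP p hp).2
  rw [e3] at hlow hupp
  rw [hcov] at hlow hupp
  have herr' := herr _ (fun S hS => ⟨mem_powerset.1 (mem_filter.1 hS).1, (mem_filter.1 hS).2⟩)
  have hlow' := (sub_le_sub_left herr' _).trans hlow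
  have hupp' := hupp.trans (add_le_add_right herr' _)
  have hm := main85b hb hτ1 htail' (fun p hp => (hP p hp).1) (Real.log z) (r + 1)
  have e4 : ∏ j ∈ range (r + 1), ∏ p ∈ blk P (Real.log z) j, (1 - 1 / (p : ℝ)) = VV z := by
    rw [← prod_biUnion fun i _ j _ hij => blk_disj P _ hij, hcov]
    rfl
  rw [e4] at hm
  have hV : c / Real.log z ≤ VV z := hprod P z hz2 hP
  have hV0 : 0 < VV z := lt_of_lt_of_le (by positivity) hV
  -- the error is small
  have hsmall : z ^ s ≤ ε / 2 * VV z * X := by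
    have h1 : z ^ s * z ≤ X := by rw [← pow_succ]; exact hab
    have h2 : 1 ≤ ε / 2 * VV z * z := by
      have h3 : ε / 2 * (c / Real.log z) * z ≤ ε / 2 * VV z * z := by gcongr
      refine le_trans ?_ h3
      have e : ε / 2 * (c / Real.log z) * z = (c * ε / 2 * z) / Real.log z := by ring
      rw [e, le_div_iff₀ hZ, one_mul]
      exact hzz
    calc z ^ s = z ^ s * 1 := (mul_one _).symm
      _ ≤ z ^ s * (ε / 2 * VV z * z) := by gcongr
      _ = ε / 2 * VV z * (z ^ s * z) := by ring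
      _ ≤ ε / 2 * VV z * X := by gcongr
  obtain ⟨hm1, hm2⟩ := hm
  have h1 := mul_le_mul_of_nonneg_left hm1 hX0.le
  have h2 := mul_le_mul_of_nonneg_left hm2 hX0.le
  have hεV : 0 ≤ ε * VV z * X := by positivity
  rw [abs_le]
  constructor
  · have h3 : X * (VV z * (1 - τ)) - z ^ s ≤ (((A.filter (RR z)).card : ℕ) : ℝ) := by
      refine le_trans ?_ hlow'
      linarith
    have e5 : X * (VV z * (1 - τ)) = VV z * X - ε * VV z * X / 4 := by rw [hτ]; ring
    rw [e5] at h3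
    linarith
  · have h3 : (((A.filter (RR z)).card : ℕ) : ℝ) ≤ X * (VV z * (1 + 2 * τ)) + z ^ s := by
      refine hupp'.trans ?_
      linarith
    have e5 : X * (VV z * (1 + 2 * τ)) = VV z * X + ε * VV z * X / 2 := by rw [hτ]; ring
    rw [e5] at h3
    linarith

end Pool.Agent.PW
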