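import Mathlib

/-!
# Project PRIMES, windows half: rough numbers
-/

set_option autoImplicit false

namespace Pool.Agent.PW

/-- `n` has no prime factor `< z`. -/
def RR (z : ℝ) (n : ℕ) : Prop := ∀ p : ℕ, p.Prime → (p : ℝ) < z → ¬ p ∣ n

noncomputable instance instDecRR (z : ℝ) : DecidablePred (RR z) := fun _ => Classical.propDecidable _

/-- The product of `1 - 1 / p` over the primes `p < z`. -/
noncomputable def VV (z : ℝ) : ℝ := ∏ p ∈ (Finset.range ⌈z⌉₊).filter Nat.Prime, (1 - 1 / (p : ℝ))

end Pool.Agent.PW
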