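import Pool.Agent.Helper85.PW.S1

/-!
# Block S3: the differences of the particles

Put `u p = p.2 / 3 ^ p.1` (real). One step: `u` becomes `(u + b) / 2` if the point is even and `(u + b) / 2 - ρ / (2 * 3 ^ (κ + 1))` if it is odd.
-/

set_option autoImplicit false

namespace Pool.Agent.Helper85.PW

open Pool.Agent.Helper68.Moeller Pool.Agent.Helper8.CO Pool.Agent.Helper8.PW Finset Classical

variable {ρ : ℤ}

theorem qd_nonneg (p p' : ℕ × ℤ) : 0 ≤ qd ρ p p' := Real.sqrt_nonneg _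

theorem qd_comm (p p' : ℕ × ℤ) : qd ρ p p' = qd ρ p' p := by
  unfold qd
  rw [min_comm, abs_sub_comm]

theorem QQ_nonneg (P : Finset (ℕ × ℤ)) : 0 ≤ QQ ρ P :=
  sum_nonneg fun p _ => sum_nonneg fun p' _ => qd_nonneg p p'

/-- the real coordinate -/
private noncomputable def uf (p : ℕ × ℤ) : ℝ := (p.2 : ℝ) / 3 ^ p.1

private noncomputable def zd (ρ : ℤ) (p p' : ℕ × ℤ) : ℝ :=
  3 ^ (min p.1 p'.1) * |uf p - uf p'| / |(ρ : ℝ)|

private theorem qd_eq (p p' : ℕ × ℤ) : qd ρ p p' = Real.sqrt (zd ρ p p') := rfl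

private theorem zd_nonneg (p p' : ℕ × ℤ) : 0 ≤ zd ρ p p' := by
  unfold zd; positivity

private theorem uf_even {b : ℤ} {p : ℕ × ℤ} (h : Even (p.2 + 3 ^ p.1 * b)) :
    uf (run ρ 1 b p) = (uf p + b) / 2 := by
  rw [run_one_even h]
  unfold uf
  rw [Int.cast_div_charZero h.two_dvd]
  push_cast
  field_simp

private theorem uf_odd (hρ : Odd ρ) {b : ℤ} {p : ℕ × ℤ} (h : ¬ Even (p.2 + 3 ^ p.1 * b)) :
    uf (run ρ 1 b p) = (uf p + b) / 2 - ρ / (2 * 3 ^ (p.1 + 1)) := by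
  rw [run_one_odd h]
  unfold uf
  have ho : Odd (p.2 + 3 ^ p.1 * b) := Int.not_even_iff_odd.1 h
  have h3 : Even (3 * (p.2 + 3 ^ p.1 * b) - ρ) := (Odd.mul (by decide) ho).sub_odd hρ
  rw [Int.cast_div_charZero h3.two_dvd]
  push_cast
  rw [pow_succ]
  field_simp

private theorem ind_abs {x y z : ℝ} (h : |x| ≤ z) (h' : |y| ≤ z) (hs : 0 ≤ x * y) : |x - y| ≤ z := by
  rcases le_total 0 x with hx | hx <;> rcases le_total 0 y with hy | hy
  · rw [abs_of_nonneg hx] at h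
    rw [abs_of_nonneg hy] at h'
    rw [abs_le]
    constructor <;> linarith
  · rcases hx.eq_or_lt with h0 | h0
    · rw [← h0, zero_sub, abs_neg]; exact h'
    · rcases hy.eq_or_lt with h1 | h1
      · rw [h1, sub_zero]; exact h
      · nlinarith
  · rcases hy.eq_or_lt with h0 | h0
    · rw [← h0, sub_zero]; exact h
    · rcases hx.eq_or_lt with h1 | h1
      · rw [h1, zero_sub, abs_neg]; exact h'
      · nlinarith
  · rw [abs_of_nonpos hx] at h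
    rw [abs_of_nonpos hy] at h'
    rw [abs_le]
    constructor <;> linarith

/-- the increment of a particle -/
private noncomputable def eps (ρ b : ℤ) (p : ℕ × ℤ) : ℝ :=
  if Even (p.2 + 3 ^ p.1 * b) then 0 else (ρ : ℝ) / (2 * 3 ^ (p.1 + 1))

private theorem uf_run (hρ : Odd ρ) (b : ℤ) (p : ℕ × ℤ) :
    uf (run ρ 1 b p) = (uf p + b) / 2 - eps ρ b p := by
  unfold eps
  split_ifs with h
  · rw [uf_even h, sub_zero]
  · exact uf_odd hρ h

private theorem eps_abs (b : ℤ) (p : ℕ × ℤ) : |eps ρ b p| ≤ |(ρ : ℝ)| / (2 * 3 ^ (p.1 + 1)) := by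
  unfold eps
  split_ifs with h
  · rw [abs_zero]; positivity
  · rw [abs_div, abs_of_pos (show (0 : ℝ) < 2 * 3 ^ (p.1 + 1) by positivity)]

private theorem eps_sign (b : ℤ) (p p' : ℕ × ℤ) : 0 ≤ eps ρ b p * eps ρ b p' := by
  unfold eps
  split_ifs
  · simp
  · simp
  · simp
  · have : (ρ : ℝ) / (2 * 3 ^ (p.1 + 1)) * ((ρ : ℝ) / (2 * 3 ^ (p'.1 + 1))) =
        (ρ : ℝ) ^ 2 / ((2 * 3 ^ (p.1 + 1)) * (2 * 3 ^ (p'.1 + 1))) := by
      rw [div_mul_div_comm]; ring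
    rw [this]
    positivity

private theorem pow3_mono {a b : ℕ} (h : a ≤ b) : (3 : ℝ) ^ a ≤ 3 ^ b :=
  pow_le_pow_right₀ (by norm_num) h

private theorem zd_even (hρ : Odd ρ) {b : ℤ} {p p' : ℕ × ℤ} (hle : p.1 ≤ p'.1)
    (h : Even (p.2 + 3 ^ p.1 * b)) :
    zd ρ (run ρ 1 b p) (run ρ 1 b p') ≤ zd ρ p p' / 2 + 1 / 6 := by
  have hρ0 : (0 : ℝ) < |(ρ : ℝ)| := by
    rw [abs_pos]
    intro h0
    have : ρ = 0 := by exact_mod_cast h0
    rw [this] at hρ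
    exact absurd hρ (by decide)
  have hmin : min (run ρ 1 b p).1 (run ρ 1 b p').1 ≤ p.1 := by
    rw [run_one_even h]
    exact min_le_left _ _
  have hmin0 : min p.1 p'.1 = p.1 := min_eq_left hle
  have h1 : |uf (run ρ 1 b p) - uf (run ρ 1 b p')| ≤ |uf p - uf p'| / 2 + |(ρ : ℝ)| / (2 * 3 ^ (p.1 + 1)) := by
    rw [uf_run hρ, uf_run hρ]
    have e0 : eps ρ b p = 0 := by unfold eps; rw [if_pos h]
    have e1 : (uf p + b) / 2 - eps ρ b p - ((uf p' + b) / 2 - eps ρ b p') =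
        (uf p - uf p') / 2 + eps ρ b p' := by rw [e0]; ring
    rw [e1]
    refine (abs_add_le _ _).trans (add_le_add ?_ ((eps_abs b p').trans ?_))
    · rw [abs_div, abs_of_pos (show (0 : ℝ) < 2 by norm_num)]
    · refine div_le_div_of_nonneg_left hρ0.le (by positivity) ?_
      have := pow3_mono (show p.1 + 1 ≤ p'.1 + 1 by omega)
      linarith
  unfold zd
  rw [hmin0]
  calc 3 ^ min (run ρ 1 b p).1 (run ρ 1 b p').1 * |uf (run ρ 1 b p) - uf (run ρ 1 b p')| / |(ρ : ℝ)|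
      ≤ 3 ^ p.1 * (|uf p - uf p'| / 2 + |(ρ : ℝ)| / (2 * 3 ^ (p.1 + 1))) / |(ρ : ℝ)| := by
        refine div_le_div_of_nonneg_right ?_ hρ0.le
        exact mul_le_mul (pow3_mono hmin) h1 (abs_nonneg _) (by positivity)
    _ = 3 ^ p.1 * |uf p - uf p'| / |(ρ : ℝ)| / 2 + 1 / 6 := by
        rw [pow_succ]
        field_simp
        ring

private theorem zd_odd (hρ : Odd ρ) {b : ℤ} {p p' : ℕ × ℤ} (hle : p.1 ≤ p'.1) :
    zd ρ (run ρ 1 b p) (run ρ 1 b p') ≤ 3 / 2 * zd ρ p p' + 1 / 2 := by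
  have hρ0 : (0 : ℝ) < |(ρ : ℝ)| := by
    rw [abs_pos]
    intro h0
    have : ρ = 0 := by exact_mod_cast h0
    rw [this] at hρ
    exact absurd hρ (by decide)
  have hmin : min (run ρ 1 b p).1 (run ρ 1 b p').1 ≤ p.1 + 1 :=
    (min_le_left _ _).trans (run_fst_le 1 b p)
  have hmin0 : min p.1 p'.1 = p.1 := min_eq_left hle
  have h1 : |uf (run ρ 1 b p) - uf (run ρ 1 b p')| ≤ |uf p - uf p'| / 2 + |(ρ : ℝ)| / (2 * 3 ^ (p.1 + 1)) := by
    rw [uf_run hρ, uf_run hρ]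
    have e1 : (uf p + b) / 2 - eps ρ b p - ((uf p' + b) / 2 - eps ρ b p') =
        (uf p - uf p') / 2 + (eps ρ b p' - eps ρ b p) := by ring
    rw [e1]
    refine (abs_add_le _ _).trans (add_le_add ?_ ?_)
    · rw [abs_div, abs_of_pos (show (0 : ℝ) < 2 by norm_num)]
    · refine ind_abs ((eps_abs b p').trans ?_) (eps_abs b p) (eps_sign b p' p)
      refine div_le_div_of_nonneg_left hρ0.le (by positivity) ?_
      have := pow3_mono (show p.1 + 1 ≤ p'.1 + 1 by omega)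
      linarith
  unfold zd
  rw [hmin0]
  calc 3 ^ min (run ρ 1 b p).1 (run ρ 1 b p').1 * |uf (run ρ 1 b p) - uf (run ρ 1 b p')| / |(ρ : ℝ)|
      ≤ 3 ^ (p.1 + 1) * (|uf p - uf p'| / 2 + |(ρ : ℝ)| / (2 * 3 ^ (p.1 + 1))) / |(ρ : ℝ)| := by
        refine div_le_div_of_nonneg_right ?_ hρ0.le
        exact mul_le_mul (pow3_mono hmin) h1 (abs_nonneg _) (by positivity)
    _ = 3 / 2 * (3 ^ p.1 * |uf p - uf p'| / |(ρ : ℝ)|) + 1 / 2 := by
        rw [pow_succ]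
        field_simp

theorem qd_even (hρ : Odd ρ) {b : ℤ} {p p' : ℕ × ℤ} (hle : p.1 ≤ p'.1)
    (h : Even (p.2 + 3 ^ p.1 * b)) :
    qd ρ (run ρ 1 b p) (run ρ 1 b p') ≤ 71 / 100 * qd ρ p p' + 1 / 2 := by
  have h1 := zd_even hρ hle h
  have h0 := qd_nonneg (ρ := ρ) p p'
  have hq : qd ρ p p' ^ 2 = zd ρ p p' := Real.sq_sqrt (zd_nonneg p p')
  rw [qd_eq (run ρ 1 b p)]
  refine Real.sqrt_le_iff.2 ⟨by positivity, h1.trans ?_⟩
  rw [← hq]
  nlinarith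

theorem qd_odd (hρ : Odd ρ) {b : ℤ} {p p' : ℕ × ℤ} (hle : p.1 ≤ p'.1) :
    qd ρ (run ρ 1 b p) (run ρ 1 b p') ≤ 123 / 100 * qd ρ p p' + 3 / 4 := by
  have h1 := zd_odd hρ (b := b) hle
  have h0 := qd_nonneg (ρ := ρ) p p'
  have hq : qd ρ p p' ^ 2 = zd ρ p p' := Real.sq_sqrt (zd_nonneg p p')
  rw [qd_eq (run ρ 1 b p)]
  refine Real.sqrt_le_iff.2 ⟨by positivity, h1.trans ?_⟩
  rw [← hq]
  nlinarith

/-- The other digit. -/
theorem even_or_even (p : ℕ × ℤ) (b : ℤ) :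
    Even (p.2 + 3 ^ p.1 * (1 - b)) ↔ ¬ Even (p.2 + 3 ^ p.1 * b) := by
  have ho3 : ¬ Even ((3 : ℤ) ^ p.1) := Int.not_even_iff_odd.2 (Odd.pow (by decide))
  rw [Int.even_add, Int.even_add, Int.even_mul, Int.even_mul, Int.even_sub]
  have h1 : ¬ Even (1 : ℤ) := by decide
  tauto

/-- Two digits, with the weights `w`, `1 - w`. -/
theorem qd_two (hρ : Odd ρ) {w : ℝ} (hw : 49 / 100 ≤ w) (hw' : w ≤ 51 / 100) (b : ℤ) (p p' : ℕ × ℤ) :
    w * qd ρ (run ρ 1 b p) (run ρ 1 b p') + (1 - w) * qd ρ (run ρ 1 (1 - b) p) (run ρ 1 (1 - b) p') ≤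
      98 / 100 * qd ρ p p' + 64 / 100 := by
  wlog hle : p.1 ≤ p'.1 generalizing p p'
  · rw [qd_comm (run ρ 1 b p), qd_comm (run ρ 1 (1 - b) p), qd_comm p]
    exact this p' p (by omega)
  have h0 := qd_nonneg (ρ := ρ) p p'
  by_cases h : Even (p.2 + 3 ^ p.1 * b)
  · have h1 := qd_even hρ hle h
    have h2 := qd_odd hρ (b := 1 - b) hle
    nlinarith
  · have h1 := qd_even hρ hle ((even_or_even p b).2 h)
    have h2 := qd_odd hρ (b := b) hle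
    nlinarith

theorem sum_two_mul {M : Type*} [AddCommMonoid M] (n : ℕ) (f : ℕ → M) :
    ∑ j ∈ range (2 * n), f j = ∑ j ∈ range n, (f (2 * j) + f (1 + 2 * j)) := by
  induction n with
  | zero => simp
  | succ n ih =>
    rw [show 2 * (n + 1) = 2 * n + 1 + 1 by ring, sum_range_succ, sum_range_succ, ih, sum_range_succ,
      show 1 + 2 * n = 2 * n + 1 by ring]
    exact add_assoc _ _ _

theorem qd_avg' (hρ : Odd ρ) (k : ℕ) (p p' : ℕ × ℤ) :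
    ∑ j ∈ range (2 ^ k), qd ρ (run ρ k j p) (run ρ k j p') ≤
      2 ^ k * ((98 / 100) ^ k * qd ρ p p' + 32 * (1 - (98 / 100) ^ k)) := by
  induction k generalizing p p' with
  | zero =>
    simp only [pow_zero, range_one, sum_singleton, one_mul]
    rw [run_zero, run_zero]
    simp only [Nat.cast_zero, mul_zero, add_zero]
    linarith
  | succ k ih =>
    rw [pow_succ, mul_comm (2 ^ k) 2, sum_two_mul]
    have h1 : ∀ j ∈ range (2 ^ k), (qd ρ (run ρ (k + 1) ((2 * j : ℕ) : ℤ) p) (run ρ (k + 1) ((2 * j : ℕ) : ℤ) p') +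
        qd ρ (run ρ (k + 1) ((1 + 2 * j : ℕ) : ℤ) p) (run ρ (k + 1) ((1 + 2 * j : ℕ) : ℤ) p')) =
        qd ρ (run ρ k j (run ρ 1 0 p)) (run ρ k j (run ρ 1 0 p')) +
          qd ρ (run ρ k j (run ρ 1 (1 - 0) p)) (run ρ k j (run ρ 1 (1 - 0) p')) := by
      intro j _
      have e1 : ((2 * j : ℕ) : ℤ) = 0 + 2 ^ 1 * (j : ℤ) := by push_cast; ring
      have e2 : ((1 + 2 * j : ℕ) : ℤ) = (1 - 0) + 2 ^ 1 * (j : ℤ) := by push_cast; ring
      rw [e1, e2, Nat.add_comm k 1, run_add hρ, run_add hρ, run_add hρ, run_add hρ]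
    rw [sum_congr rfl h1, sum_add_distrib]
    have h2 := ih (run ρ 1 0 p) (run ρ 1 0 p')
    have h3 := ih (run ρ 1 (1 - 0) p) (run ρ 1 (1 - 0) p')
    have h4 := qd_two hρ (w := 1 / 2) (by norm_num) (by norm_num) 0 p p'
    have hp : (0 : ℝ) < 2 ^ k := by positivity
    have hq : (0 : ℝ) < (98 / 100) ^ k := by positivity
    have h5 : (98 / 100 : ℝ) ^ k * (qd ρ (run ρ 1 0 p) (run ρ 1 0 p') +
        qd ρ (run ρ 1 (1 - 0) p) (run ρ 1 (1 - 0) p')) ≤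
        (98 / 100 : ℝ) ^ k * (2 * (98 / 100 * qd ρ p p' + 64 / 100)) :=
      mul_le_mul_of_nonneg_left (by linarith) hq.le
    calc _ ≤ 2 ^ k * ((98 / 100) ^ k * qd ρ (run ρ 1 0 p) (run ρ 1 0 p') + 32 * (1 - (98 / 100) ^ k)) +
          2 ^ k * ((98 / 100) ^ k * qd ρ (run ρ 1 (1 - 0) p) (run ρ 1 (1 - 0) p') +
            32 * (1 - (98 / 100) ^ k)) := add_le_add h2 h3
      _ = 2 ^ k * ((98 / 100 : ℝ) ^ k * (qd ρ (run ρ 1 0 p) (run ρ 1 0 p') +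
        qd ρ (run ρ 1 (1 - 0) p) (run ρ 1 (1 - 0) p')) + 64 * (1 - (98 / 100) ^ k)) := by ring
      _ ≤ 2 ^ k * ((98 / 100 : ℝ) ^ k * (2 * (98 / 100 * qd ρ p p' + 64 / 100)) +
          64 * (1 - (98 / 100) ^ k)) := mul_le_mul_of_nonneg_left (by linarith) hp.le
      _ = _ := by ring

/-- The mean over `k` digits. -/
theorem qd_avg (hρ : Odd ρ) (k : ℕ) (p p' : ℕ × ℤ) :
    ∑ j ∈ range (2 ^ k), qd ρ (run ρ k j p) (run ρ k j p') ≤ 2 ^ k * (qd ρ p p' + 32) := by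
  refine (qd_avg' hρ k p p').trans (mul_le_mul_of_nonneg_left ?_ (by positivity))
  have h1 : (98 / 100 : ℝ) ^ k ≤ 1 := pow_le_one₀ (by norm_num) (by norm_num)
  have h2 : (0 : ℝ) < (98 / 100) ^ k := by positivity
  have h3 := qd_nonneg (ρ := ρ) p p'
  nlinarith

/-- The sum over an image. -/
theorem sum_image_le' {f : ℕ × ℤ → ℕ × ℤ} {g : ℕ × ℤ → ℝ} (hg : ∀ p, 0 ≤ g p) (P : Finset (ℕ × ℤ)) :
    ∑ q ∈ P.image f, g q ≤ ∑ p ∈ P, g (f p) := by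
  rw [← sum_fiberwise_of_maps_to (g := f) (t := P.image f) (fun p hp => mem_image_of_mem f hp)]
  refine sum_le_sum fun q hq => ?_
  obtain ⟨p, hp, rfl⟩ := mem_image.1 hq
  have h1 : g (f p) ≤ ∑ p' ∈ P.filter (fun p' => f p' = f p), g (f p') :=
    single_le_sum (f := fun p' => g (f p')) (fun p' _ => hg _) (mem_filter.2 ⟨hp, rfl⟩)
  exact h1

theorem QQ_image (f : ℕ × ℤ → ℕ × ℤ) (P : Finset (ℕ × ℤ)) :
    QQ ρ (P.image f) ≤ ∑ p ∈ P, ∑ p' ∈ P, qd ρ (f p) (f p') := by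
  unfold QQ
  refine (sum_image_le' (g := fun q => ∑ q' ∈ P.image f, qd ρ q q')
    (fun q => sum_nonneg fun q' _ => qd_nonneg q q') P).trans ?_
  refine sum_le_sum fun p _ => ?_
  exact sum_image_le' (g := fun q' => qd ρ (f p) q') (fun q' => qd_nonneg _ q') P

/-- The mean of `QQ` over `k` digits. -/
theorem QQ_avg (hρ : Odd ρ) (k : ℕ) (P : Finset (ℕ × ℤ)) :
    ∑ j ∈ range (2 ^ k), QQ ρ (P.image (run ρ k (j : ℕ))) ≤ 2 ^ k * (QQ ρ P + 32 * (P.card : ℝ) ^ 2) := by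
  calc ∑ j ∈ range (2 ^ k), QQ ρ (P.image (run ρ k (j : ℕ)))
      ≤ ∑ j ∈ range (2 ^ k), ∑ p ∈ P, ∑ p' ∈ P, qd ρ (run ρ k (j : ℕ) p) (run ρ k (j : ℕ) p') :=
        sum_le_sum fun j _ => QQ_image _ P
    _ = ∑ p ∈ P, ∑ p' ∈ P, ∑ j ∈ range (2 ^ k), qd ρ (run ρ k (j : ℕ) p) (run ρ k (j : ℕ) p') := by
        rw [sum_comm]
        refine sum_congr rfl fun p _ => ?_
        rw [sum_comm]
    _ ≤ ∑ p ∈ P, ∑ p' ∈ P, 2 ^ k * (qd ρ p p' + 32) :=
        sum_le_sum fun p _ => sum_le_sum fun p' _ => qd_avg hρ k p p'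
    _ = 2 ^ k * (QQ ρ P + 32 * (P.card : ℝ) ^ 2) := by
        unfold QQ
        simp only [← mul_sum, sum_add_distrib, sum_const, nsmul_eq_mul]
        ring

/-- `QQ` after one step with the weights `w`, `1 - w`. -/
theorem QQ_two (hρ : Odd ρ) {w : ℝ} (hw : 49 / 100 ≤ w) (hw' : w ≤ 51 / 100) (b : ℤ)
    (P : Finset (ℕ × ℤ)) :
    w * QQ ρ (P.image (run ρ 1 b)) + (1 - w) * QQ ρ (P.image (run ρ 1 (1 - b))) ≤
      98 / 100 * QQ ρ P + 64 / 100 * (P.card : ℝ) ^ 2 := by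
  have h1 := mul_le_mul_of_nonneg_left (QQ_image (ρ := ρ) (run ρ 1 b) P) (show (0 : ℝ) ≤ w by linarith)
  have h2 := mul_le_mul_of_nonneg_left (QQ_image (ρ := ρ) (run ρ 1 (1 - b)) P)
    (show (0 : ℝ) ≤ 1 - w by linarith)
  refine (add_le_add h1 h2).trans ?_
  rw [mul_sum, mul_sum, ← sum_add_distrib]
  have h3 : ∀ p ∈ P, w * ∑ p' ∈ P, qd ρ (run ρ 1 b p) (run ρ 1 b p') +
      (1 - w) * ∑ p' ∈ P, qd ρ (run ρ 1 (1 - b) p) (run ρ 1 (1 - b) p') ≤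
      ∑ p' ∈ P, (98 / 100 * qd ρ p p' + 64 / 100) := by
    intro p _
    rw [mul_sum, mul_sum, ← sum_add_distrib]
    exact sum_le_sum fun p' _ => qd_two hρ hw hw' b p p'
  refine (sum_le_sum h3).trans (le_of_eq ?_)
  unfold QQ
  simp only [← mul_sum, sum_add_distrib, sum_const, nsmul_eq_mul]
  ring

/-- The state of two particles of the same level. -/
theorem qd_same {κ : ℕ} {y β : ℤ} (hρ : Odd ρ) :
    qd ρ (κ, y) (κ, y + ρ * β) = Real.sqrt |(β : ℝ)| := by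
  have hρ0 : (0 : ℝ) < |(ρ : ℝ)| := by
    rw [abs_pos]
    intro h0
    have : ρ = 0 := by exact_mod_cast h0
    rw [this] at hρ
    exact absurd hρ (by decide)
  unfold qd
  congr 1
  simp only [min_self]
  push_cast
  have e : (y : ℝ) / 3 ^ κ - (y + ρ * β) / 3 ^ κ = -(ρ * β / 3 ^ κ) := by ring
  rw [e, abs_neg, abs_div, abs_mul, abs_of_pos (show (0 : ℝ) < 3 ^ κ by positivity)]
  field_simp

end Pool.Agent.Helper85.PW
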