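import Pool.Agent.Helper85.PW.S3

/-!
# Block S4: the smooth maximum of the potentials

`S = ∑_{p ∈ P} exp (θ X (st p p₀)) = 1 + R`. Case C: `p₀` even with weight `51 / 100`, all others below `p₀`.
-/

set_option autoImplicit false

namespace Pool.Agent.Helper85.PW

open Pool.Agent.Helper68.Moeller Pool.Agent.Helper8.CO Pool.Agent.Helper8.PW Finset Classical

variable {ρ : ℤ} {X : ℕ × ℤ → ℝ} {κ C : ℝ}

theorem nx0_fst_le (x : ℕ × ℤ) : (nx0 x).1 ≤ x.1 + 1 := by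
  unfold nx0
  split_ifs
  · exact Nat.le_succ _
  · exact le_refl _

theorem nx1_fst_le (x : ℕ × ℤ) : (nx1 x).1 ≤ x.1 + 1 := by
  unfold nx1
  split_ifs with h1 h2
  · exact Nat.le_succ _
  · change 1 ≤ x.1 + 1
    omega
  · change x.1 - 1 ≤ x.1 + 1
    omega

theorem nx0_fst_ge (x : ℕ × ℤ) : x.1 ≤ (nx0 x).1 + 1 := by
  unfold nx0
  split_ifs
  · exact Nat.le_succ _
  · change x.1 ≤ x.1 + 1 + 1
    omega

theorem nx1_fst_ge (x : ℕ × ℤ) : x.1 ≤ (nx1 x).1 + 1 := by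
  unfold nx1
  split_ifs with h1 h2
  · exact Nat.le_succ _
  · change x.1 ≤ 1 + 1
    omega
  · change x.1 ≤ x.1 - 1 + 1
    omega

theorem GoodX.diff (hX : GoodX X κ C) {s s' : ℕ × ℤ} {M : ℕ} (hs : s.1 ≤ M) (h1 : s'.1 ≤ s.1 + 1)
    (h2 : s.1 ≤ s'.1 + 1) : |X s' - X s| ≤ 2 * C * Real.log (M + 5) := by
  obtain ⟨-, hC, -, -, -, -, h6⟩ := hX
  have h3 := h6 s s' 1 h1
  have h4 := h6 s' s 1 h2
  have e1 : Real.log ((s.1 : ℝ) + (1 : ℕ) + 3) ≤ Real.log (M + 5) := by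
    refine Real.log_le_log (by positivity) ?_
    have : (s.1 : ℝ) ≤ M := by exact_mod_cast hs
    push_cast
    linarith
  have e2 : Real.log ((s'.1 : ℝ) + (1 : ℕ) + 3) ≤ Real.log (M + 5) := by
    refine Real.log_le_log (by positivity) ?_
    have : (s'.1 : ℝ) ≤ s.1 + 1 := by exact_mod_cast h1
    have : (s.1 : ℝ) ≤ M := by exact_mod_cast hs
    push_cast
    linarith
  have hC0 : 0 ≤ C * 2 := by linarith
  have e3 := mul_le_mul_of_nonneg_left e1 hC0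
  have e4 := mul_le_mul_of_nonneg_left e2 hC0
  push_cast at h3 h4 e3 e4
  rw [abs_le]
  constructor <;> linarith

/-- The exponential of the potential decreases in the mean. -/
theorem GoodX.exp (hX : GoodX X κ C) {θ : ℝ} (hθ : 0 < θ) {M : ℕ}
    (h1 : θ * (2 * C * Real.log (M + 5)) ≤ 1) (h2 : θ * (2 * C * Real.log (M + 5)) ^ 2 ≤ κ / 2)
    {s : ℕ × ℤ} (hs : s.1 ≤ M) (hs0 : s.1 ≠ 0) :
    avb (fun s => Real.exp (θ * X s)) s ≤ (1 - θ * κ / 2) * Real.exp (θ * X s) := by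
  obtain ⟨L, hL⟩ : ∃ L, L = 2 * C * Real.log (M + 5) := ⟨_, rfl⟩
  rw [← hL] at h1 h2
  have hd0 := hX.diff hs (nx0_fst_le s) (nx0_fst_ge s)
  have hd1 := hX.diff hs (nx1_fst_le s) (nx1_fst_ge s)
  rw [← hL] at hd0 hd1
  have key : ∀ s' : ℕ × ℤ, |X s' - X s| ≤ L →
      Real.exp (θ * X s') ≤ (1 + θ * (X s' - X s) + θ ^ 2 * L ^ 2) * Real.exp (θ * X s) := by
    intro s' h
    have e1 : |θ * (X s' - X s)| ≤ 1 := by
      rw [abs_mul, abs_of_pos hθ]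
      exact (mul_le_mul_of_nonneg_left h hθ.le).trans h1
    have e2 := (abs_le.1 (Real.abs_exp_sub_one_sub_id_le e1)).2
    have e3 : (θ * (X s' - X s)) ^ 2 ≤ θ ^ 2 * L ^ 2 := by
      rw [mul_pow]
      refine mul_le_mul_of_nonneg_left ?_ (by positivity)
      rw [← sq_abs]
      exact pow_le_pow_left₀ (abs_nonneg _) h 2
    have e4 : Real.exp (θ * X s') = Real.exp (θ * (X s' - X s)) * Real.exp (θ * X s) := by
      rw [← Real.exp_add]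
      congr 1
      ring
    rw [e4]
    refine mul_le_mul_of_nonneg_right ?_ (Real.exp_pos _).le
    linarith
  have k0 := key _ hd0
  have k1 := key _ hd1
  have h5 := hX.2.2.2.2.1 s hs0
  have hE := Real.exp_pos (θ * X s)
  obtain ⟨E, hEd⟩ : ∃ E, E = Real.exp (θ * X s) := ⟨_, rfl⟩
  rw [← hEd] at k0 k1 hE ⊢
  have h6 : θ ^ 2 * L ^ 2 ≤ θ * κ / 2 := by
    have := mul_le_mul_of_nonneg_left h2 hθ.le
    nlinarith
  unfold avb at h5 ⊢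
  by_cases hev : Even s.2
  · rw [if_pos hev] at h5 ⊢
    simp only
    have h7 : (51 * (1 + θ * (X (nx0 s) - X s) + θ ^ 2 * L ^ 2) +
        49 * (1 + θ * (X (nx1 s) - X s) + θ ^ 2 * L ^ 2)) / 100 ≤ 1 - θ * κ / 2 := by
      have h8 := mul_le_mul_of_nonneg_left h5 hθ.le
      nlinarith
    calc (51 * Real.exp (θ * X (nx0 s)) + 49 * Real.exp (θ * X (nx1 s))) / 100
        ≤ (51 * ((1 + θ * (X (nx0 s) - X s) + θ ^ 2 * L ^ 2) * E) +
          49 * ((1 + θ * (X (nx1 s) - X s) + θ ^ 2 * L ^ 2) * E)) / 100 := by linarith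
      _ = (51 * (1 + θ * (X (nx0 s) - X s) + θ ^ 2 * L ^ 2) +
        49 * (1 + θ * (X (nx1 s) - X s) + θ ^ 2 * L ^ 2)) / 100 * E := by ring
      _ ≤ _ := mul_le_mul_of_nonneg_right h7 hE.le
  · rw [if_neg hev] at h5 ⊢
    simp only
    have h7 : (49 * (1 + θ * (X (nx0 s) - X s) + θ ^ 2 * L ^ 2) +
        51 * (1 + θ * (X (nx1 s) - X s) + θ ^ 2 * L ^ 2)) / 100 ≤ 1 - θ * κ / 2 := by
      have h8 := mul_le_mul_of_nonneg_left h5 hθ.le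
      nlinarith
    calc (49 * Real.exp (θ * X (nx0 s)) + 51 * Real.exp (θ * X (nx1 s))) / 100
        ≤ (49 * ((1 + θ * (X (nx0 s) - X s) + θ ^ 2 * L ^ 2) * E) +
          51 * ((1 + θ * (X (nx1 s) - X s) + θ ^ 2 * L ^ 2) * E)) / 100 := by linarith
      _ = (49 * (1 + θ * (X (nx0 s) - X s) + θ ^ 2 * L ^ 2) +
        51 * (1 + θ * (X (nx1 s) - X s) + θ ^ 2 * L ^ 2)) / 100 * E := by ring
      _ ≤ _ := mul_le_mul_of_nonneg_right h7 hE.le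

/-- The two successors of a pair, if the higher particle is even for the digit `b`. -/
theorem pair_avb (hρ : Odd ρ) {p p₀ : ℕ × ℤ} (hlt : p.1 < p₀.1)
    (hd : ρ ∣ p₀.2 - 3 ^ (p₀.1 - p.1) * p.2) {b : ℤ} (hb : Even (p₀.2 + 3 ^ p₀.1 * b))
    (f : ℕ × ℤ → ℝ) :
    (51 * f (st ρ (run ρ 1 b p) (run ρ 1 b p₀)) +
      49 * f (st ρ (run ρ 1 (1 - b) p) (run ρ 1 (1 - b) p₀))) / 100 = avb f (st ρ p p₀) ∧
    (run ρ 1 b p).1 ≤ (run ρ 1 b p₀).1 ∧ (run ρ 1 (1 - b) p).1 ≤ (run ρ 1 (1 - b) p₀).1 := by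
  obtain ⟨c, β, hp₀⟩ := exists_st hlt.le hd
  obtain ⟨κ', y⟩ := p
  simp only at hp₀ hlt
  subst hp₀
  simp only at hb hlt
  have hc : c ≠ 0 := by omega
  have hb' : ¬ Even (3 ^ c * y + ρ * β + 3 ^ (κ' + c) * (1 - b)) := by
    have := even_or_even (κ' + c, 3 ^ c * y + ρ * β) b
    simp only at this
    rw [this, not_not]
    exact hb
  rw [even_higher hρ] at hb hb'
  rw [st_eq hρ]
  unfold avb
  by_cases hβ : Even β
  · have h1 : Even (y + 3 ^ κ' * b) := hb.2 hβ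
    have h2 : ¬ Even (y + 3 ^ κ' * (1 - b)) := fun h => hb' ⟨fun _ => hβ, fun _ => h⟩
    obtain ⟨e1, l1⟩ := st_run_even hρ (c := c) (β := β) h1
    obtain ⟨e2, l2⟩ := st_run_odd hρ (c := c) (β := β) h2 (Or.inl hc)
    rw [e1, e2, if_pos hβ]
    exact ⟨rfl, l1, l2⟩
  · have h1 : ¬ Even (y + 3 ^ κ' * b) := fun h => hβ (hb.1 h)
    have h2 : Even (y + 3 ^ κ' * (1 - b)) := by
      by_contra h
      exact hb' ⟨fun h' => absurd h' h, fun h' => absurd h' hβ⟩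
    obtain ⟨e1, l1⟩ := st_run_odd hρ (c := c) (β := β) h1 (Or.inl hc)
    obtain ⟨e2, l2⟩ := st_run_even hρ (c := c) (β := β) h2
    rw [e1, e2, if_neg hβ]
    refine ⟨?_, l1, l2⟩
    ring

theorem st_self (p : ℕ × ℤ) : st ρ p p = (0, 0) := by
  unfold st
  simp

/-- The sum of the exponentials. -/
noncomputable def SE (ρ : ℤ) (X : ℕ × ℤ → ℝ) (θ : ℝ) (P : Finset (ℕ × ℤ)) (p₀ : ℕ × ℤ) : ℝ :=
  ∑ p ∈ P, Real.exp (θ * X (st ρ p p₀))

theorem VV_eq (θ : ℝ) (P : Finset (ℕ × ℤ)) (p₀ : ℕ × ℤ) :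
    VV ρ X θ P p₀ = 1 / θ * Real.log (SE ρ X θ P p₀) := rfl

theorem SE_ge_one (hX : GoodX X κ C) {θ : ℝ} {P : Finset (ℕ × ℤ)} {p₀ : ℕ × ℤ}
    (hp₀ : p₀ ∈ P) : 1 ≤ SE ρ X θ P p₀ := by
  have h1 : Real.exp (θ * X (st ρ p₀ p₀)) ≤ SE ρ X θ P p₀ :=
    single_le_sum (f := fun p => Real.exp (θ * X (st ρ p p₀))) (fun p _ => (Real.exp_pos _).le) hp₀
  rw [st_self, hX.2.2.2.1 0, mul_zero, Real.exp_zero] at h1
  exact h1

theorem VV_nonneg (hX : GoodX X κ C) {θ : ℝ} (hθ : 0 < θ) {P : Finset (ℕ × ℤ)} {p₀ : ℕ × ℤ}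
    (hp₀ : p₀ ∈ P) : 0 ≤ VV ρ X θ P p₀ := by
  rw [VV_eq]
  exact mul_nonneg (by positivity) (Real.log_nonneg (SE_ge_one hX hp₀))

theorem caseC (hρ : Odd ρ) (hX : GoodX X κ C) {θ : ℝ} (hθ : 0 < θ) {M : ℕ}
    (h1 : θ * (2 * C * Real.log (M + 5)) ≤ 1) (h2 : θ * (2 * C * Real.log (M + 5)) ^ 2 ≤ κ / 2)
    {P : Finset (ℕ × ℤ)} {p₀ : ℕ × ℤ} (hT : Top ρ P p₀) (hM : p₀.1 ≤ M)
    (hlow : ∀ p ∈ P, p ≠ p₀ → p.1 < p₀.1) (hcard : 2 ≤ P.card) :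
    ∃ b : ℤ, (51 * VV ρ X θ (P.image (run ρ 1 b)) (run ρ 1 b p₀) +
        49 * VV ρ X θ (P.image (run ρ 1 (1 - b))) (run ρ 1 (1 - b) p₀)) / 100 ≤ VV ρ X θ P p₀ - κ / 4 ∧
      Top ρ (P.image (run ρ 1 b)) (run ρ 1 b p₀) ∧
      Top ρ (P.image (run ρ 1 (1 - b))) (run ρ 1 (1 - b) p₀) := by
  obtain ⟨hCg, hp₀, htop⟩ := hT
  have hκ : 0 < κ := hX.1
  obtain ⟨b, hb⟩ : ∃ b : ℤ, Even (p₀.2 + 3 ^ p₀.1 * b) := by
    by_cases h : Even (p₀.2 + 3 ^ p₀.1 * 0)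
    · exact ⟨0, h⟩
    · exact ⟨1 - 0, (even_or_even p₀ 0).2 h⟩
  have hpair : ∀ p ∈ P, p ≠ p₀ → ∀ f : ℕ × ℤ → ℝ,
      (51 * f (st ρ (run ρ 1 b p) (run ρ 1 b p₀)) +
        49 * f (st ρ (run ρ 1 (1 - b) p) (run ρ 1 (1 - b) p₀))) / 100 = avb f (st ρ p p₀) ∧
      (run ρ 1 b p).1 ≤ (run ρ 1 b p₀).1 ∧ (run ρ 1 (1 - b) p).1 ≤ (run ρ 1 (1 - b) p₀).1 :=
    fun p hp hne f => pair_avb hρ (hlow p hp hne) (dvd_of_Cg hCg hp hp₀ (hlow p hp hne).le) hb f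
  have htop' : ∀ b' : ℤ, b' = b ∨ b' = 1 - b →
      Top ρ (P.image (run ρ 1 b')) (run ρ 1 b' p₀) := by
    intro b' hb'
    refine ⟨Cg_run hρ 1 b' hCg, mem_image_of_mem _ hp₀, ?_⟩
    intro q hq
    obtain ⟨p, hp, rfl⟩ := mem_image.1 hq
    by_cases hne : p = p₀
    · rw [hne]
    · obtain ⟨-, l1, l2⟩ := hpair p hp hne (fun _ => 0)
      rcases hb' with rfl | rfl
      · exact l1
      · exact l2
  refine ⟨b, ?_, htop' b (Or.inl rfl), htop' (1 - b) (Or.inr rfl)⟩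
  -- the sums
  obtain ⟨R, hR⟩ : ∃ R, R = ∑ p ∈ P.erase p₀, Real.exp (θ * X (st ρ p p₀)) := ⟨_, rfl⟩
  have hS : SE ρ X θ P p₀ = 1 + R := by
    unfold SE
    rw [← add_sum_erase P _ hp₀, st_self, hX.2.2.2.1 0, mul_zero, Real.exp_zero, hR]
  have hR1 : 1 ≤ R := by
    have hc : 1 ≤ (P.erase p₀).card := by
      rw [card_erase_of_mem hp₀]
      omega
    have e1 : ((P.erase p₀).card : ℝ) ≤ R := by
      rw [hR]
      have : ((P.erase p₀).card : ℝ) = ∑ _p ∈ P.erase p₀, (1 : ℝ) := by simp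
      rw [this]
      refine sum_le_sum fun p _ => ?_
      rw [← Real.exp_zero]
      exact Real.exp_le_exp.2 (mul_nonneg hθ.le (hX.2.2.1 _))
    have e2 : (1 : ℝ) ≤ ((P.erase p₀).card : ℝ) := by exact_mod_cast hc
    linarith
  have hSb : ∀ b' : ℤ, SE ρ X θ (P.image (run ρ 1 b')) (run ρ 1 b' p₀) ≤
      1 + ∑ p ∈ P.erase p₀, Real.exp (θ * X (st ρ (run ρ 1 b' p) (run ρ 1 b' p₀))) := by
    intro b'
    unfold SE
    refine (sum_image_le' (g := fun q => Real.exp (θ * X (st ρ q (run ρ 1 b' p₀))))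
      (fun q => (Real.exp_pos _).le) P).trans (le_of_eq ?_)
    rw [← add_sum_erase P _ hp₀, st_self, hX.2.2.2.1 0, mul_zero, Real.exp_zero]
  have hsum : (51 * SE ρ X θ (P.image (run ρ 1 b)) (run ρ 1 b p₀) +
      49 * SE ρ X θ (P.image (run ρ 1 (1 - b))) (run ρ 1 (1 - b) p₀)) / 100 ≤
      (1 - θ * κ / 4) * SE ρ X θ P p₀ := by
    have e1 := hSb b
    have e2 := hSb (1 - b)
    have e3 : (51 * ∑ p ∈ P.erase p₀, Real.exp (θ * X (st ρ (run ρ 1 b p) (run ρ 1 b p₀))) +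
        49 * ∑ p ∈ P.erase p₀, Real.exp (θ * X (st ρ (run ρ 1 (1 - b) p) (run ρ 1 (1 - b) p₀)))) / 100 ≤
        (1 - θ * κ / 2) * R := by
      rw [hR, mul_sum, mul_sum, ← sum_add_distrib, sum_div, mul_sum]
      refine sum_le_sum fun p hp => ?_
      obtain ⟨hne, hpP⟩ := mem_erase.1 hp
      have e4 := (hpair p hpP hne (fun s => Real.exp (θ * X s))).1
      rw [e4]
      have hlt := hlow p hpP hne
      refine hX.exp hθ h1 h2 ?_ ?_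
      · change p₀.1 - p.1 ≤ M
        omega
      · change p₀.1 - p.1 ≠ 0
        omega
    rw [hS]
    nlinarith [mul_pos hθ hκ]
  have hS1 := SE_ge_one (ρ := ρ) (θ := θ) hX hp₀
  have hSb1 := SE_ge_one (ρ := ρ) (θ := θ) hX (mem_image_of_mem (run ρ 1 b) hp₀)
  have hSb2 := SE_ge_one (ρ := ρ) (θ := θ) hX (mem_image_of_mem (run ρ 1 (1 - b)) hp₀)
  rw [VV_eq, VV_eq, VV_eq]
  obtain ⟨S, hSd⟩ : ∃ S, S = SE ρ X θ P p₀ := ⟨_, rfl⟩
  obtain ⟨S₁, hS₁d⟩ : ∃ S₁, S₁ = SE ρ X θ (P.image (run ρ 1 b)) (run ρ 1 b p₀) := ⟨_, rfl⟩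
  obtain ⟨S₂, hS₂d⟩ : ∃ S₂, S₂ = SE ρ X θ (P.image (run ρ 1 (1 - b))) (run ρ 1 (1 - b) p₀) := ⟨_, rfl⟩
  rw [← hSd, ← hS₁d, ← hS₂d] at hsum
  rw [← hSd] at hS1 ⊢
  rw [← hS₁d] at hSb1 ⊢
  rw [← hS₂d] at hSb2 ⊢
  have hlog : (51 * Real.log S₁ + 49 * Real.log S₂) / 100 ≤ Real.log ((51 * S₁ + 49 * S₂) / 100) := by
    have hcv := strictConcaveOn_log_Ioi.concaveOn.2 (Set.mem_Ioi.2 (lt_of_lt_of_le one_pos hSb1))
      (Set.mem_Ioi.2 (lt_of_lt_of_le one_pos hSb2)) (show (0 : ℝ) ≤ 51 / 100 by norm_num)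
      (show (0 : ℝ) ≤ 49 / 100 by norm_num) (by norm_num)
    simp only [smul_eq_mul] at hcv
    calc (51 * Real.log S₁ + 49 * Real.log S₂) / 100 =
          51 / 100 * Real.log S₁ + 49 / 100 * Real.log S₂ := by ring
      _ ≤ Real.log (51 / 100 * S₁ + 49 / 100 * S₂) := hcv
      _ = _ := by congr 1; ring
  have hpos : (0 : ℝ) < (51 * S₁ + 49 * S₂) / 100 := by linarith
  have hS0 : 0 < S := by linarith
  have hq : 0 < 1 - θ * κ / 4 := by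
    by_contra hcon
    push Not at hcon
    have := mul_le_mul_of_nonneg_right hcon hS0.le
    linarith
  have hlog2 : Real.log ((51 * S₁ + 49 * S₂) / 100) ≤ Real.log S - θ * κ / 4 := by
    refine (Real.log_le_log hpos hsum).trans ?_
    rw [Real.log_mul hq.ne' hS0.ne']
    have := Real.log_le_sub_one_of_pos hq
    linarith
  have hfin := mul_le_mul_of_nonneg_left (hlog.trans hlog2) (show (0 : ℝ) ≤ 1 / θ by positivity)
  have e5 : 1 / θ * (Real.log S - θ * κ / 4) = 1 / θ * Real.log S - κ / 4 := by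
    field_simp
  rw [e5] at hfin
  calc _ = 1 / θ * ((51 * Real.log S₁ + 49 * Real.log S₂) / 100) := by ring
    _ ≤ _ := hfin

/-- A new particle of the highest level, after `k` steps. -/
theorem VV_run (hX : GoodX X κ C) {θ : ℝ} (hθ : 0 < θ) {M : ℕ} {P : Finset (ℕ × ℤ)}
    {p₀ : ℕ × ℤ} (hT : Top ρ P p₀) (hM : p₀.1 ≤ M) (k : ℕ) (j : ℤ) {p₁ : ℕ × ℤ}
    (hp₁ : p₁ ∈ P.image (run ρ k j)) :
    VV ρ X θ (P.image (run ρ k j)) p₁ ≤ VV ρ X θ P p₀ + C * (k + 1) * Real.log (M + k + 3) := by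
  obtain ⟨-, hp₀, htop⟩ := hT
  obtain ⟨p₂, hp₂, rfl⟩ := mem_image.1 hp₁
  obtain ⟨B, hB⟩ : ∃ B, B = C * (k + 1) * Real.log ((M : ℝ) + k + 3) := ⟨_, rfl⟩
  rw [← hB]
  have hC : 1 ≤ C := hX.2.1
  have h1 : SE ρ X θ (P.image (run ρ k j)) (run ρ k j p₂) ≤ Real.exp (θ * B) * SE ρ X θ P p₀ := by
    unfold SE
    refine (sum_image_le' (g := fun q => Real.exp (θ * X (st ρ q (run ρ k j p₂))))
      (fun q => (Real.exp_pos _).le) P).trans ?_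
    rw [mul_sum]
    refine sum_le_sum fun p hp => ?_
    rw [← Real.exp_add]
    refine Real.exp_le_exp.2 ?_
    rw [← mul_add]
    refine mul_le_mul_of_nonneg_left ?_ hθ.le
    have h2 : (st ρ (run ρ k j p) (run ρ k j p₂)).1 ≤ (st ρ p p₀).1 + k := by
      change (run ρ k j p₂).1 - (run ρ k j p).1 ≤ p₀.1 - p.1 + k
      have e1 := run_fst_le (ρ := ρ) k j p₂
      have e2 := run_fst_ge (ρ := ρ) k j p
      have e3 := htop p₂ hp₂
      have e4 := htop p hp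
      omega
    have h3 := hX.2.2.2.2.2.2 _ _ _ h2
    have h4 : Real.log (((st ρ p p₀).1 : ℝ) + k + 3) ≤ Real.log ((M : ℝ) + k + 3) := by
      refine Real.log_le_log (by positivity) ?_
      have : (st ρ p p₀).1 ≤ M := by
        change p₀.1 - p.1 ≤ M
        omega
      have : (((st ρ p p₀).1 : ℕ) : ℝ) ≤ M := by exact_mod_cast this
      linarith
    have h5 := mul_le_mul_of_nonneg_left h4 (show (0 : ℝ) ≤ C * (k + 1) by positivity)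
    rw [hB]
    linarith
  have h2 := SE_ge_one (ρ := ρ) (θ := θ) hX hp₀
  have h3 := SE_ge_one (ρ := ρ) (θ := θ) hX hp₁
  rw [VV_eq, VV_eq]
  have h4 : Real.log (SE ρ X θ (P.image (run ρ k j)) (run ρ k j p₂)) ≤
      θ * B + Real.log (SE ρ X θ P p₀) := by
    refine (Real.log_le_log (by linarith) h1).trans (le_of_eq ?_)
    rw [Real.log_mul (Real.exp_pos _).ne' (by linarith), Real.log_exp]
  have h5 := mul_le_mul_of_nonneg_left h4 (show (0 : ℝ) ≤ 1 / θ by positivity)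
  refine h5.trans (le_of_eq ?_)
  field_simp
  ring

/-- There is a particle of the highest level. -/
theorem exists_top (hρ : Odd ρ) {P : Finset (ℕ × ℤ)} {p₀ : ℕ × ℤ} (hT : Top ρ P p₀) (k : ℕ) (j : ℤ) :
    ∃ p₁, Top ρ (P.image (run ρ k j)) p₁ ∧ p₁.1 ≤ p₀.1 + k := by
  obtain ⟨hCg, hp₀, htop⟩ := hT
  obtain ⟨p₁, hp₁, h⟩ := exists_max_image (P.image (run ρ k j)) Prod.fst ⟨_, mem_image_of_mem _ hp₀⟩
  refine ⟨p₁, ⟨Cg_run hρ k j hCg, hp₁, h⟩, ?_⟩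
  obtain ⟨p₂, hp₂, rfl⟩ := mem_image.1 hp₁
  have e1 := run_fst_le (ρ := ρ) k j p₂
  have e3 := htop p₂ hp₂
  omega

end Pool.Agent.Helper85.PW
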