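import Pool.Agent.Helper85.PW.S4

/-!
# Blocks S5, S7: merging of two particles of the highest level; the induction
-/

set_option autoImplicit false

namespace Pool.Agent.Helper85.PW

open Pool.Agent.Helper68.Moeller Pool.Agent.Helper8.CO Pool.Agent.Helper8.PW Finset Classical

variable {ρ : ℤ} {X : ℕ × ℤ → ℝ} {κ C : ℝ}

/-- Case B: the mean number of the particles after `k` steps. -/
theorem caseB_card (hρ : Odd ρ) {P : Finset (ℕ × ℤ)} (hCg : Cg ρ P) {p p₀ : ℕ × ℤ} (hp : p ∈ P)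
    (hp₀ : p₀ ∈ P) (hne : p ≠ p₀) (hlev : p.1 = p₀.1) {k : ℕ} {Θ : ℝ}
    (hu : ∀ β : ℤ, Real.sqrt |(β : ℝ)| ≤ Θ → uu k (0, β) ≤ 1 / 2) (hq : qd ρ p₀ p ≤ Θ) :
    ∑ j ∈ range (2 ^ k), ((P.image (run ρ k (j : ℕ))).card : ℝ) ≤ 2 ^ k * ((P.card : ℝ) - 1 / 2) := by
  obtain ⟨c, β, hpe⟩ := exists_st (ρ := ρ) (p := p₀) (p' := p) hlev.ge (dvd_of_Cg hCg hp₀ hp hlev.ge)
  have hc : c = 0 := by
    have := congrArg Prod.fst hpe
    simp only at this
    omega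
  subst hc
  obtain ⟨l, y⟩ := p₀
  simp only [add_zero, pow_zero, one_mul] at hpe
  subst hpe
  have hβ : uu k (0, β) ≤ 1 / 2 := by
    refine hu β ?_
    rw [qd_same hρ] at hq
    exact hq
  have hbad := pair_count hρ k 0 l y β
  obtain ⟨B, hB⟩ : ∃ B, B = (range (2 ^ k)).filter (fun j : ℕ =>
    ¬ MM ρ k 0 (y + 3 ^ l * j) (3 ^ 0 * (y + 3 ^ l * j) + ρ * β)) := ⟨_, rfl⟩
  rw [← hB] at hbad
  have hgood : ∀ j ∈ range (2 ^ k), j ∉ B →
      ((P.image (run ρ k (j : ℕ))).card : ℝ) ≤ (P.card : ℝ) - 1 := by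
    intro j hj hjB
    have hMM : MM ρ k 0 (y + 3 ^ l * j) (3 ^ 0 * (y + 3 ^ l * j) + ρ * β) := by
      by_contra hcon
      exact hjB (by rw [hB]; exact mem_filter.2 ⟨hj, hcon⟩)
    obtain ⟨m1, m2⟩ := hMM
    have e : 3 ^ 0 * (y + 3 ^ l * (j : ℤ)) + ρ * β = y + ρ * β + 3 ^ l * j := by ring
    rw [e] at m1 m2
    have hrun : run ρ k j (l, y) = run ρ k j (l, y + ρ * β) := by
      unfold run
      simp only
      rw [m1, m2, add_zero]
    have himg : P.image (run ρ k (j : ℕ)) = (P.erase (l, y + ρ * β)).image (run ρ k (j : ℕ)) := by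
      apply subset_antisymm
      · intro q hq'
        obtain ⟨p', hp', rfl⟩ := mem_image.1 hq'
        by_cases h : p' = (l, y + ρ * β)
        · rw [h, ← hrun]
          exact mem_image_of_mem _ (mem_erase.2 ⟨fun h' => hne h'.symm, hp₀⟩)
        · exact mem_image_of_mem _ (mem_erase.2 ⟨h, hp'⟩)
      · exact image_subset_image (erase_subset _ _)
    have h1 : (P.image (run ρ k (j : ℕ))).card ≤ P.card - 1 := by
      rw [himg]
      refine card_image_le.trans ?_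
      rw [card_erase_of_mem hp]
    have h2 : 1 ≤ P.card := card_pos.2 ⟨_, hp⟩
    have h3 : (P.image (run ρ k (j : ℕ))).card + 1 ≤ P.card := by omega
    have h4 : ((P.image (run ρ k (j : ℕ))).card : ℝ) + 1 ≤ (P.card : ℝ) := by exact_mod_cast h3
    linarith
  have hall : ∀ j : ℕ, ((P.image (run ρ k (j : ℕ))).card : ℝ) ≤ (P.card : ℝ) := fun j => by
    exact_mod_cast card_image_le
  have hterm : ∀ j ∈ range (2 ^ k), ((P.image (run ρ k (j : ℕ))).card : ℝ) ≤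
      ((P.card : ℝ) - 1) + (if j ∈ B then 1 else 0) := by
    intro j hj
    split_ifs with h
    · linarith [hall j]
    · linarith [hgood j hj h]
  refine (sum_le_sum hterm).trans ?_
  rw [sum_add_distrib, sum_const, card_range, nsmul_eq_mul, ← sum_filter, sum_const, nsmul_eq_mul, mul_one]
  have hBc : (((range (2 ^ k)).filter (fun j => j ∈ B)).card : ℝ) ≤ 2 ^ k * (1 / 2) := by
    have e1 : ((range (2 ^ k)).filter (fun j => j ∈ B)).card ≤ B.card :=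
      card_le_card fun j hj => (mem_filter.1 hj).2
    have e2 : (((range (2 ^ k)).filter (fun j => j ∈ B)).card : ℝ) ≤ (B.card : ℝ) := by exact_mod_cast e1
    have e3 : (2 : ℝ) ^ k * uu k (0, β) ≤ 2 ^ k * (1 / 2) := mul_le_mul_of_nonneg_left hβ (by positivity)
    linarith
  push_cast
  nlinarith

/-- The potential. -/
noncomputable def Psi (ρ : ℤ) (X : ℕ × ℤ → ℝ) (θ m η : ℝ) (P : Finset (ℕ × ℤ)) (p₀ : ℕ × ℤ) : ℝ :=
  VV ρ X θ P p₀ + m * P.card + η * QQ ρ P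

/-- One block of digits decreases the potential. -/
theorem exists_dec (hρ : Odd ρ) (hX : GoodX X κ C) (hκ1 : κ ≤ 1) {θ m η Θ : ℝ} {M k N₀ : ℕ}
    (hθ : 0 < θ) (hm : 0 < m) (hη : 0 < η)
    (h1 : θ * (2 * C * Real.log (M + 5)) ≤ 1) (h2 : θ * (2 * C * Real.log (M + 5)) ^ 2 ≤ κ / 2)
    (h3 : η * (32 * (N₀ : ℝ) ^ 2) ≤ κ) (hk : 1 ≤ k)
    (h4 : C * (k + 1) * Real.log (M + k + 3) + 1 + k ≤ m / 2)
    (h5 : 2 * C * Real.log (M + 5) + 2 ≤ 2 / 100 * (η * Θ))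
    (hu : ∀ β : ℤ, Real.sqrt |(β : ℝ)| ≤ Θ → uu k (0, β) ≤ 1 / 2)
    {P : Finset (ℕ × ℤ)} {p₀ : ℕ × ℤ} (hT : Top ρ P p₀) (hM : p₀.1 ≤ M) (hN : P.card ≤ N₀)
    (hcard : 2 ≤ P.card) :
    ∃ (n : ℕ) (j : ℤ) (p₁ : ℕ × ℤ), 1 ≤ n ∧ Top ρ (P.image (run ρ n j)) p₁ ∧ p₁.1 ≤ p₀.1 + n ∧
      Psi ρ X θ m η (P.image (run ρ n j)) p₁ ≤ Psi ρ X θ m η P p₀ - κ / 8 * n := by
  have hκ : 0 < κ := hX.1
  have hC : 1 ≤ C := hX.2.1
  have hNr : (P.card : ℝ) ≤ N₀ := by exact_mod_cast hN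
  have hN2 : (P.card : ℝ) ^ 2 ≤ (N₀ : ℝ) ^ 2 := pow_le_pow_left₀ (by positivity) hNr 2
  have hηN : η * (32 * (P.card : ℝ) ^ 2) ≤ κ :=
    (mul_le_mul_of_nonneg_left (by linarith) hη.le).trans h3
  have hcardle : ∀ (n : ℕ) (j : ℤ), m * ((P.image (run ρ n j)).card : ℝ) ≤ m * P.card := by
    intro n j
    refine mul_le_mul_of_nonneg_left ?_ hm.le
    exact_mod_cast card_image_le
  by_cases hA : ∃ p ∈ P, ∃ p' ∈ P, Θ < qd ρ p p'
  · -- Case A
    obtain ⟨p, hp, p', hp', hΘ⟩ := hA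
    have hQ : Θ ≤ QQ ρ P := by
      unfold QQ
      have e1 : qd ρ p p' ≤ ∑ p'' ∈ P, qd ρ p p'' :=
        single_le_sum (f := fun p'' => qd ρ p p'') (fun p'' _ => qd_nonneg p p'') hp'
      have e2 : ∑ p'' ∈ P, qd ρ p p'' ≤ ∑ p ∈ P, ∑ p'' ∈ P, qd ρ p p'' :=
        single_le_sum (f := fun p => ∑ p'' ∈ P, qd ρ p p'')
          (fun p _ => sum_nonneg fun p'' _ => qd_nonneg p p'') hp
      linarith
    have h6 := QQ_two hρ (w := 1 / 2) (by norm_num) (by norm_num) 0 P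
    obtain ⟨b, hb⟩ : ∃ b : ℤ, QQ ρ (P.image (run ρ 1 b)) ≤ 98 / 100 * QQ ρ P + 64 / 100 * (P.card : ℝ) ^ 2 := by
      by_contra hcon
      push Not at hcon
      have e1 := hcon 0
      have e2 := hcon (1 - 0)
      linarith
    obtain ⟨p₁, hT1, hl1⟩ := exists_top hρ hT 1 b
    refine ⟨1, b, p₁, le_refl _, hT1, hl1, ?_⟩
    have h7 := VV_run hX hθ hT hM 1 b hT1.2.1
    have h8 : Real.log ((M : ℝ) + (1 : ℕ) + 3) ≤ Real.log (M + 5) := by
      refine Real.log_le_log (by positivity) ?_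
      push_cast
      linarith
    have h9 := mul_le_mul_of_nonneg_left h8 (show (0 : ℝ) ≤ C * ((1 : ℕ) + 1) by positivity)
    have h10 := mul_le_mul_of_nonneg_left hb hη.le
    have h11 := mul_le_mul_of_nonneg_left hQ hη.le
    have h12 := hcardle 1 b
    unfold Psi
    push_cast at h7 h9 ⊢
    nlinarith
  push Not at hA
  by_cases hB : ∃ p ∈ P, p ≠ p₀ ∧ p.1 = p₀.1
  · -- Case B
    obtain ⟨p, hp, hne, hlev⟩ := hB
    have hcB := caseB_card hρ hT.1 hp hT.2.1 hne hlev hu (hA p₀ hT.2.1 p hp)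
    have hQB := QQ_avg hρ k P
    have hsum : ∑ j ∈ range (2 ^ k), (m * ((P.image (run ρ k (j : ℕ))).card : ℝ) +
        η * QQ ρ (P.image (run ρ k (j : ℕ)))) ≤
        ∑ _j ∈ range (2 ^ k), (m * ((P.card : ℝ) - 1 / 2) + η * (QQ ρ P + 32 * (P.card : ℝ) ^ 2)) := by
      rw [sum_add_distrib, ← mul_sum, ← mul_sum, sum_const, card_range, nsmul_eq_mul]
      push_cast
      have e1 := mul_le_mul_of_nonneg_left hcB hm.le
      have e2 := mul_le_mul_of_nonneg_left hQB hη.le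
      nlinarith
    obtain ⟨j, -, hj⟩ := exists_le_of_sum_le (by simp) hsum
    obtain ⟨p₁, hT1, hl1⟩ := exists_top hρ hT k (j : ℤ)
    refine ⟨k, j, p₁, hk, hT1, hl1, ?_⟩
    have h7 := VV_run hX hθ hT hM k (j : ℤ) hT1.2.1
    have hk0 : (0 : ℝ) ≤ k := by positivity
    have hkk : κ / 8 * (k : ℝ) ≤ k := by nlinarith
    unfold Psi
    nlinarith
  · -- Case C
    push Not at hB
    have hlow : ∀ p ∈ P, p ≠ p₀ → p.1 < p₀.1 := fun p hp hne =>
      lt_of_le_of_ne (hT.2.2 p hp) (hB p hp hne)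
    obtain ⟨b, hb, hT1, hT2⟩ := caseC hρ hX hθ h1 h2 hT hM hlow hcard
    have h6 := QQ_two hρ (w := 51 / 100) (by norm_num) (by norm_num) b P
    have h7 := mul_le_mul_of_nonneg_left h6 hη.le
    have h8 := hcardle 1 b
    have h9 := hcardle 1 (1 - b)
    have h10 := mul_nonneg hη.le (QQ_nonneg (ρ := ρ) P)
    have hsum : (51 * Psi ρ X θ m η (P.image (run ρ 1 b)) (run ρ 1 b p₀) +
        49 * Psi ρ X θ m η (P.image (run ρ 1 (1 - b))) (run ρ 1 (1 - b) p₀)) / 100 ≤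
        Psi ρ X θ m η P p₀ - κ / 8 := by
      unfold Psi
      nlinarith
    by_cases hfst : Psi ρ X θ m η (P.image (run ρ 1 b)) (run ρ 1 b p₀) ≤ Psi ρ X θ m η P p₀ - κ / 8
    · refine ⟨1, b, _, le_refl _, hT1, run_fst_le 1 b p₀, ?_⟩
      rw [Nat.cast_one, mul_one]
      exact hfst
    · refine ⟨1, 1 - b, _, le_refl _, hT2, run_fst_le 1 (1 - b) p₀, ?_⟩
      rw [Nat.cast_one, mul_one]
      push Not at hfst
      linarith

/-- The induction. -/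
theorem sync_main (hρ : Odd ρ) (hX : GoodX X κ C) (hκ1 : κ ≤ 1) {θ m η Θ : ℝ} {M k N₀ : ℕ}
    (hθ : 0 < θ) (hm : 0 < m) (hη : 0 < η)
    (h1 : θ * (2 * C * Real.log (M + 5)) ≤ 1) (h2 : θ * (2 * C * Real.log (M + 5)) ^ 2 ≤ κ / 2)
    (h3 : η * (32 * (N₀ : ℝ) ^ 2) ≤ κ) (hk : 1 ≤ k)
    (h4 : C * (k + 1) * Real.log (M + k + 3) + 1 + k ≤ m / 2)
    (h5 : 2 * C * Real.log (M + 5) + 2 ≤ 2 / 100 * (η * Θ))
    (hu : ∀ β : ℤ, Real.sqrt |(β : ℝ)| ≤ Θ → uu k (0, β) ≤ 1 / 2)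
    (n : ℕ) {P : Finset (ℕ × ℤ)} {p₀ : ℕ × ℤ} (hT : Top ρ P p₀) (hM : p₀.1 + n ≤ M)
    (hN : P.card ≤ N₀) (hΨ : Psi ρ X θ m η P p₀ ≤ κ / 8 * n) : Sync ρ n P := by
  induction n using Nat.strong_induction_on generalizing P p₀ with
  | _ n ih =>
    rcases le_or_gt P.card 1 with hc | hc
    · exact Sync.of_card n hc
    obtain ⟨n₁, j, p₁, hn₁, hT1, hl1, hdec⟩ := exists_dec hρ hX hκ1 hθ hm hη h1 h2 h3 hk h4 h5 hu hT
      (by omega) hN hc
    have hκ : 0 < κ := hX.1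
    have hpos : 0 ≤ Psi ρ X θ m η (P.image (run ρ n₁ j)) p₁ := by
      unfold Psi
      have e1 := VV_nonneg (ρ := ρ) hX hθ hT1.2.1
      have e2 := mul_nonneg hη.le (QQ_nonneg (ρ := ρ) (P.image (run ρ n₁ j)))
      have e3 : 0 ≤ m * ((P.image (run ρ n₁ j)).card : ℝ) := by positivity
      linarith
    have hle : n₁ ≤ n := by
      have e1 : κ / 8 * (n₁ : ℝ) ≤ κ / 8 * n := by linarith
      have e2 : (n₁ : ℝ) ≤ n := le_of_mul_le_mul_left e1 (by positivity)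
      exact_mod_cast e2
    obtain ⟨n₂, rfl⟩ := Nat.exists_eq_add_of_le hle
    refine Sync.of_run hρ (i := j) (ih n₂ (by omega) hT1 (by omega) (card_image_le.trans hN) ?_)
    push_cast at hΨ
    linarith

end Pool.Agent.Helper85.PW
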