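import Pool.Agent.Helper8.CO.Uni
import Pool.Agent.Helper8.PW.XDef

/-!
# Power intervals: whole windows synchronize (definitions and blocks)

`T` is the map `T 2 3 (fun _ => ρ)`, `ρ` odd. A particle is a pair `(κ, y)`: an orbit which has made `κ` odd steps and is at the point
`y`; if the base point `n` is replaced by `n + 2 ^ t j` then after `t` steps `y` becomes `y + 3 ^ κ j`. `run ρ k j p` is the particle `p` after
`k` more steps, if the free digits are those of `j`. `Sync ρ k P`: for some choice of the digits all particles of the finite set `P`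
are at the same particle after `k` steps.

GOAL (`SW`, `Helper8/PW/XDef`): for some `K` and all large `t` some `a` has `MM ρ (K t) 0 a (a + ρ j)` for ALL `j ≤ exp (t / K)`.

Proof. Phase 1: `t` free steps; for some `n₀` the particles of the window satisfy `∑ (1 + √|offset|) ≤ C t` (`SS_le`). Phase 2: `t`
more free steps leave at most `C t ^ 0.6` particles (`uu_rate_all`, reference particles), `QQ ≤ C t ^ 2`. Phase 3: adaptive choice of the
digits; `p₀` is a particle of the highest level. The potential is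
`Ψ = (1 / θ) log ∑_{p ∈ P} exp (θ X (st p p₀)) + m₁ |P| + η QQ P`.
* Case A: some pair has `qd > Θ`: one uniform step, `QQ` is contracted.
* Case B: no such pair, another particle at the level of `p₀`: `k` uniform steps, they merge with probability `≥ 1 / 2` (`uu_rate_all`).
* Case C: no such pair, all others are below `p₀`: one step, `p₀` is even with probability `51 / 100`; `X` decreases in the mean by `κ`.
In each case some digits decrease `Ψ` by `(number of steps) / 8`.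
-/

set_option autoImplicit false

namespace Pool.Agent.Helper85.PW

open Pool.Agent.Helper68.Moeller Pool.Agent.Helper8.CO Pool.Agent.Helper8.PW Finset Classical

/-- The particle `p` after `k` steps, with the free digits of `j`. -/
noncomputable def run (ρ : ℤ) (k : ℕ) (j : ℤ) (p : ℕ × ℤ) : ℕ × ℤ :=
  (p.1 + cnt 2 3 (fun _ => ρ) k (p.2 + 3 ^ p.1 * j), (T 2 3 (fun _ => ρ))^[k] (p.2 + 3 ^ p.1 * j))

/-- Some digits send all particles of `P` to the same particle in `k` steps. -/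
def Sync (ρ : ℤ) (k : ℕ) (P : Finset (ℕ × ℤ)) : Prop :=
  ∃ j : ℤ, ∀ p ∈ P, ∀ p' ∈ P, run ρ k j p = run ρ k j p'

/-- The congruences modulo `ρ` between the particles. -/
def Cg (ρ : ℤ) (P : Finset (ℕ × ℤ)) : Prop :=
  ∃ a g : ℤ, IsCoprime a ρ ∧ ∀ p ∈ P, ρ ∣ a * p.2 - 3 ^ p.1 * g

/-- The state of the pair `(p, p₀)`, `p₀` at the higher level. -/
def st (ρ : ℤ) (p p₀ : ℕ × ℤ) : ℕ × ℤ := (p₀.1 - p.1, (p₀.2 - 3 ^ (p₀.1 - p.1) * p.2) / ρ)

/-- The square root of the difference, in the scale of the lower particle. -/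
noncomputable def qd (ρ : ℤ) (p p' : ℕ × ℤ) : ℝ :=
  Real.sqrt (3 ^ (min p.1 p'.1) * |(p.2 : ℝ) / 3 ^ p.1 - (p'.2 : ℝ) / 3 ^ p'.1| / |(ρ : ℝ)|)

/-- Its sum over all pairs. -/
noncomputable def QQ (ρ : ℤ) (P : Finset (ℕ × ℤ)) : ℝ := ∑ p ∈ P, ∑ p' ∈ P, qd ρ p p'

/-! ### The linear potential (block X, `Helper8/PW/X.lean`) -/

/-- The properties of the potential of a pair. -/
def GoodX (X : ℕ × ℤ → ℝ) (κ C : ℝ) : Prop := 0 < κ ∧ 1 ≤ C ∧ (∀ s, 0 ≤ X s) ∧ (∀ b, X (0, b) = 0) ∧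
  (∀ s, s.1 ≠ 0 → avb X s ≤ X s - κ) ∧ (∀ s, X s ≤ C * s.1) ∧
  (∀ (s s' : ℕ × ℤ) (k : ℕ), s'.1 ≤ s.1 + k → X s' ≤ X s + C * (k + 1) * Real.log (s.1 + k + 3))

/-! ### The potential of a configuration -/

/-- The smooth maximum of the potentials relative to `p₀`. -/
noncomputable def VV (ρ : ℤ) (X : ℕ × ℤ → ℝ) (θ : ℝ) (P : Finset (ℕ × ℤ)) (p₀ : ℕ × ℤ) : ℝ :=
  1 / θ * Real.log (∑ p ∈ P, Real.exp (θ * X (st ρ p p₀)))

/-- A configuration and a particle of the highest level. -/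
def Top (ρ : ℤ) (P : Finset (ℕ × ℤ)) (p₀ : ℕ × ℤ) : Prop :=
  Cg ρ P ∧ p₀ ∈ P ∧ ∀ p ∈ P, p.1 ≤ p₀.1

/-- Phase 1 and phase 2 (block S8): `t` and `t` free steps. -/
def Start (ρ : ℤ) : Prop := ∃ C : ℝ, 1 ≤ C ∧ ∀ t J : ℕ, 1 ≤ t → ((J : ℝ) + 1) ^ 2 * (98 / 100) ^ t ≤ 1 →
  ∃ a : ℤ, (((Part ρ J (t + t) a).card : ℝ) ≤ C * (t : ℝ) ^ (3 / 5 : ℝ) ∧ QQ ρ (Part ρ J (t + t) a) ≤ C * (t : ℝ) ^ 2)

end Pool.Agent.Helper85.PW
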